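import Mathlib

open Finset

set_option linter.unusedSectionVars false

namespace Pool.Agent.H632R3.Conv

noncomputable section

variable {A : Type} [AddCommGroup A] [Fintype A] [DecidableEq A]

/-- Convolution. -/
def conv (f g : A → ℝ) (x : A) : ℝ := ∑ y, f y * g (x - y)

/-- Convolution powers. -/
def cpow (f : A → ℝ) : ℕ → A → ℝ
  | 0 => fun x => if x = 0 then 1 else 0
  | t + 1 => conv f (cpow f t)

/-- Total variation distance to the uniform distribution. -/
def tv (f : A → ℝ) : ℝ := (1 / 2) * ∑ x, |f x - 1 / (Fintype.card A : ℝ)|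

/-- Fourier transform. -/
def hat (f : A → ℝ) (ψ : AddChar A ℂ) : ℂ := ∑ x, (f x : ℂ) * ψ x

theorem cardpos : (0 : ℝ) < Fintype.card A := by exact_mod_cast Fintype.card_pos

theorem hat_conv (f g : A → ℝ) (ψ : AddChar A ℂ) : hat (conv f g) ψ = hat f ψ * hat g ψ := by
  unfold hat conv
  push_cast
  simp_rw [Finset.sum_mul]
  rw [Finset.sum_comm]
  refine Finset.sum_congr rfl fun y _ => ?_
  rw [Finset.mul_sum, ← Equiv.sum_comp (Equiv.addRight y)]
  refine Finset.sum_congr rfl fun z _ => ?_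
  simp only [Equiv.coe_addRight, add_sub_cancel_right, AddChar.map_add_eq_mul]
  ring

theorem hat_cpow (f : A → ℝ) (t : ℕ) (ψ : AddChar A ℂ) : hat (cpow f t) ψ = hat f ψ ^ t := by
  induction t with
  | zero =>
    unfold hat cpow
    rw [Finset.sum_eq_single (0 : A)]
    · simp
    · intro x _ hx; simp [hx]
    · simp
  | succ t ih => rw [cpow, hat_conv, ih, pow_succ']

theorem conv_sum (f g : A → ℝ) : ∑ x, conv f g x = (∑ x, f x) * ∑ x, g x := by
  unfold conv
  rw [Finset.sum_comm, Finset.sum_mul]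
  refine Finset.sum_congr rfl fun y _ => ?_
  rw [Finset.mul_sum, ← Equiv.sum_comp (Equiv.addRight y)]
  simp

theorem cpow_sum (f : A → ℝ) (hf : ∑ x, f x = 1) (t : ℕ) : ∑ x, cpow f t x = 1 := by
  induction t with
  | zero => simp [cpow]
  | succ t ih => rw [cpow, conv_sum, hf, ih, one_mul]

theorem conv_nonneg {f g : A → ℝ} (hf : ∀ x, 0 ≤ f x) (hg : ∀ x, 0 ≤ g x) (x : A) :
    0 ≤ conv f g x := Finset.sum_nonneg fun y _ => mul_nonneg (hf y) (hg _)

theorem cpow_nonneg {f : A → ℝ} (hf : ∀ x, 0 ≤ f x) (t : ℕ) (x : A) : 0 ≤ cpow f t x := by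
  induction t generalizing x with
  | zero => simp only [cpow]; split_ifs <;> norm_num
  | succ t ih => exact conv_nonneg hf (fun x => ih x) x

theorem tv_nonneg (f : A → ℝ) : 0 ≤ tv f :=
  mul_nonneg (by norm_num) (Finset.sum_nonneg fun _ _ => abs_nonneg _)

theorem tv_conv_le {f g : A → ℝ} (hf : ∀ x, 0 ≤ f x) (hf1 : ∑ x, f x = 1) :
    tv (conv f g) ≤ tv g := by
  unfold tv
  refine mul_le_mul_of_nonneg_left ?_ (by norm_num)
  have h1 : ∀ x, |conv f g x - 1 / (Fintype.card A : ℝ)| ≤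
      ∑ y, f y * |g (x - y) - 1 / (Fintype.card A : ℝ)| := by
    intro x
    have h2 : conv f g x - 1 / (Fintype.card A : ℝ) =
        ∑ y, f y * (g (x - y) - 1 / (Fintype.card A : ℝ)) := by
      simp_rw [mul_sub]
      rw [Finset.sum_sub_distrib, ← Finset.sum_mul, hf1, one_mul]
      rfl
    rw [h2]
    refine (Finset.abs_sum_le_sum_abs _ _).trans (le_of_eq ?_)
    refine Finset.sum_congr rfl fun y _ => ?_
    rw [abs_mul, abs_of_nonneg (hf y)]
  calc ∑ x, |conv f g x - 1 / (Fintype.card A : ℝ)|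
      ≤ ∑ x, ∑ y, f y * |g (x - y) - 1 / (Fintype.card A : ℝ)| := Finset.sum_le_sum fun x _ => h1 x
    _ = ∑ y, f y * ∑ x, |g x - 1 / (Fintype.card A : ℝ)| := by
        rw [Finset.sum_comm]
        refine Finset.sum_congr rfl fun y _ => ?_
        rw [Finset.mul_sum, ← Equiv.sum_comp (Equiv.addRight y)]
        simp
    _ = ∑ x, |g x - 1 / (Fintype.card A : ℝ)| := by rw [← Finset.sum_mul, hf1, one_mul]

theorem tv_antitone {f : A → ℝ} (hf : ∀ x, 0 ≤ f x) (hf1 : ∑ x, f x = 1) :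
    Antitone fun t => tv (cpow f t) :=
  antitone_nat_of_succ_le fun _ => tv_conv_le hf hf1

/-- Events give lower bounds for total variation. -/
theorem tv_event {p : A → ℝ} (hp1 : ∑ x, p x = 1) (B : Finset A) :
    (∑ x ∈ B, p x) - ∑ _x ∈ B, 1 / (Fintype.card A : ℝ) ≤ tv p := by
  have hN := cardpos (A := A)
  have h0 : ∑ x, (p x - 1 / (Fintype.card A : ℝ)) = 0 := by
    rw [Finset.sum_sub_distrib, hp1, Finset.sum_const, Finset.card_univ, nsmul_eq_mul]
    field_simp
    ring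
  have h1 : ∑ x ∈ B, (p x - 1 / (Fintype.card A : ℝ)) +
      ∑ x ∈ Bᶜ, (p x - 1 / (Fintype.card A : ℝ)) = 0 := by
    rw [Finset.sum_add_sum_compl, h0]
  have h2 : ∑ x ∈ B, (p x - 1 / (Fintype.card A : ℝ)) ≤
      ∑ x ∈ B, |p x - 1 / (Fintype.card A : ℝ)| := Finset.sum_le_sum fun x _ => le_abs_self _
  have h3 : -∑ x ∈ Bᶜ, (p x - 1 / (Fintype.card A : ℝ)) ≤
      ∑ x ∈ Bᶜ, |p x - 1 / (Fintype.card A : ℝ)| := by
    rw [← Finset.sum_neg_distrib]
    exact Finset.sum_le_sum fun x _ => neg_le_abs _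
  have h4 : ∑ x, |p x - 1 / (Fintype.card A : ℝ)| =
      ∑ x ∈ B, |p x - 1 / (Fintype.card A : ℝ)| + ∑ x ∈ Bᶜ, |p x - 1 / (Fintype.card A : ℝ)| :=
    (Finset.sum_add_sum_compl _ _).symm
  rw [← Finset.sum_sub_distrib]
  unfold tv
  rw [h4]
  linarith

theorem conj_char (ψ : AddChar A ℂ) (x : A) : (starRingEnd ℂ) (ψ x) = (-ψ) x := by
  rw [← AddChar.map_neg_eq_conj]
  rfl

/-- Second moment lower bound. -/
theorem tv_lower {p : A → ℝ} (hp : ∀ x, 0 ≤ p x) (hp1 : ∑ x, p x = 1) {m : ℕ} (hm : 0 < m)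
    (χ : Fin m → AddChar A ℂ) (hχ : Function.Injective χ) (a b : ℝ) (ha : 0 < a)
    (hb : b ≤ a ^ 2) (h1 : ∀ i, hat p (χ i) = a) (h2 : ∀ i j, i ≠ j → hat p (χ i - χ j) = b) :
    1 - 8 / (m * a ^ 2) ≤ tv p := by
  classical
  have hN := cardpos (A := A)
  have hm' : (0 : ℝ) < m := by exact_mod_cast hm
  set F : A → ℂ := fun x => ∑ i, χ i x with hF
  have hFsq : ∀ x, ((‖F x‖ ^ 2 : ℝ) : ℂ) = ∑ i, ∑ j, (χ i - χ j) x := by
    intro x
    rw [← Complex.normSq_eq_norm_sq, ← Complex.mul_conj, hF]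
    simp only [map_sum, conj_char]
    rw [Finset.sum_mul_sum]
    refine Finset.sum_congr rfl fun i _ => Finset.sum_congr rfl fun j _ => ?_
    rw [sub_eq_add_neg, AddChar.add_apply]
  -- second moment under `p`
  have hE2 : ∑ x, p x * ‖F x‖ ^ 2 = m + m * (m - 1) * b := by
    have : ((∑ x, p x * ‖F x‖ ^ 2 : ℝ) : ℂ) = ((m + m * (m - 1) * b : ℝ) : ℂ) := by
      push_cast
      have e1 : ∀ x, (p x : ℂ) * (‖F x‖ : ℂ) ^ 2 = ∑ i, ∑ j, (p x : ℂ) * (χ i - χ j) x := by
        intro x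
        have := hFsq x
        push_cast at this
        rw [this, Finset.mul_sum]
        exact Finset.sum_congr rfl fun i _ => Finset.mul_sum _ _ _
      simp_rw [e1]
      rw [Finset.sum_comm]
      have e2 : ∀ i, ∑ x, ∑ j, (p x : ℂ) * (χ i - χ j) x = ∑ j, hat p (χ i - χ j) := by
        intro i; rw [Finset.sum_comm]; rfl
      simp_rw [e2]
      have e3 : ∀ i j, hat p (χ i - χ j) = if i = j then (1 : ℂ) else b := by
        intro i j
        split_ifs with h
        · subst h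
          rw [sub_self]
          unfold hat
          simp only [AddChar.zero_apply, mul_one]
          exact_mod_cast hp1
        · exact h2 i j h
      simp_rw [e3]
      have e4 : ∀ i : Fin m, ∑ j : Fin m, (if i = j then (1 : ℂ) else b) =
          1 + ((m : ℂ) - 1) * b := by
        intro i
        have : ∀ j : Fin m, (if i = j then (1 : ℂ) else b) = b + if i = j then (1 - b : ℂ) else 0 := by
          intro j; split_ifs <;> ring
        simp_rw [this]
        rw [Finset.sum_add_distrib, Finset.sum_ite_eq]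
        simp
        ring
      simp_rw [e4]
      simp
      ring
    exact_mod_cast this
  -- second moment under the uniform law
  have hU2 : ∑ x, ‖F x‖ ^ 2 = m * (Fintype.card A : ℝ) := by
    have : ((∑ x, ‖F x‖ ^ 2 : ℝ) : ℂ) = ((m * (Fintype.card A : ℝ) : ℝ) : ℂ) := by
      rw [Complex.ofReal_sum]
      simp_rw [hFsq]
      rw [Finset.sum_comm]
      have e2 : ∀ i, ∑ x, ∑ j, (χ i - χ j) x = ∑ j, ∑ x, (χ i - χ j) x := fun i =>
        Finset.sum_comm
      simp_rw [e2]
      have e3 : ∀ i j, ∑ x, (χ i - χ j) x = if i = j then (Fintype.card A : ℂ) else 0 := by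
        intro i j
        rw [AddChar.sum_eq_ite]
        by_cases h : i = j
        · simp [h]
        · rw [if_neg h, if_neg]
          intro hc
          exact h (hχ (sub_eq_zero.mp hc))
      simp_rw [e3]
      simp
    exact_mod_cast this
  -- first moment
  have hE1 : ∑ x, p x * (F x).re = m * a := by
    have : ∑ x, (p x : ℂ) * F x = m * a := by
      have e1 : ∀ x, (p x : ℂ) * F x = ∑ i, (p x : ℂ) * χ i x := fun x => Finset.mul_sum _ _ _
      simp_rw [e1]
      rw [Finset.sum_comm]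
      have e2 : ∀ i, ∑ x, (p x : ℂ) * χ i x = a := h1
      simp_rw [e2]
      simp
    have h3 := congrArg Complex.re this
    rw [Complex.re_sum] at h3
    simpa using h3
  -- centred second moment
  have hV : ∑ x, p x * ‖F x - (m * a : ℝ)‖ ^ 2 ≤ m := by
    have e1 : ∀ x, ‖F x - (m * a : ℝ)‖ ^ 2 = ‖F x‖ ^ 2 - 2 * (m * a) * (F x).re + (m * a) ^ 2 := by
      intro x
      rw [← Complex.normSq_eq_norm_sq, ← Complex.normSq_eq_norm_sq, Complex.normSq_apply,
        Complex.normSq_apply]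
      simp only [Complex.sub_re, Complex.sub_im, Complex.ofReal_re, Complex.ofReal_im]
      ring
    have e2 : ∑ x, p x * ‖F x - (m * a : ℝ)‖ ^ 2 =
        (∑ x, p x * ‖F x‖ ^ 2) - 2 * (m * a) * (∑ x, p x * (F x).re) + (m * a) ^ 2 * ∑ x, p x := by
      rw [Finset.mul_sum, Finset.mul_sum, ← Finset.sum_sub_distrib, ← Finset.sum_add_distrib]
      refine Finset.sum_congr rfl fun x _ => ?_
      rw [e1]; ring
    rw [e2, hE2, hE1, hp1]
    have hm1 : (1 : ℝ) ≤ m := by exact_mod_cast hm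
    have : (m : ℝ) * (m - 1) * b ≤ m * (m - 1) * a ^ 2 :=
      mul_le_mul_of_nonneg_left hb (mul_nonneg hm'.le (by linarith))
    nlinarith [sq_nonneg a]
  set B : Finset A := univ.filter fun x => m * a / 2 ≤ ‖F x‖ with hB
  have hma : (0 : ℝ) < m * a := mul_pos hm' ha
  have hc : (0 : ℝ) < m * a ^ 2 := by positivity
  -- small probability of the complement under `p`
  have hBc : ∑ x ∈ Bᶜ, p x ≤ 4 / (m * a ^ 2) := by
    have h3 : ∑ x ∈ Bᶜ, p x * ((m : ℝ) * a / 2) ^ 2 ≤ (m : ℝ) := by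
      calc ∑ x ∈ Bᶜ, p x * ((m : ℝ) * a / 2) ^ 2
          ≤ ∑ x ∈ Bᶜ, p x * ‖F x - (m * a : ℝ)‖ ^ 2 := by
            refine Finset.sum_le_sum fun x hx => mul_le_mul_of_nonneg_left ?_ (hp x)
            have hx' : ‖F x‖ < m * a / 2 := by
              simp only [hB, Finset.mem_compl, Finset.mem_filter, Finset.mem_univ, true_and,
                not_le] at hx
              exact hx
            have h4 : ‖((m * a : ℝ) : ℂ)‖ = m * a := by
              rw [Complex.norm_real, Real.norm_of_nonneg hma.le]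
            have h5 := norm_sub_norm_le ((m * a : ℝ) : ℂ) (F x)
            rw [norm_sub_rev] at h5
            refine pow_le_pow_left₀ (by positivity) ?_ 2
            rw [h4] at h5
            linarith
        _ ≤ ∑ x, p x * ‖F x - (m * a : ℝ)‖ ^ 2 :=
            Finset.sum_le_sum_of_subset_of_nonneg (Finset.subset_univ _) fun x _ _ =>
              mul_nonneg (hp x) (sq_nonneg _)
        _ ≤ m := hV
    rw [← Finset.sum_mul] at h3
    rw [le_div_iff₀ hc]
    have : (m * a / 2) ^ 2 = m * (m * a ^ 2) / 4 := by ring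
    rw [this] at h3
    by_contra hcon
    push Not at hcon
    nlinarith
  have hBu : ∑ _x ∈ B, 1 / (Fintype.card A : ℝ) ≤ 4 / (m * a ^ 2) := by
    have h3 : ∑ _x ∈ B, ((m : ℝ) * a / 2) ^ 2 ≤ (m : ℝ) * (Fintype.card A : ℝ) := by
      calc ∑ _x ∈ B, ((m : ℝ) * a / 2) ^ 2 ≤ ∑ x ∈ B, ‖F x‖ ^ 2 := by
            refine Finset.sum_le_sum fun x hx => pow_le_pow_left₀ (by positivity) ?_ 2
            simpa [hB] using hx
        _ ≤ ∑ x, ‖F x‖ ^ 2 :=
            Finset.sum_le_sum_of_subset_of_nonneg (Finset.subset_univ _) fun x _ _ => sq_nonneg _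
        _ = _ := hU2
    rw [Finset.sum_const, nsmul_eq_mul] at h3 ⊢
    rw [le_div_iff₀ hc, mul_one_div, div_mul_eq_mul_div, div_le_iff₀ hN]
    have : (m * a / 2) ^ 2 = m * (m * a ^ 2) / 4 := by ring
    rw [this] at h3
    by_contra hcon
    push Not at hcon
    nlinarith
  have hBp : ∑ x ∈ B, p x = 1 - ∑ x ∈ Bᶜ, p x := by
    rw [← hp1, ← Finset.sum_add_sum_compl B]; ring
  have := tv_event hp1 B
  rw [hBp] at this
  have e8 : 8 / (m * a ^ 2) = 4 / (m * a ^ 2) + 4 / (m * a ^ 2) := by ring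
  rw [e8]
  linarith

/-- Uniform distribution. -/
def unif (A : Type) [Fintype A] : A → ℝ := fun _ => 1 / (Fintype.card A : ℝ)

theorem cpow_mix {σ ν : A → ℝ} {θ : ℝ} (hν : ∑ x, ν x = 1)
    (h : ∀ x, σ x = (1 - θ) * ν x + θ * (1 / (Fintype.card A : ℝ))) (t : ℕ) (x : A) :
    cpow σ t x = (1 - θ) ^ t * cpow ν t x +
      (1 - (1 - θ) ^ t) * (1 / (Fintype.card A : ℝ)) := by
  have hN := cardpos (A := A)
  induction t generalizing x with
  | zero => simp [cpow]
  | succ t ih =>
    have hσ : ∑ x, σ x = 1 := by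
      simp_rw [h]
      rw [Finset.sum_add_distrib, ← Finset.mul_sum, hν, Finset.sum_const, Finset.card_univ,
        nsmul_eq_mul]
      field_simp
      ring
    have e1 : cpow σ (t + 1) x = (1 - θ) ^ t * (∑ y, σ y * cpow ν t (x - y)) +
        (1 - (1 - θ) ^ t) * (1 / (Fintype.card A : ℝ)) * ∑ y, σ y := by
      simp only [cpow, conv]
      simp_rw [ih]
      rw [Finset.mul_sum, Finset.mul_sum, ← Finset.sum_add_distrib]
      exact Finset.sum_congr rfl fun y _ => by ring
    have e2 : ∑ y, σ y * cpow ν t (x - y) = (1 - θ) * cpow ν (t + 1) x +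
        θ * (1 / (Fintype.card A : ℝ)) * ∑ y, cpow ν t (x - y) := by
      simp only [cpow, conv]
      rw [Finset.mul_sum, Finset.mul_sum, ← Finset.sum_add_distrib]
      refine Finset.sum_congr rfl fun y _ => ?_
      rw [h]; ring
    have e3 : ∑ y, cpow ν t (x - y) = 1 := by
      have h5 := Equiv.sum_comp (Equiv.subLeft x) (cpow ν t)
      simp only [Equiv.subLeft_apply] at h5
      rw [h5]
      exact cpow_sum ν hν t
    rw [e1, e2, e3, hσ]
    ring

theorem tv_mix {σ ν : A → ℝ} {θ : ℝ} (h1 : θ ≤ 1) (hν : ∑ x, ν x = 1)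
    (h : ∀ x, σ x = (1 - θ) * ν x + θ * (1 / (Fintype.card A : ℝ))) (t : ℕ) :
    tv (cpow σ t) = (1 - θ) ^ t * tv (cpow ν t) := by
  have key : ∀ x, |cpow σ t x - 1 / (Fintype.card A : ℝ)| =
      (1 - θ) ^ t * |cpow ν t x - 1 / (Fintype.card A : ℝ)| := by
    intro x
    rw [cpow_mix hν h]
    have : (1 - θ) ^ t * cpow ν t x + (1 - (1 - θ) ^ t) * (1 / (Fintype.card A : ℝ)) -
        1 / (Fintype.card A : ℝ) = (1 - θ) ^ t * (cpow ν t x - 1 / (Fintype.card A : ℝ)) := by ring
    rw [this, abs_mul, abs_of_nonneg (pow_nonneg (sub_nonneg.mpr h1) t)]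
  unfold tv
  simp_rw [key]
  rw [← Finset.mul_sum]
  ring

/-- Upper bound for total variation by Fourier coefficients. -/
theorem tv_upper (p : A → ℝ) (hp1 : ∑ x, p x = 1) :
    tv p ≤ (1 / 2) * ∑ ψ ∈ univ.filter (fun ψ : AddChar A ℂ => ψ ≠ 0), ‖hat p ψ‖ := by
  have hN := cardpos (A := A)
  have h1 : ∀ x, |p x - 1 / (Fintype.card A : ℝ)| ≤
      (1 / (Fintype.card A : ℝ)) *
        ∑ ψ ∈ univ.filter (fun ψ : AddChar A ℂ => ψ ≠ 0), ‖hat p ψ‖ := by
    intro x
    have h2 : ∑ ψ : AddChar A ℂ, hat p ψ * ψ (-x) = (Fintype.card A : ℂ) * p x := by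
      unfold hat
      simp_rw [Finset.sum_mul]
      rw [Finset.sum_comm]
      have e1 : ∀ y, ∑ ψ : AddChar A ℂ, (p y : ℂ) * ψ y * ψ (-x) =
          if y = x then (Fintype.card A : ℂ) * p y else 0 := by
        intro y
        have : ∀ ψ : AddChar A ℂ, (p y : ℂ) * ψ y * ψ (-x) = (p y : ℂ) * ψ (y - x) := by
          intro ψ; rw [sub_eq_add_neg, AddChar.map_add_eq_mul]; ring
        simp_rw [this]
        rw [← Finset.mul_sum, AddChar.sum_apply_eq_ite]
        by_cases h : y = x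
        · simp [h, mul_comm]
        · simp [h, sub_eq_zero]
      simp_rw [e1]
      simp
    have h3 : (Fintype.card A : ℂ) * (p x - 1 / (Fintype.card A : ℝ) : ℝ) =
        ∑ ψ ∈ univ.filter (fun ψ : AddChar A ℂ => ψ ≠ 0), hat p ψ * ψ (-x) := by
      have h4 : hat p 0 = 1 := by
        unfold hat
        simp only [AddChar.zero_apply, mul_one]
        exact_mod_cast hp1
      have h5 := Finset.sum_filter_add_sum_filter_not univ (fun ψ : AddChar A ℂ => ψ ≠ 0)
        (fun ψ => hat p ψ * ψ (-x))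
      rw [h2] at h5
      have h6 : univ.filter (fun ψ : AddChar A ℂ => ¬ ψ ≠ 0) = {0} := by
        ext ψ; simp
      rw [h6, Finset.sum_singleton, h4] at h5
      simp only [AddChar.zero_apply, mul_one] at h5
      have hN' : (Fintype.card A : ℂ) ≠ 0 := by exact_mod_cast hN.ne'
      push_cast
      rw [mul_sub, mul_one_div, div_self hN', ← h5]
      ring
    have h7 := congrArg norm h3
    rw [norm_mul, Complex.norm_real, Complex.norm_natCast, Real.norm_eq_abs] at h7
    have h8 : ‖∑ ψ ∈ univ.filter (fun ψ : AddChar A ℂ => ψ ≠ 0), hat p ψ * ψ (-x)‖ ≤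
        ∑ ψ ∈ univ.filter (fun ψ : AddChar A ℂ => ψ ≠ 0), ‖hat p ψ‖ := by
      refine (norm_sum_le _ _).trans (le_of_eq ?_)
      refine Finset.sum_congr rfl fun ψ _ => ?_
      rw [norm_mul, AddChar.norm_apply, mul_one]
    rw [one_div_mul_eq_div, le_div_iff₀ hN, mul_comm, h7]
    exact h8
  unfold tv
  refine mul_le_mul_of_nonneg_left ?_ (by norm_num)
  calc ∑ x, |p x - 1 / (Fintype.card A : ℝ)|
      ≤ ∑ _x : A, (1 / (Fintype.card A : ℝ)) *
        ∑ ψ ∈ univ.filter (fun ψ : AddChar A ℂ => ψ ≠ 0), ‖hat p ψ‖ :=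
        Finset.sum_le_sum fun x _ => h1 x
    _ = _ := by
        rw [Finset.sum_const, Finset.card_univ, nsmul_eq_mul]
        field_simp

open Classical in
/-- The uniform distribution on a subgroup. -/
def uH (H : AddSubgroup A) (x : A) : ℝ := if x ∈ H then 1 / (Nat.card H : ℝ) else 0

open Classical in
theorem hat_uH (H : AddSubgroup A) (ψ : AddChar A ℂ) :
    hat (uH H) ψ = if ∀ h ∈ H, ψ h = 1 then 1 else 0 := by
  have h0 : (Nat.card H : ℂ) ≠ 0 := by exact_mod_cast (Nat.card_pos (α := H)).ne'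
  have h1 : hat (uH H) ψ = (1 / (Nat.card H : ℂ)) * ∑ h : H, ψ.compAddMonoidHom H.subtype h := by
    unfold hat uH
    rw [Finset.mul_sum]
    have : ∀ x, (((if x ∈ H then 1 / (Nat.card H : ℝ) else 0 : ℝ)) : ℂ) * ψ x =
        if x ∈ H then (1 / (Nat.card H : ℂ)) * ψ x else 0 := by
      intro x; split_ifs <;> simp
    simp_rw [this]
    rw [← Finset.sum_filter]
    refine Finset.sum_bij' (fun x hx => ⟨x, by simpa using hx⟩) (fun h _ => (h : A)) ?_ ?_ ?_ ?_ ?_
    · intro x _; exact Finset.mem_univ _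
    · intro h _; simp
    · intro x _; rfl
    · intro h _; rfl
    · intro x _; rfl
  rw [h1, AddChar.sum_eq_ite]
  by_cases h : ∀ h ∈ H, ψ h = 1
  · have h2 : ψ.compAddMonoidHom H.subtype = 0 := by
      ext x
      simp only [AddChar.compAddMonoidHom_apply, AddSubgroup.coe_subtype, AddChar.zero_apply]
      exact h x x.2
    rw [if_pos h2, if_pos h, ← Nat.card_eq_fintype_card]
    field_simp
  · have h2 : ψ.compAddMonoidHom H.subtype ≠ 0 := by
      intro hc
      apply h
      intro x hx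
      have := DFunLike.congr_fun hc (⟨x, hx⟩ : H)
      simpa using this
    rw [if_neg h2, if_neg h, mul_zero]

theorem uH_nonneg (H : AddSubgroup A) (x : A) : 0 ≤ uH H x := by
  unfold uH; split_ifs <;> positivity

theorem sum_eq_hat_zero (f : A → ℝ) : ((∑ x, f x : ℝ) : ℂ) = hat f 0 := by
  unfold hat; simp

theorem uH_sum (H : AddSubgroup A) : ∑ x, uH H x = 1 := by
  have h := sum_eq_hat_zero (uH H)
  rw [hat_uH, if_pos (fun h _ => AddChar.zero_apply h)] at h
  exact_mod_cast h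

theorem uH_neg (H : AddSubgroup A) (x : A) : uH H (-x) = uH H x := by
  unfold uH
  by_cases h : x ∈ H
  · rw [if_pos h, if_pos (neg_mem_iff.mpr h)]
  · rw [if_neg h, if_neg (fun hc => h (neg_mem_iff.mp hc))]

end

end Pool.Agent.H632R3.Conv
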