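import Mathlib
import Pool.Agent.H632R3.Conv

open Finset Filter Topology

set_option linter.unusedSectionVars false

namespace Pool.Agent.H632R3.Conv

noncomputable section

variable {A : Type} [AddCommGroup A] [Fintype A] [DecidableEq A]

/-- Independent subgroups together with separating characters. -/
structure Frame (A : Type) [AddCommGroup A] (m : ℕ) where
  H : Fin m → AddSubgroup A
  χ : Fin m → AddChar A ℂ
  nontriv : ∀ i, ∃ h ∈ H i, χ i h ≠ 1
  triv : ∀ i j, i ≠ j → ∀ h ∈ H j, χ i h = 1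
  gen : ∀ ψ : AddChar A ℂ, ψ ≠ 0 → ∃ i, ∃ h ∈ H i, ψ h ≠ 1

variable {m : ℕ}

/-- The refresh measure: choose one of the subgroups uniformly and a uniform element of it. -/
def base (F : Frame A m) (x : A) : ℝ := (1 / (m : ℝ)) * ∑ i, uH (F.H i) x

open Classical in
/-- The number of subgroups on which `ψ` is nontrivial. -/
def nt (F : Frame A m) (ψ : AddChar A ℂ) : ℕ := (univ.filter fun i => ∃ h ∈ F.H i, ψ h ≠ 1).card

theorem nt_le (F : Frame A m) (ψ : AddChar A ℂ) : nt F ψ ≤ m := by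
  classical
  unfold nt
  exact (Finset.card_filter_le _ _).trans (by simp)

theorem nt_pos (F : Frame A m) {ψ : AddChar A ℂ} (h : ψ ≠ 0) : 1 ≤ nt F ψ := by
  classical
  obtain ⟨i, hi⟩ := F.gen ψ h
  exact Finset.card_pos.mpr ⟨i, by simpa using hi⟩

theorem hat_base (F : Frame A m) (hm : 0 < m) (ψ : AddChar A ℂ) :
    hat (base F) ψ = ((1 - (nt F ψ : ℝ) / m : ℝ) : ℂ) := by
  classical
  have hm' : (m : ℂ) ≠ 0 := by exact_mod_cast hm.ne'
  have h1 : hat (base F) ψ = (1 / (m : ℂ)) * ∑ i, hat (uH (F.H i)) ψ := by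
    unfold hat base
    push_cast
    rw [Finset.sum_comm, Finset.mul_sum]
    refine Finset.sum_congr rfl fun x _ => ?_
    rw [Finset.mul_sum, Finset.mul_sum, Finset.sum_mul]
    exact Finset.sum_congr rfl fun i _ => by ring
  rw [h1]
  simp_rw [hat_uH]
  rw [← Finset.sum_filter, Finset.sum_const, nsmul_eq_mul, mul_one]
  have h2 : (univ.filter fun i => ∀ h ∈ F.H i, ψ h = 1).card + nt F ψ = m := by
    unfold nt
    have h3 := Finset.card_filter_add_card_filter_not (s := (univ : Finset (Fin m)))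
      (fun i => ∀ h ∈ F.H i, ψ h = 1)
    rw [Finset.card_univ, Fintype.card_fin] at h3
    convert h3 using 3
    ext i
    simp
  have h3 : ((univ.filter fun i => ∀ h ∈ F.H i, ψ h = 1).card : ℂ) = m - nt F ψ := by
    have h4 := congrArg (fun n : ℕ => (n : ℂ)) h2
    push_cast at h4
    rw [← h4]; ring
  rw [h3]
  push_cast
  field_simp

theorem base_nonneg (F : Frame A m) (x : A) : 0 ≤ base F x :=
  mul_nonneg (by positivity) (Finset.sum_nonneg fun i _ => uH_nonneg _ x)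

theorem base_sum (F : Frame A m) (hm : 0 < m) : ∑ x, base F x = 1 := by
  have hm' : (m : ℝ) ≠ 0 := by exact_mod_cast hm.ne'
  unfold base
  rw [← Finset.mul_sum, Finset.sum_comm]
  simp_rw [uH_sum]
  simp
  field_simp

theorem base_neg (F : Frame A m) (x : A) : base F (-x) = base F x := by
  unfold base; simp_rw [uH_neg]

theorem nt_chi (F : Frame A m) (i : Fin m) : nt F (F.χ i) = 1 := by
  classical
  unfold nt
  rw [Finset.card_eq_one]
  refine ⟨i, ?_⟩
  ext j
  simp only [Finset.mem_filter, Finset.mem_univ, true_and, Finset.mem_singleton]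
  constructor
  · rintro ⟨h, hh, h1⟩
    by_contra hne
    exact h1 (F.triv i j (fun e => hne e.symm) h hh)
  · rintro rfl; exact F.nontriv j

theorem chi_neg_apply (ψ : AddChar A ℂ) {x : A} (h : ψ x = 1) : (-ψ) x = 1 := by
  rw [← conj_char, h, map_one]

theorem chi_neg_apply_ne (ψ : AddChar A ℂ) {x : A} (h : ψ x ≠ 1) : (-ψ) x ≠ 1 := by
  rw [← conj_char]
  intro hc
  apply h
  have := congrArg (starRingEnd ℂ) hc
  simpa using this

theorem nt_chi_sub (F : Frame A m) {i j : Fin m} (hij : i ≠ j) : nt F (F.χ i - F.χ j) = 2 := by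
  classical
  unfold nt
  rw [Finset.card_eq_two]
  refine ⟨i, j, hij, ?_⟩
  ext l
  simp only [Finset.mem_filter, Finset.mem_univ, true_and, Finset.mem_insert,
    Finset.mem_singleton]
  have e : ∀ x, (F.χ i - F.χ j) x = F.χ i x * (-(F.χ j)) x := by
    intro x; rw [sub_eq_add_neg, AddChar.add_apply]
  constructor
  · rintro ⟨h, hh, h1⟩
    by_contra hne
    push Not at hne
    apply h1
    rw [e, F.triv i l (fun e => hne.1 e.symm) h hh,
      chi_neg_apply _ (F.triv j l (fun e => hne.2 e.symm) h hh), one_mul]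
  · rintro (rfl | rfl)
    · obtain ⟨h, hh, h1⟩ := F.nontriv l
      refine ⟨h, hh, ?_⟩
      rw [e, chi_neg_apply _ (F.triv j l hij.symm h hh), mul_one]
      exact h1
    · obtain ⟨h, hh, h1⟩ := F.nontriv l
      refine ⟨h, hh, ?_⟩
      rw [e, F.triv i l hij h hh, one_mul]
      exact chi_neg_apply_ne _ h1

theorem chi_inj (F : Frame A m) : Function.Injective F.χ := by
  intro i j h
  by_contra hij
  have := nt_chi_sub F hij
  rw [h, sub_self] at this
  have h0 : nt F (0 : AddChar A ℂ) = 0 := by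
    unfold nt; simp
  omega

/-- Lower bound for the refresh walk. -/
theorem base_lower (F : Frame A m) (hm : 2 ≤ m) (t : ℕ) :
    1 - 8 / (m * (1 - 1 / (m : ℝ)) ^ (2 * t)) ≤ tv (cpow (base F) t) := by
  have hm0 : 0 < m := by omega
  have hm' : (2 : ℝ) ≤ m := by exact_mod_cast hm
  have hpos : 0 < 1 - 1 / (m : ℝ) := by
    rw [sub_pos, div_lt_one (by linarith)]; linarith
  have hb0 : 0 ≤ 1 - 2 / (m : ℝ) := by
    rw [sub_nonneg, div_le_one (by linarith)]; exact hm'
  have h := tv_lower (cpow_nonneg (base_nonneg F) t) (cpow_sum _ (base_sum F hm0) t) hm0 F.χ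
    (chi_inj F) ((1 - 1 / (m : ℝ)) ^ t) ((1 - 2 / (m : ℝ)) ^ t) (pow_pos hpos t) ?_ ?_ ?_
  · rw [← pow_mul, mul_comm t 2] at h
    exact h
  · rw [← pow_mul, mul_comm t 2, pow_mul]
    refine pow_le_pow_left₀ hb0 ?_ t
    have : 0 ≤ (1 / (m : ℝ)) ^ 2 := sq_nonneg _
    have e : (1 - 1 / (m : ℝ)) ^ 2 = 1 - 2 / (m : ℝ) + (1 / (m : ℝ)) ^ 2 := by ring
    rw [e]; linarith
  · intro i
    rw [hat_cpow, hat_base F hm0, nt_chi]
    push_cast
    rfl
  · intro i j hij
    rw [hat_cpow, hat_base F hm0, nt_chi_sub F hij]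
    push_cast
    rfl

/-- The walk with rare uniform jumps. -/
def jump (F : Frame A m) (θ : ℝ) (x : A) : ℝ :=
  (1 - θ) * base F x + θ * (1 / (Fintype.card A : ℝ))

theorem jump_nonneg (F : Frame A m) {θ : ℝ} (h0 : 0 ≤ θ) (h1 : θ ≤ 1) (x : A) :
    0 ≤ jump F θ x :=
  add_nonneg (mul_nonneg (sub_nonneg.mpr h1) (base_nonneg F x)) (mul_nonneg h0 (by positivity))

theorem jump_sum (F : Frame A m) (hm : 0 < m) (θ : ℝ) : ∑ x, jump F θ x = 1 := by
  have hN := cardpos (A := A)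
  unfold jump
  rw [Finset.sum_add_distrib, ← Finset.mul_sum, base_sum F hm, Finset.sum_const, Finset.card_univ,
    nsmul_eq_mul]
  field_simp
  ring

theorem jump_neg (F : Frame A m) (θ : ℝ) (x : A) : jump F θ (-x) = jump F θ x := by
  unfold jump; rw [base_neg]

theorem tv_jump (F : Frame A m) (hm : 0 < m) {θ : ℝ} (h1 : θ ≤ 1) (t : ℕ) :
    tv (cpow (jump F θ) t) = (1 - θ) ^ t * tv (cpow (base F) t) :=
  tv_mix h1 (base_sum F hm) (fun _ => rfl) t

theorem tv_le_one {p : A → ℝ} (hp : ∀ x, 0 ≤ p x) (hp1 : ∑ x, p x = 1) : tv p ≤ 1 := by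
  have hN := cardpos (A := A)
  unfold tv
  have h1 : ∑ x, |p x - 1 / (Fintype.card A : ℝ)| ≤ ∑ x, (p x + 1 / (Fintype.card A : ℝ)) := by
    refine Finset.sum_le_sum fun x _ => ?_
    rw [abs_le]
    have := hp x
    have h2 : 0 ≤ 1 / (Fintype.card A : ℝ) := by positivity
    constructor <;> linarith
  rw [Finset.sum_add_distrib, hp1, Finset.sum_const, Finset.card_univ, nsmul_eq_mul] at h1
  have : (Fintype.card A : ℝ) * (1 / (Fintype.card A : ℝ)) = 1 := by field_simp
  rw [this] at h1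
  linarith

theorem hat_jump (F : Frame A m) (hm : 0 < m) (θ : ℝ) {ψ : AddChar A ℂ} (hψ : ψ ≠ 0) :
    hat (jump F θ) ψ = (((1 - θ) * (1 - (nt F ψ : ℝ) / m) : ℝ) : ℂ) := by
  have h1 : hat (jump F θ) ψ = (1 - θ : ℝ) * hat (base F) ψ +
      (θ * (1 / (Fintype.card A : ℝ)) : ℝ) * ∑ x, ψ x := by
    unfold hat jump
    rw [Finset.mul_sum, Finset.mul_sum, ← Finset.sum_add_distrib]
    refine Finset.sum_congr rfl fun x _ => ?_
    push_cast
    ring
  rw [h1, hat_base F hm, AddChar.sum_eq_zero_iff_ne_zero.mpr hψ]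
  push_cast
  ring

/-- `(1 - 1/T)^⌊sT⌋ → exp(-s)`. -/
theorem pow_floor_tendsto {T : ℕ → ℝ} (hT : Tendsto T atTop atTop) {s : ℝ} (hs : 0 ≤ s) :
    Tendsto (fun k => (1 - 1 / T k) ^ ⌊s * T k⌋₊) atTop (𝓝 (Real.exp (-s))) := by
  have h1 : Tendsto (fun k => (1 + (-1) / T k) ^ (T k)) atTop (𝓝 (Real.exp (-1))) :=
    (Real.tendsto_one_add_div_rpow_exp (-1)).comp hT
  have h2 : Tendsto (fun k => (⌊s * T k⌋₊ : ℝ) / T k) atTop (𝓝 s) :=
    (tendsto_nat_floor_mul_div_atTop hs).comp hT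
  have h3 := h1.rpow h2 (Or.inl (Real.exp_pos _).ne')
  rw [← Real.exp_mul, neg_one_mul] at h3
  refine h3.congr' ?_
  filter_upwards [hT.eventually_gt_atTop 1] with k hk
  have hk0 : 0 < T k := by linarith
  have hb : 0 ≤ 1 + (-1) / T k := by
    have : 1 / T k ≤ 1 := by rw [div_le_one hk0]; linarith
    rw [neg_div]; linarith
  rw [← Real.rpow_mul hb, mul_div_cancel₀ _ hk0.ne', Real.rpow_natCast]
  congr 1
  ring

/-- `exp(-2x) ≤ 1 - x` for `0 ≤ x ≤ 1/2`. -/
theorem exp_neg_two_mul_le {x : ℝ} (h0 : 0 ≤ x) (h1 : x ≤ 1 / 2) : Real.exp (-(2 * x)) ≤ 1 - x := by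
  have h2 : 1 + 2 * x ≤ Real.exp (2 * x) := by
    have := Real.add_one_le_exp (2 * x); linarith
  have h3 : 0 < 1 - x := by linarith
  rw [Real.exp_neg, inv_le_comm₀ (Real.exp_pos _) h3]
  refine le_trans ?_ h2
  rw [inv_le_iff_one_le_mul₀ h3]
  nlinarith

/-- If `T k / m k` grows slower than `log m k` then the base walk is unmixed at time `s T k`. -/
theorem base_unmixed {A : ℕ → Type} [∀ k, AddCommGroup (A k)] [∀ k, Fintype (A k)]
    [∀ k, DecidableEq (A k)] {m : ℕ → ℕ} (F : ∀ k, Frame (A k) (m k)) (hm : ∀ k, 2 ≤ m k)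
    {t : ℕ → ℕ} (ht : Tendsto (fun k => Real.log (m k) - 4 * (t k : ℝ) / m k) atTop atTop) :
    Tendsto (fun k => tv (cpow (base (F k)) (t k))) atTop (𝓝 1) := by
  have h1 : Tendsto (fun k => 1 - 8 * Real.exp (-(Real.log (m k) - 4 * (t k : ℝ) / m k))) atTop
      (𝓝 1) := by
    have h2 : Tendsto (fun k => Real.exp (-(Real.log (m k) - 4 * (t k : ℝ) / m k))) atTop (𝓝 0) :=
      Real.tendsto_exp_neg_atTop_nhds_zero.comp ht
    have h3 := (h2.const_mul 8).const_sub 1
    simpa using h3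
  refine tendsto_of_tendsto_of_tendsto_of_le_of_le h1 tendsto_const_nhds ?_ ?_
  · intro k
    refine le_trans ?_ (base_lower (F k) (hm k) (t k))
    have hm0 : (2 : ℝ) ≤ m k := by exact_mod_cast hm k
    have hmp : (0 : ℝ) < m k := by linarith
    have h4 : Real.exp (-(2 * (1 / (m k : ℝ)))) ≤ 1 - 1 / (m k : ℝ) :=
      exp_neg_two_mul_le (by positivity) (by
        rw [div_le_div_iff₀ hmp (by norm_num)]; linarith)
    have h5 : Real.exp (-(4 * (t k : ℝ) / m k)) ≤ (1 - 1 / (m k : ℝ)) ^ (2 * t k) := by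
      calc Real.exp (-(4 * (t k : ℝ) / m k)) = Real.exp (-(2 * (1 / (m k : ℝ)))) ^ (2 * t k) := by
            rw [← Real.exp_nat_mul]; congr 1; push_cast; ring
        _ ≤ _ := pow_le_pow_left₀ (Real.exp_pos _).le h4 _
    have h6 : 8 / (m k * (1 - 1 / (m k : ℝ)) ^ (2 * t k)) ≤
        8 * Real.exp (-(Real.log (m k) - 4 * (t k : ℝ) / m k)) := by
      have e1 : Real.exp (-(Real.log (m k) - 4 * (t k : ℝ) / m k)) =
          1 / (m k * Real.exp (-(4 * (t k : ℝ) / m k))) := by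
        rw [neg_sub, Real.exp_sub, Real.exp_log hmp, Real.exp_neg]
        field_simp
      rw [e1, mul_one_div]
      apply div_le_div_of_nonneg_left (by norm_num) (by positivity)
      exact mul_le_mul_of_nonneg_left h5 hmp.le
    have h7 : (fun k => 1 - 8 * Real.exp (-(Real.log (m k) - 4 * (t k : ℝ) / m k))) k =
        1 - 8 * Real.exp (-(Real.log (m k) - 4 * (t k : ℝ) / m k)) := rfl
    linarith
  · intro k
    have hm0 : 0 < m k := by have := hm k; omega
    exact tv_le_one (cpow_nonneg (base_nonneg _) _) (cpow_sum _ (base_sum _ hm0) _)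

end

end Pool.Agent.H632R3.Conv
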