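import Mathlib
import Pool.Agent.H632R3.Frame

open Finset Filter Topology

set_option linter.unusedSectionVars false

namespace Pool.Agent.H632R3.Conv

noncomputable section

section Product

variable {X K : Type} [AddCommGroup X] [Fintype X] [DecidableEq X] [AddCommGroup K] [Fintype K]
  [DecidableEq K]

/-- The law on `X × K` with `K`-part uniform with weight `ρ1` and zero with weight `ρ2`. -/
def prodLaw (K : Type) [AddCommGroup K] [Fintype K] [DecidableEq K] (ρ1 ρ2 : X → ℝ)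
    (p : X × K) : ℝ :=
  ρ1 p.1 * (1 / (Fintype.card K : ℝ)) + ρ2 p.1 * (if p.2 = 0 then 1 else 0)

theorem cpow_prod (ρ1 ρ2 : X → ℝ) (t : ℕ) (p : X × K) :
    cpow (prodLaw K ρ1 ρ2) t p = cpow ρ2 t p.1 * (if p.2 = 0 then 1 else 0) +
      (cpow (fun x => ρ1 x + ρ2 x) t p.1 - cpow ρ2 t p.1) * (1 / (Fintype.card K : ℝ)) := by
  have hK : (0 : ℝ) < Fintype.card K := by exact_mod_cast Fintype.card_pos
  induction t generalizing p with
  | zero =>
    simp only [cpow, sub_self, zero_mul, add_zero]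
    by_cases h1 : p.1 = 0 <;> by_cases h2 : p.2 = 0 <;> simp [h1, h2, Prod.ext_iff]
  | succ t ih =>
    obtain ⟨x, κ⟩ := p
    simp only [cpow, conv]
    rw [Fintype.sum_prod_type]
    simp_rw [ih]
    simp only [Prod.fst_sub, Prod.snd_sub]
    have e1 : ∀ y : X, ∑ κ' : K, prodLaw K ρ1 ρ2 (y, κ') *
        (cpow ρ2 t (x - y) * (if κ - κ' = 0 then 1 else 0) +
          (cpow (fun x => ρ1 x + ρ2 x) t (x - y) - cpow ρ2 t (x - y)) *
            (1 / (Fintype.card K : ℝ))) =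
        ρ1 y * (1 / (Fintype.card K : ℝ)) * cpow (fun x => ρ1 x + ρ2 x) t (x - y) +
        ρ2 y * (cpow ρ2 t (x - y) * (if κ = 0 then 1 else 0) +
          (cpow (fun x => ρ1 x + ρ2 x) t (x - y) - cpow ρ2 t (x - y)) *
            (1 / (Fintype.card K : ℝ))) := by
      intro y
      simp only [prodLaw, add_mul, Finset.sum_add_distrib, mul_add]
      have f1 : ∑ κ' : K, ρ1 y * (1 / (Fintype.card K : ℝ)) *
          (cpow ρ2 t (x - y) * (if κ - κ' = 0 then 1 else 0)) =
          ρ1 y * (1 / (Fintype.card K : ℝ)) * cpow ρ2 t (x - y) := by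
        rw [Finset.sum_eq_single κ]
        · simp
        · intro b _ hb
          rw [if_neg (fun h => hb (sub_eq_zero.mp h).symm), mul_zero, mul_zero]
        · simp
      have f2 : ∑ κ' : K, ρ1 y * (1 / (Fintype.card K : ℝ)) *
          ((cpow (fun x => ρ1 x + ρ2 x) t (x - y) - cpow ρ2 t (x - y)) *
            (1 / (Fintype.card K : ℝ))) =
          ρ1 y * (1 / (Fintype.card K : ℝ)) *
            (cpow (fun x => ρ1 x + ρ2 x) t (x - y) - cpow ρ2 t (x - y)) := by
        rw [Finset.sum_const, Finset.card_univ, nsmul_eq_mul]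
        field_simp
      have f3 : ∑ κ' : K, ρ2 y * (if κ' = 0 then 1 else 0) *
          (cpow ρ2 t (x - y) * (if κ - κ' = 0 then 1 else 0)) =
          ρ2 y * (cpow ρ2 t (x - y) * (if κ = 0 then 1 else 0)) := by
        rw [Finset.sum_eq_single 0]
        · simp
        · intro b _ hb; simp [hb]
        · simp
      have f4 : ∑ κ' : K, ρ2 y * (if κ' = 0 then 1 else 0) *
          ((cpow (fun x => ρ1 x + ρ2 x) t (x - y) - cpow ρ2 t (x - y)) *
            (1 / (Fintype.card K : ℝ))) =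
          ρ2 y * ((cpow (fun x => ρ1 x + ρ2 x) t (x - y) - cpow ρ2 t (x - y)) *
            (1 / (Fintype.card K : ℝ))) := by
        rw [Finset.sum_eq_single 0]
        · simp
        · intro b _ hb; simp [hb]
        · simp
      rw [f1, f2, f3, f4]
      ring
    simp_rw [e1]
    rw [Finset.sum_mul, sub_mul, Finset.sum_mul, Finset.sum_mul, ← Finset.sum_sub_distrib,
      ← Finset.sum_add_distrib]
    exact Finset.sum_congr rfl fun y _ => by ring

theorem tv_prod_le {ρ1 ρ2 : X → ℝ} (h2 : ∀ x, 0 ≤ ρ2 x) (t : ℕ) :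
    tv (cpow (prodLaw K ρ1 ρ2) t) ≤
      tv (cpow (fun x => ρ1 x + ρ2 x) t) + (∑ x, ρ2 x) ^ t := by
  have hK : (0 : ℝ) < Fintype.card K := by exact_mod_cast Fintype.card_pos
  have hX : (0 : ℝ) < Fintype.card X := by exact_mod_cast Fintype.card_pos
  have hsum : ∑ x, cpow ρ2 t x = (∑ x, ρ2 x) ^ t := by
    induction t with
    | zero => simp [cpow]
    | succ t ih => rw [cpow, conv_sum, ih, pow_succ']
  have key : ∀ p : X × K, |cpow (prodLaw K ρ1 ρ2) t p - 1 / (Fintype.card (X × K) : ℝ)| ≤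
      cpow ρ2 t p.1 * ((if p.2 = 0 then 1 else 0) + 1 / (Fintype.card K : ℝ)) +
      |cpow (fun x => ρ1 x + ρ2 x) t p.1 - 1 / (Fintype.card X : ℝ)| *
        (1 / (Fintype.card K : ℝ)) := by
    intro p
    have e : cpow (prodLaw K ρ1 ρ2) t p - 1 / (Fintype.card (X × K) : ℝ) =
        cpow ρ2 t p.1 * ((if p.2 = 0 then 1 else 0) - 1 / (Fintype.card K : ℝ)) +
        (cpow (fun x => ρ1 x + ρ2 x) t p.1 - 1 / (Fintype.card X : ℝ)) *
          (1 / (Fintype.card K : ℝ)) := by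
      rw [cpow_prod, Fintype.card_prod]
      push_cast
      field_simp
      ring
    rw [e]
    refine (abs_add_le _ _).trans (add_le_add ?_ (le_of_eq ?_))
    · rw [abs_mul, abs_of_nonneg (cpow_nonneg h2 t p.1)]
      refine mul_le_mul_of_nonneg_left ?_ (cpow_nonneg h2 t p.1)
      refine (abs_sub _ _).trans (le_of_eq ?_)
      rw [abs_of_nonneg (by split_ifs <;> norm_num), abs_of_nonneg (by positivity)]
    · rw [abs_mul, abs_of_nonneg (by positivity : (0 : ℝ) ≤ 1 / (Fintype.card K : ℝ))]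
  unfold tv
  have h3 := Finset.sum_le_sum fun (p : X × K) (_ : p ∈ univ) => key p
  rw [Finset.sum_add_distrib] at h3
  have h4 : ∑ p : X × K, cpow ρ2 t p.1 * ((if p.2 = 0 then 1 else 0) +
      1 / (Fintype.card K : ℝ)) = 2 * (∑ x, ρ2 x) ^ t := by
    have h6 : ∑ κ : K, ((if κ = 0 then (1 : ℝ) else 0) + 1 / (Fintype.card K : ℝ)) = 2 := by
      rw [Finset.sum_add_distrib, Finset.sum_const, Finset.card_univ, nsmul_eq_mul]
      simp
      norm_num
    have h7 : ∀ x : X, ∑ κ : K, cpow ρ2 t (x, κ).1 * ((if (x, κ).2 = 0 then (1 : ℝ) else 0) +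
        1 / (Fintype.card K : ℝ)) = cpow ρ2 t x * 2 := by
      intro x
      have h8 : ∑ κ : K, cpow ρ2 t x * ((if κ = 0 then (1 : ℝ) else 0) +
        1 / (Fintype.card K : ℝ)) = cpow ρ2 t x * 2 := by rw [← Finset.mul_sum, h6]
      exact h8
    rw [Fintype.sum_prod_type, Finset.sum_congr rfl fun x _ => h7 x, ← Finset.sum_mul, hsum,
      mul_comm]
  have h5 : ∑ p : X × K, |cpow (fun x => ρ1 x + ρ2 x) t p.1 - 1 / (Fintype.card X : ℝ)| *
      (1 / (Fintype.card K : ℝ)) =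
      ∑ x, |cpow (fun x => ρ1 x + ρ2 x) t x - 1 / (Fintype.card X : ℝ)| := by
    rw [Fintype.sum_prod_type]
    refine Finset.sum_congr rfl fun x _ => ?_
    simp only
    rw [Finset.sum_const, Finset.card_univ, nsmul_eq_mul]
    field_simp
  rw [h4, h5] at h3
  linarith

theorem le_tv_prod (ρ1 ρ2 : X → ℝ) (t : ℕ) :
    tv (cpow (fun x => ρ1 x + ρ2 x) t) ≤ tv (cpow (prodLaw K ρ1 ρ2) t) := by
  have hK : (0 : ℝ) < Fintype.card K := by exact_mod_cast Fintype.card_pos
  have hX : (0 : ℝ) < Fintype.card X := by exact_mod_cast Fintype.card_pos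
  unfold tv
  refine mul_le_mul_of_nonneg_left ?_ (by norm_num)
  rw [Fintype.sum_prod_type]
  refine Finset.sum_le_sum fun x _ => ?_
  refine le_trans (le_of_eq ?_) (Finset.abs_sum_le_sum_abs _ _)
  congr 1
  rw [Finset.sum_sub_distrib, Finset.sum_const, Finset.card_univ, nsmul_eq_mul,
    Fintype.card_prod]
  simp_rw [cpow_prod]
  rw [Finset.sum_add_distrib, ← Finset.mul_sum, Finset.sum_const, Finset.card_univ, nsmul_eq_mul]
  push_cast
  simp only [Finset.sum_ite_eq', Finset.mem_univ, if_true]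
  field_simp
  ring

/-- Restriction of a character of `X × K` to `X`. -/
def resX (ψ : AddChar (X × K) ℂ) : AddChar X ℂ := ψ.compAddMonoidHom (AddMonoidHom.inl X K)

/-- Restriction of a character of `X × K` to `K`. -/
def resK (ψ : AddChar (X × K) ℂ) : AddChar K ℂ := ψ.compAddMonoidHom (AddMonoidHom.inr X K)

theorem char_split (ψ : AddChar (X × K) ℂ) (x : X) (κ : K) :
    ψ (x, κ) = resX ψ x * resK ψ κ := by
  have : ((x, κ) : X × K) = (x, 0) + (0, κ) := by simp
  rw [this, AddChar.map_add_eq_mul]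
  rfl

theorem hat_prod (ρ1 ρ2 : X → ℝ) (ψ : AddChar (X × K) ℂ) :
    hat (prodLaw K ρ1 ρ2) ψ =
      hat ρ1 (resX ψ) * (if resK ψ = 0 then 1 else 0) + hat ρ2 (resX ψ) := by
  have hK : (Fintype.card K : ℂ) ≠ 0 := by exact_mod_cast Fintype.card_ne_zero
  unfold hat
  rw [Fintype.sum_prod_type, Finset.sum_mul, ← Finset.sum_add_distrib]
  refine Finset.sum_congr rfl fun x _ => ?_
  have e1 : ∀ κ : K, ((prodLaw K ρ1 ρ2 (x, κ) : ℝ) : ℂ) * ψ (x, κ) =
      (ρ1 x : ℂ) * resX ψ x * (1 / (Fintype.card K : ℂ)) * resK ψ κ +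
        (if κ = 0 then (ρ2 x : ℂ) * resX ψ x * resK ψ κ else 0) := by
    intro κ
    rw [char_split]
    unfold prodLaw
    push_cast
    split_ifs <;> push_cast <;> ring
  simp_rw [e1]
  rw [Finset.sum_add_distrib, ← Finset.mul_sum, AddChar.sum_eq_ite]
  simp only [Finset.sum_ite_eq', Finset.mem_univ, if_true, AddChar.map_zero_eq_one, mul_one]
  split_ifs
  · field_simp
  · ring

end Product

section Spectral

variable {A : Type} [AddCommGroup A] [Fintype A] [DecidableEq A]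

/-- Fourier inversion. -/
theorem inversion (p : A → ℝ) (x : A) :
    ∑ ψ : AddChar A ℂ, hat p ψ * ψ (-x) = (Fintype.card A : ℂ) * p x := by
  unfold hat
  simp_rw [Finset.sum_mul]
  rw [Finset.sum_comm]
  have e1 : ∀ y, ∑ ψ : AddChar A ℂ, (p y : ℂ) * ψ y * ψ (-x) =
      if y = x then (Fintype.card A : ℂ) * p y else 0 := by
    intro y
    have : ∀ ψ : AddChar A ℂ, (p y : ℂ) * ψ y * ψ (-x) = (p y : ℂ) * ψ (y - x) := by
      intro ψ; rw [sub_eq_add_neg, AddChar.map_add_eq_mul]; ring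
    simp_rw [this]
    rw [← Finset.mul_sum, AddChar.sum_apply_eq_ite]
    by_cases h : y = x
    · simp [h, mul_comm]
    · simp [h, sub_eq_zero]
  simp_rw [e1]
  simp

theorem exists_hat_ne {f : A → ℝ} (hf : f ≠ 0) : ∃ ψ : AddChar A ℂ, hat f ψ ≠ 0 := by
  by_contra h
  push Not at h
  apply hf
  funext x
  have h1 := inversion f x
  simp only [h, zero_mul, Finset.sum_const_zero] at h1
  have hN : (Fintype.card A : ℂ) ≠ 0 := by exact_mod_cast Fintype.card_ne_zero
  have h2 := (mul_eq_zero.mp h1.symm).resolve_left hN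
  exact_mod_cast h2

/-- Every real eigenvalue of a convolution matrix is a Fourier coefficient. -/
theorem spectrum_hat (σ : A → ℝ) (P : Matrix A A ℝ) (hP : ∀ x y, P x y = σ (y - x)) {lam : ℝ}
    (h : lam ∈ spectrum ℝ P) : ∃ ψ : AddChar A ℂ, hat σ ψ = lam := by
  rw [← Matrix.spectrum_toLin', ← Module.End.hasEigenvalue_iff_mem_spectrum] at h
  obtain ⟨f, hf⟩ := h.exists_hasEigenvector
  have hf0 : f ≠ 0 := hf.2
  have hf1 : ∀ x, ∑ y, σ (y - x) * f y = lam * f x := by
    intro x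
    have := congrFun hf.apply_eq_smul x
    simp only [Matrix.toLin'_apply, Matrix.mulVec, dotProduct, hP, Pi.smul_apply,
      smul_eq_mul] at this
    exact this
  obtain ⟨ψ, hψ⟩ := exists_hat_ne hf0
  refine ⟨-ψ, ?_⟩
  have h1 : (lam : ℂ) * hat f ψ = hat σ (-ψ) * hat f ψ := by
    have e1 : (lam : ℂ) * hat f ψ = ∑ x, ∑ y, ((σ (y - x) : ℂ) * f y) * ψ x := by
      unfold hat
      rw [Finset.mul_sum]
      refine Finset.sum_congr rfl fun x _ => ?_
      rw [← Finset.sum_mul, ← mul_assoc]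
      congr 1
      have := hf1 x
      exact_mod_cast this.symm
    rw [e1, Finset.sum_comm]
    unfold hat
    rw [Finset.mul_sum]
    refine Finset.sum_congr rfl fun y _ => ?_
    rw [Finset.sum_mul, ← Equiv.sum_comp (Equiv.subLeft y)]
    refine Finset.sum_congr rfl fun z _ => ?_
    have e2 : y - (y - z) = z := sub_sub_cancel y z
    have e3 : ψ (y - z) = ψ y * (-ψ) z := by
      rw [sub_eq_add_neg, AddChar.map_add_eq_mul]; rfl
    simp only [Equiv.subLeft_apply]
    rw [e2, e3]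
    ring
  exact (mul_right_cancel₀ hψ h1).symm

end Spectral

section Lazy

variable {A : Type} [AddCommGroup A] [Fintype A] [DecidableEq A] {m : ℕ}

/-- The base walk with additional holding. -/
def lz (F : Frame A m) (b : ℝ) (x : A) : ℝ := (1 - b) * (if x = 0 then 1 else 0) + b * base F x

theorem hat_lz (F : Frame A m) (hm : 0 < m) (b : ℝ) (ψ : AddChar A ℂ) :
    hat (lz F b) ψ = ((1 - b * (nt F ψ : ℝ) / m : ℝ) : ℂ) := by
  have h1 : hat (lz F b) ψ = ((1 - b : ℝ) : ℂ) + (b : ℂ) * hat (base F) ψ := by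
    unfold hat lz
    have e1 : ∀ x, ((((1 - b) * (if x = 0 then 1 else 0) + b * base F x : ℝ)) : ℂ) * ψ x =
        (if x = 0 then ((1 - b : ℝ) : ℂ) * ψ x else 0) + (b : ℂ) * ((base F x : ℂ) * ψ x) := by
      intro x
      push_cast
      split_ifs <;> push_cast <;> ring
    simp_rw [e1]
    rw [Finset.sum_add_distrib, ← Finset.mul_sum]
    simp
  rw [h1, hat_base F hm]
  push_cast
  ring

theorem lz_nonneg (F : Frame A m) {b : ℝ} (h0 : 0 ≤ b) (h1 : b ≤ 1) (x : A) : 0 ≤ lz F b x := by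
  unfold lz
  refine add_nonneg (mul_nonneg (sub_nonneg.mpr h1) ?_) (mul_nonneg h0 (base_nonneg F x))
  split_ifs <;> norm_num

theorem lz_sum (F : Frame A m) (hm : 0 < m) (b : ℝ) : ∑ x, lz F b x = 1 := by
  unfold lz
  rw [Finset.sum_add_distrib, ← Finset.mul_sum, ← Finset.mul_sum, base_sum F hm]
  simp

theorem lz_lower (F : Frame A m) (hm : 2 ≤ m) {b : ℝ} (hb0 : 0 ≤ b) (hb1 : b ≤ 1) (t : ℕ) :
    1 - 8 / (m * (1 - 1 / (m : ℝ)) ^ (2 * t)) ≤ tv (cpow (lz F b) t) := by
  have hm0 : 0 < m := by omega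
  have hm' : (2 : ℝ) ≤ m := by exact_mod_cast hm
  have hmp : (0 : ℝ) < m := by linarith
  have hpos1 : 0 < 1 - 1 / (m : ℝ) := by
    rw [sub_pos, div_lt_one hmp]; linarith
  have hbm : b / m ≤ 1 / m := div_le_div_of_nonneg_right hb1 hmp.le
  have hpos : 0 < 1 - b / (m : ℝ) := by linarith
  have hle : 1 - 1 / (m : ℝ) ≤ 1 - b / m := by linarith
  have hb2 : 0 ≤ 1 - b * 2 / (m : ℝ) := by
    have : 2 / (m : ℝ) ≤ 1 := by rw [div_le_one hmp]; exact hm'
    have e : b * 2 / (m : ℝ) = b * (2 / m) := by ring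
    rw [e]
    have : b * (2 / (m : ℝ)) ≤ 1 * 1 := mul_le_mul hb1 this (by positivity) (by norm_num)
    linarith
  have h := tv_lower (cpow_nonneg (lz_nonneg F hb0 hb1) t) (cpow_sum _ (lz_sum F hm0 b) t) hm0 F.χ
    (chi_inj F) ((1 - b / (m : ℝ)) ^ t) ((1 - b * 2 / (m : ℝ)) ^ t) (pow_pos hpos t) ?_ ?_ ?_
  · rw [← pow_mul, mul_comm t 2] at h
    refine le_trans ?_ h
    have h2 : (1 - 1 / (m : ℝ)) ^ (2 * t) ≤ (1 - b / (m : ℝ)) ^ (2 * t) :=
      pow_le_pow_left₀ hpos1.le hle _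
    have h3 : 8 / (m * (1 - b / (m : ℝ)) ^ (2 * t)) ≤ 8 / (m * (1 - 1 / (m : ℝ)) ^ (2 * t)) :=
      div_le_div_of_nonneg_left (by norm_num) (by positivity)
        (mul_le_mul_of_nonneg_left h2 hmp.le)
    linarith
  · rw [← pow_mul, mul_comm t 2, pow_mul]
    refine pow_le_pow_left₀ hb2 ?_ t
    have : 0 ≤ (b / (m : ℝ)) ^ 2 := sq_nonneg _
    have e : (1 - b / (m : ℝ)) ^ 2 = 1 - b * 2 / (m : ℝ) + (b / (m : ℝ)) ^ 2 := by ring
    rw [e]; linarith
  · intro i
    rw [hat_cpow, hat_lz F hm0, nt_chi]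
    push_cast
    ring
  · intro i j hij
    rw [hat_cpow, hat_lz F hm0, nt_chi_sub F hij]
    push_cast
    rfl

theorem lz_unmixed {A : ℕ → Type} [∀ k, AddCommGroup (A k)] [∀ k, Fintype (A k)]
    [∀ k, DecidableEq (A k)] {m : ℕ → ℕ} (F : ∀ k, Frame (A k) (m k)) (hm : ∀ k, 2 ≤ m k)
    {b : ℕ → ℝ} (hb0 : ∀ k, 0 ≤ b k) (hb1 : ∀ k, b k ≤ 1)
    {t : ℕ → ℕ} (ht : Tendsto (fun k => Real.log (m k) - 4 * (t k : ℝ) / m k) atTop atTop) :
    Tendsto (fun k => tv (cpow (lz (F k) (b k)) (t k))) atTop (𝓝 1) := by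
  have h1 : Tendsto (fun k => 1 - 8 * Real.exp (-(Real.log (m k) - 4 * (t k : ℝ) / m k))) atTop
      (𝓝 1) := by
    have h2 : Tendsto (fun k => Real.exp (-(Real.log (m k) - 4 * (t k : ℝ) / m k))) atTop (𝓝 0) :=
      Real.tendsto_exp_neg_atTop_nhds_zero.comp ht
    have h3 := (h2.const_mul 8).const_sub 1
    simpa using h3
  refine tendsto_of_tendsto_of_tendsto_of_le_of_le h1 tendsto_const_nhds ?_ ?_
  · intro k
    refine le_trans ?_ (lz_lower (F k) (hm k) (hb0 k) (hb1 k) (t k))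
    have hm0 : (2 : ℝ) ≤ m k := by exact_mod_cast hm k
    have hmp : (0 : ℝ) < m k := by linarith
    have h4 : Real.exp (-(2 * (1 / (m k : ℝ)))) ≤ 1 - 1 / (m k : ℝ) :=
      exp_neg_two_mul_le (by positivity) (by
        rw [div_le_div_iff₀ hmp (by norm_num)]; linarith)
    have h5 : Real.exp (-(4 * (t k : ℝ) / m k)) ≤ (1 - 1 / (m k : ℝ)) ^ (2 * t k) := by
      calc Real.exp (-(4 * (t k : ℝ) / m k)) = Real.exp (-(2 * (1 / (m k : ℝ)))) ^ (2 * t k) := by
            rw [← Real.exp_nat_mul]; congr 1; push_cast; ring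
        _ ≤ _ := pow_le_pow_left₀ (Real.exp_pos _).le h4 _
    have h6 : 8 / (m k * (1 - 1 / (m k : ℝ)) ^ (2 * t k)) ≤
        8 * Real.exp (-(Real.log (m k) - 4 * (t k : ℝ) / m k)) := by
      have e1 : Real.exp (-(Real.log (m k) - 4 * (t k : ℝ) / m k)) =
          1 / (m k * Real.exp (-(4 * (t k : ℝ) / m k))) := by
        rw [neg_sub, Real.exp_sub, Real.exp_log hmp, Real.exp_neg]
        field_simp
      rw [e1, mul_one_div]
      apply div_le_div_of_nonneg_left (by norm_num) (by positivity)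
      exact mul_le_mul_of_nonneg_left h5 hmp.le
    simp only
    linarith
  · intro k
    have hm0 : 0 < m k := by have := hm k; omega
    exact tv_le_one (cpow_nonneg (lz_nonneg _ (hb0 k) (hb1 k)) _)
      (cpow_sum _ (lz_sum _ hm0 _) _)

end Lazy

end

end Pool.Agent.H632R3.Conv
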