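import Mathlib
import Pool.Agent.H632R3.Frame

open Finset Filter Topology

set_option linter.unusedSectionVars false

namespace Pool.Agent.H632R3.Conv

noncomputable section

/-- The subgroup of vectors supported on the coordinate `i`. -/
def coordSub (m : ℕ) (i : Fin m) : AddSubgroup (Fin m → ZMod 2) where
  carrier := {x | ∀ j, j ≠ i → x j = 0}
  add_mem' := by
    intro a b ha hb j hj
    simp [ha j hj, hb j hj]
  zero_mem' := by intro j _; rfl
  neg_mem' := by
    intro a ha j hj
    simp [ha j hj]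

theorem two_ne : (ZMod.stdAddChar (N := 2)) 1 ≠ 1 := by
  intro h
  have h2 : (ZMod.stdAddChar (N := 2)) 1 = (ZMod.stdAddChar (N := 2)) 0 := by
    rw [h, AddChar.map_zero_eq_one]
  have := ZMod.injective_stdAddChar h2
  exact absurd this (by decide)

theorem sum_single (m : ℕ) (x : Fin m → ZMod 2) : x = ∑ i, Pi.single i (x i) := by
  rw [Finset.univ_sum_single]

theorem char_sum {A ι : Type} [AddCommGroup A] (ψ : AddChar A ℂ) (s : Finset ι) (f : ι → A) :
    ψ (∑ i ∈ s, f i) = ∏ i ∈ s, ψ (f i) := by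
  classical
  induction s using Finset.induction_on with
  | empty => simp
  | insert a s ha ih => rw [Finset.sum_insert ha, AddChar.map_add_eq_mul, ih, Finset.prod_insert ha]

theorem mem_coordSub_iff (m : ℕ) (i : Fin m) (x : Fin m → ZMod 2) (h : x ∈ coordSub m i) :
    x = 0 ∨ x = Pi.single i 1 := by
  have h2 : x i = 0 ∨ x i = 1 := by
    generalize x i = a
    revert a; decide
  rcases h2 with h2 | h2
  · left
    funext j
    by_cases hj : j = i
    · subst hj; exact h2
    · exact h j hj
  · right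
    funext j
    by_cases hj : j = i
    · subst hj; simp [h2]
    · rw [h j hj, Pi.single_eq_of_ne hj]

/-- The frame of the discrete cube. -/
def cube (m : ℕ) : Frame (Fin m → ZMod 2) m where
  H := coordSub m
  χ := fun i => (ZMod.stdAddChar (N := 2)).compAddMonoidHom (Pi.evalAddMonoidHom _ i)
  nontriv := by
    intro i
    refine ⟨Pi.single i 1, ?_, ?_⟩
    · intro j hj; exact Pi.single_eq_of_ne hj _
    · simpa using two_ne
  triv := by
    intro i j hij h hh
    have : h i = 0 := hh i hij
    simp [this]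
  gen := by
    intro ψ hψ
    by_contra hcon
    push Not at hcon
    apply hψ
    ext x
    rw [sum_single m x, char_sum]
    simp only [AddChar.zero_apply]
    refine Finset.prod_eq_one fun i _ => hcon i _ ?_
    intro j hj
    exact Pi.single_eq_of_ne hj _

open Classical in
/-- The coordinates on which `ψ` is nontrivial. -/
def ntSet (m : ℕ) (ψ : AddChar (Fin m → ZMod 2) ℂ) : Finset (Fin m) :=
  univ.filter fun i => ∃ h ∈ (cube m).H i, ψ h ≠ 1

theorem ntSet_card (m : ℕ) (ψ : AddChar (Fin m → ZMod 2) ℂ) : (ntSet m ψ).card = nt (cube m) ψ :=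
  rfl

theorem mem_ntSet (m : ℕ) (ψ : AddChar (Fin m → ZMod 2) ℂ) (i : Fin m) :
    i ∈ ntSet m ψ ↔ ψ (Pi.single i 1) ≠ 1 := by
  classical
  simp only [ntSet, Finset.mem_filter, Finset.mem_univ, true_and]
  constructor
  · rintro ⟨h, hh, h1⟩
    rcases mem_coordSub_iff m i h hh with rfl | rfl
    · simp at h1
    · exact h1
  · intro h
    refine ⟨Pi.single i 1, ?_, h⟩
    intro j hj; exact Pi.single_eq_of_ne hj _

theorem char_single (m : ℕ) (ψ : AddChar (Fin m → ZMod 2) ℂ) (i : Fin m) :
    ψ (Pi.single i 1) = 1 ∨ ψ (Pi.single i 1) = -1 := by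
  have h : ψ (Pi.single i 1) * ψ (Pi.single i 1) = 1 := by
    rw [← AddChar.map_add_eq_mul, ← Pi.single_add]
    have : (1 : ZMod 2) + 1 = 0 := by decide
    rw [this, Pi.single_zero, AddChar.map_zero_eq_one]
  exact mul_self_eq_one_iff.mp h

theorem ntSet_inj (m : ℕ) : Function.Injective (ntSet m) := by
  intro ψ ψ' h
  have h1 : ∀ i, ψ (Pi.single i 1) = ψ' (Pi.single i 1) := by
    intro i
    have h2 : i ∈ ntSet m ψ ↔ i ∈ ntSet m ψ' := by rw [h]
    rw [mem_ntSet, mem_ntSet] at h2
    rcases char_single m ψ i with h3 | h3 <;> rcases char_single m ψ' i with h4 | h4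
    · rw [h3, h4]
    · exfalso
      rw [h3, h4] at h2
      norm_num at h2
    · exfalso
      rw [h3, h4] at h2
      norm_num at h2
    · rw [h3, h4]
  ext x
  rw [sum_single m x, char_sum, char_sum]
  refine Finset.prod_congr rfl fun i _ => ?_
  have h2 : x i = 0 ∨ x i = 1 := by
    generalize x i = a
    revert a; decide
  rcases h2 with h2 | h2
  · rw [h2]; simp
  · rw [h2]; exact h1 i

/-- Upper bound for the walk on the cube. -/
theorem cube_upper (m : ℕ) (hm : 0 < m) (t : ℕ) :
    tv (cpow (base (cube m)) t) ≤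
      (1 / 2) * ((1 + Real.exp (-(t / m : ℝ))) ^ m - 1) := by
  classical
  have hm' : (0 : ℝ) < m := by exact_mod_cast hm
  set q := Real.exp (-(t / m : ℝ)) with hq
  refine (tv_upper _ (cpow_sum _ (base_sum (cube m) hm) t)).trans ?_
  refine mul_le_mul_of_nonneg_left ?_ (by norm_num)
  have h1 : ∀ ψ : AddChar (Fin m → ZMod 2) ℂ, ‖hat (cpow (base (cube m)) t) ψ‖ ≤
      q ^ (ntSet m ψ).card := by
    intro ψ
    rw [hat_cpow, hat_base _ hm, norm_pow, Complex.norm_real, ntSet_card]
    have h2 : (nt (cube m) ψ : ℝ) / m ≤ 1 := by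
      rw [div_le_one hm']; exact_mod_cast nt_le _ _
    rw [Real.norm_of_nonneg (by linarith)]
    have h3 : 1 - (nt (cube m) ψ : ℝ) / m ≤ Real.exp (-((nt (cube m) ψ : ℝ) / m)) := by
      have := Real.add_one_le_exp (-((nt (cube m) ψ : ℝ) / m)); linarith
    calc (1 - (nt (cube m) ψ : ℝ) / m) ^ t ≤ Real.exp (-((nt (cube m) ψ : ℝ) / m)) ^ t :=
          pow_le_pow_left₀ (by linarith) h3 t
      _ = q ^ nt (cube m) ψ := by
          rw [hq, ← Real.exp_nat_mul, ← Real.exp_nat_mul]; congr 1; field_simp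
  have h2 : ∑ ψ : AddChar (Fin m → ZMod 2) ℂ, q ^ (ntSet m ψ).card ≤ (1 + q) ^ m := by
    have h3 : ∑ s : Finset (Fin m), q ^ s.card = (1 + q) ^ m := by
      have := Finset.prod_one_add (s := (univ : Finset (Fin m))) (f := fun _ => q)
      simp only [Finset.prod_const, Finset.card_univ, Fintype.card_fin] at this
      rw [this, Finset.powerset_univ]
    rw [← h3]
    calc ∑ ψ : AddChar (Fin m → ZMod 2) ℂ, q ^ (ntSet m ψ).card
        = ∑ s ∈ univ.image (ntSet m), q ^ s.card := by
          rw [Finset.sum_image fun a _ b _ h => ntSet_inj m h]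
      _ ≤ ∑ s : Finset (Fin m), q ^ s.card :=
          Finset.sum_le_sum_of_subset_of_nonneg (Finset.subset_univ _) fun _ _ _ =>
            pow_nonneg (Real.exp_pos _).le _
  have h4 : ∑ ψ : AddChar (Fin m → ZMod 2) ℂ, q ^ (ntSet m ψ).card =
      ∑ ψ ∈ univ.filter (fun ψ : AddChar (Fin m → ZMod 2) ℂ => ψ ≠ 0), q ^ (ntSet m ψ).card +
        1 := by
    rw [← Finset.sum_filter_add_sum_filter_not univ
      (fun ψ : AddChar (Fin m → ZMod 2) ℂ => ψ ≠ 0)]
    congr 1
    have h6 : univ.filter (fun ψ : AddChar (Fin m → ZMod 2) ℂ => ¬ ψ ≠ 0) = {0} := by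
      ext ψ; simp
    rw [h6, Finset.sum_singleton, ntSet_card]
    have : nt (cube m) (0 : AddChar (Fin m → ZMod 2) ℂ) = 0 := by unfold nt; simp
    rw [this, pow_zero]
  have h5 : ∑ ψ ∈ univ.filter (fun ψ : AddChar (Fin m → ZMod 2) ℂ => ψ ≠ 0),
      ‖hat (cpow (base (cube m)) t) ψ‖ ≤
      ∑ ψ ∈ univ.filter (fun ψ : AddChar (Fin m → ZMod 2) ℂ => ψ ≠ 0), q ^ (ntSet m ψ).card :=
    Finset.sum_le_sum fun ψ _ => h1 ψ
  linarith

/-- The sum over words is a convolution power. -/
theorem words {A : Type} [AddCommGroup A] [Fintype A] [DecidableEq A] (p : A → ℝ) (k : ℕ)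
    (g : Multiplicative A) :
    ∑ f ∈ (univ : Finset (Fin k → Multiplicative A)).filter (fun f => (List.ofFn f).prod = g),
      ∏ i, p (Multiplicative.toAdd (f i)) = cpow p k (Multiplicative.toAdd g) := by
  induction k generalizing g with
  | zero =>
    rw [Finset.sum_filter]
    simp only [List.ofFn_zero, List.prod_nil, Finset.univ_unique, Finset.sum_singleton, cpow,
      Finset.univ_eq_empty, Finset.prod_empty]
    by_cases h : (1 : Multiplicative A) = g
    · subst h; simp
    · rw [if_neg h, if_neg]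
      intro hc
      apply h
      apply Multiplicative.toAdd.injective
      rw [hc]; rfl
  | succ k ih =>
    rw [Finset.sum_filter, ← (Fin.consEquiv fun _ => Multiplicative A).sum_comp,
      Fintype.sum_prod_type]
    simp only [cpow, conv]
    rw [← Multiplicative.toAdd.sum_comp (fun y => p y * cpow p k (Multiplicative.toAdd g - y))]
    refine Finset.sum_congr rfl fun y _ => ?_
    have h1 := ih (y⁻¹ * g)
    rw [Finset.sum_filter] at h1
    have e2 : Multiplicative.toAdd (y⁻¹ * g) = Multiplicative.toAdd g - Multiplicative.toAdd y := by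
      rw [toAdd_mul, toAdd_inv]; abel
    rw [e2] at h1
    rw [← h1, Finset.mul_sum]
    refine Finset.sum_congr rfl fun f _ => ?_
    have e4 : (List.ofFn ((Fin.consEquiv fun _ => Multiplicative A) (y, f))).prod =
        y * (List.ofFn f).prod := by
      rw [List.ofFn_succ, List.prod_cons]; rfl
    rw [e4]
    simp only [Fin.consEquiv_apply, Fin.prod_univ_succ, Fin.cons_zero, Fin.cons_succ]
    have e3 : (y * (List.ofFn f).prod = g) ↔ ((List.ofFn f).prod = y⁻¹ * g) :=
      ⟨fun h => by rw [← h, inv_mul_cancel_left], fun h => by rw [h, mul_inv_cancel_left]⟩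
    by_cases h : y * (List.ofFn f).prod = g
    · rw [if_pos h, if_pos (e3.mp h)]
    · rw [if_neg h, if_neg (fun hc => h (e3.mpr hc)), mul_zero]

end

end Pool.Agent.H632R3.Conv
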