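import Mathlib
import Pool.Agent.H632R3.Blow
import Pool.Agent.H632R3.Cube

open Finset Filter Topology

set_option linter.unusedSectionVars false

namespace Pool.Agent.H632R3.Conv

noncomputable section

/-- The standard basis of the cube. -/
def EE (m : ℕ) : Finset (Fin m → ZMod 2) := univ.image fun i => Pi.single i 1

theorem single_inj (m : ℕ) : Function.Injective fun i : Fin m => (Pi.single i 1 : Fin m → ZMod 2) := by
  intro i j h
  by_contra hij
  have h1 := congrFun h i
  simp only [Pi.single_eq_same] at h1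
  rw [Pi.single_eq_of_ne hij] at h1
  exact one_ne_zero h1

theorem EE_card (m : ℕ) : (EE m).card = m := by
  unfold EE
  rw [Finset.card_image_of_injective _ (single_inj m), Finset.card_univ, Fintype.card_fin]

theorem zero_notMem_EE (m : ℕ) : (0 : Fin m → ZMod 2) ∉ EE m := by
  unfold EE
  simp only [Finset.mem_image, Finset.mem_univ, true_and, not_exists]
  intro i h
  have h1 := congrFun h i
  simp at h1

theorem card_coordSub (m : ℕ) (i : Fin m) : Nat.card (coordSub m i) = 2 := by
  have e : (coordSub m i) ≃ ZMod 2 :=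
    { toFun := fun x => x.1 i
      invFun := fun a => ⟨Pi.single i a, fun j hj => Pi.single_eq_of_ne hj _⟩
      left_inv := by
        rintro ⟨x, hx⟩
        apply Subtype.ext
        funext j
        change (Pi.single i (x i) : Fin m → ZMod 2) j = x j
        by_cases hj : j = i
        · subst hj; simp
        · rw [Pi.single_eq_of_ne hj, hx j hj]
      right_inv := fun a => by simp }
  rw [Nat.card_congr e, Nat.card_zmod]

theorem uH_coord (m : ℕ) (i : Fin m) (x : Fin m → ZMod 2) :
    uH (coordSub m i) x = 1 / 2 * (if x = 0 then 1 else 0) +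
      1 / 2 * (if x = Pi.single i 1 then 1 else 0) := by
  unfold uH
  rw [card_coordSub]
  by_cases h : x ∈ coordSub m i
  · rw [if_pos h]
    rcases mem_coordSub_iff m i x h with h1 | h1
    · have h2 : x ≠ Pi.single i 1 := by
        intro h3
        rw [h1] at h3
        have := congrFun h3 i
        simp at this
      rw [if_pos h1, if_neg h2]
      norm_num
    · have h2 : x ≠ 0 := by
        intro h3
        rw [h3] at h1
        have := congrFun h1 i
        simp at this
      rw [if_pos h1, if_neg h2]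
      norm_num
  · rw [if_neg h, if_neg, if_neg]
    · norm_num
    · rintro rfl
      exact h fun j hj => Pi.single_eq_of_ne hj _
    · rintro rfl
      exact h (AddSubgroup.zero_mem _)

theorem base_cube (m : ℕ) (hm : 0 < m) (x : Fin m → ZMod 2) :
    base (cube m) x = 1 / 2 * (if x = 0 then 1 else 0) +
      1 / (2 * m) * (if x ∈ EE m then 1 else 0) := by
  have hm' : (m : ℝ) ≠ 0 := by exact_mod_cast hm.ne'
  have h1 : base (cube m) x = (1 / (m : ℝ)) * ∑ i, (1 / 2 * (if x = 0 then 1 else 0) +
      1 / 2 * (if x = Pi.single i 1 then 1 else 0)) := by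
    unfold base
    congr 1
    exact Finset.sum_congr rfl fun i _ => uH_coord m i x
  rw [h1, Finset.sum_add_distrib, Finset.sum_const, Finset.card_univ, Fintype.card_fin,
    nsmul_eq_mul, ← Finset.mul_sum]
  have h2 : ∑ i : Fin m, (if x = Pi.single i 1 then (1 : ℝ) else 0) =
      if x ∈ EE m then 1 else 0 := by
    by_cases h : x ∈ EE m
    · rw [if_pos h]
      obtain ⟨i, _, rfl⟩ := Finset.mem_image.mp h
      rw [Finset.sum_eq_single i]
      · simp
      · intro j _ hj
        rw [if_neg fun h => hj (single_inj m h).symm]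
      · simp
    · rw [if_neg h]
      refine Finset.sum_eq_zero fun i _ => if_neg ?_
      rintro rfl
      exact h (Finset.mem_image_of_mem _ (Finset.mem_univ i))
  rw [h2]
  field_simp

section Graph

variable (m M : ℕ) [NeZero M]

/-- The connection set. -/
def inS (p : (Fin m → ZMod 2) × ZMod M) : Prop := p.1 ∈ EE m ∨ (p.2 = 0 ∧ p.1 ≠ 0)

instance : DecidablePred (inS m M) := fun p => by unfold inS; infer_instance

/-- The size of the connection set. -/
def DD : ℕ := m * M + (2 ^ m - 1 - m)

theorem neg_cube (x : Fin m → ZMod 2) : -x = x := by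
  funext i
  exact ZMod.neg_eq_self_mod_two (x i)

theorem inS_neg (p : (Fin m → ZMod 2) × ZMod M) : inS m M (-p) ↔ inS m M p := by
  unfold inS
  simp [neg_cube]

theorem inS_zero : ¬ inS m M 0 := by
  unfold inS
  simp [zero_notMem_EE]

theorem card_inS : (univ.filter (inS m M)).card = DD m M := by
  have h1 : univ.filter (inS m M) = (EE m ×ˢ (univ : Finset (ZMod M))) ∪
      (((univ \ EE m) \ {0}) ×ˢ ({0} : Finset (ZMod M))) := by
    ext ⟨x, κ⟩
    simp only [inS, Finset.mem_filter, Finset.mem_univ, true_and, Finset.mem_union,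
      Finset.mem_product, and_true, Finset.mem_sdiff, Finset.mem_singleton]
    by_cases h : x ∈ EE m
    · simp [h]
    · simp [h, and_comm]
  have h2 : Disjoint (EE m ×ˢ (univ : Finset (ZMod M)))
      (((univ \ EE m) \ {0}) ×ˢ ({0} : Finset (ZMod M))) := by
    rw [Finset.disjoint_left]
    rintro ⟨x, κ⟩ h3 h4
    simp only [Finset.mem_product, Finset.mem_sdiff] at h3 h4
    exact h4.1.1.2 h3.1
  rw [h1, Finset.card_union_of_disjoint h2, Finset.card_product, Finset.card_product,
    Finset.card_singleton, mul_one, EE_card, Finset.card_univ, ZMod.card]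
  have h3 : ({0} : Finset (Fin m → ZMod 2)) ⊆ univ \ EE m := by
    intro x hx
    rw [Finset.mem_singleton] at hx
    subst hx
    simp [zero_notMem_EE]
  rw [Finset.card_sdiff_of_subset h3, Finset.card_sdiff_of_subset (Finset.subset_univ _), EE_card,
    Finset.card_univ, Finset.card_singleton]
  unfold DD
  have h4 : Fintype.card (Fin m → ZMod 2) = 2 ^ m := by simp
  rw [h4]
  omega

theorem m_lt (m : ℕ) : m + 1 ≤ 2 ^ m := Nat.lt_two_pow_self

theorem DD_real : (DD m M : ℝ) = m * M + (2 ^ m - 1 - m) := by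
  unfold DD
  have h := m_lt m
  rw [Nat.cast_add, Nat.cast_sub (by omega), Nat.cast_sub (by omega)]
  push_cast
  ring

theorem DD_pos (hm : 0 < m) : 0 < DD m M := by
  have := NeZero.pos M
  unfold DD
  have := Nat.mul_pos hm this
  omega

/-- The graph. -/
def GG : SimpleGraph ((Fin m → ZMod 2) × ZMod M) where
  Adj v w := inS m M (w - v)
  symm := ⟨fun v w h => by rw [← neg_sub, inS_neg]; exact h⟩
  loopless := ⟨fun v h => by rw [sub_self] at h; exact inS_zero m M h⟩

instance : DecidableRel (GG m M).Adj := fun v w => by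
  change Decidable (inS m M (w - v))
  infer_instance

theorem GG_degree (v : (Fin m → ZMod 2) × ZMod M) : (GG m M).degree v = DD m M := by
  rw [← card_inS, ← SimpleGraph.card_neighborFinset_eq_degree]
  refine Finset.card_bij' (fun w _ => w - v) (fun p _ => p + v) ?_ ?_ ?_ ?_
  · intro w hw
    rw [SimpleGraph.mem_neighborFinset] at hw
    exact Finset.mem_filter.mpr ⟨Finset.mem_univ _, hw⟩
  · intro p hp
    simp only [Finset.mem_filter, Finset.mem_univ, true_and] at hp
    rw [SimpleGraph.mem_neighborFinset]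
    change inS m M (p + v - v)
    rwa [add_sub_cancel_right]
  · intro w _; simp
  · intro p _; simp

theorem GG_transitive (v w : (Fin m → ZMod 2) × ZMod M) :
    ∃ φ : GG m M ≃g GG m M, φ v = w := by
  refine ⟨{ toEquiv := Equiv.addRight (w - v), map_rel_iff' := ?_ }, ?_⟩
  · intro a b
    change inS m M (b + (w - v) - (a + (w - v))) ↔ inS m M (b - a)
    rw [add_sub_add_right_eq_sub]
  · change v + (w - v) = w
    abel

theorem GG_connected (hm : 0 < m) : (GG m M).Connected := by
  have : Nonempty ((Fin m → ZMod 2) × ZMod M) := ⟨0⟩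
  rw [SimpleGraph.connected_iff]
  refine ⟨?_, this⟩
  set e : Fin m → ZMod 2 := Pi.single ⟨0, hm⟩ 1 with he
  have heE : e ∈ EE m := Finset.mem_image_of_mem _ (Finset.mem_univ _)
  have hA : ∀ (x : Fin m → ZMod 2) (κ κ' : ZMod M), (GG m M).Reachable (x, κ') (x, κ) := by
    intro x κ κ'
    have h1 : (GG m M).Adj (x, κ') (x + e, κ) := by
      change inS m M ((x + e, κ) - (x, κ'))
      left
      simpa using heE
    have h2 : (GG m M).Adj (x + e, κ) (x, κ) := by
      change inS m M ((x, κ) - (x + e, κ))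
      left
      simpa [neg_cube] using heE
    exact h1.reachable.trans h2.reachable
  have hB : ∀ (x y : Fin m → ZMod 2) (κ : ZMod M), (GG m M).Reachable (x, κ) (y, κ) := by
    intro x y κ
    by_cases h : x = y
    · rw [h]
    · have h1 : (GG m M).Adj (x, κ) (y, κ) := by
        change inS m M ((y, κ) - (x, κ))
        right
        refine ⟨by simp, ?_⟩
        simpa [sub_eq_zero] using fun h2 => h h2.symm
      exact h1.reachable
  rintro ⟨x, κ⟩ ⟨y, κ'⟩
  exact (hB x y κ).trans (hA y κ' κ)

/-- The law of one step of the lazy walk. -/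
def sig (p : (Fin m → ZMod 2) × ZMod M) : ℝ :=
  (if p = 0 then 1 / 2 else 0) + (if inS m M p then 1 / (2 * (DD m M : ℝ)) else 0)

/-- The part that randomises the second coordinate. -/
def rho1 (x : Fin m → ZMod 2) : ℝ := if x ∈ EE m then (M : ℝ) / (2 * (DD m M : ℝ)) else 0

/-- The part that fixes the second coordinate. -/
def rho2 (x : Fin m → ZMod 2) : ℝ :=
  if x = 0 then 1 / 2 else if x ∈ EE m then 0 else 1 / (2 * (DD m M : ℝ))

theorem sig_eq : sig m M = prodLaw (ZMod M) (rho1 m M) (rho2 m M) := by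
  have hM : (M : ℝ) ≠ 0 := by exact_mod_cast NeZero.ne M
  funext ⟨x, κ⟩
  unfold sig prodLaw rho1 rho2 inS
  simp only [ZMod.card, Prod.mk_eq_zero]
  by_cases h0 : x = 0
  · subst h0
    simp [zero_notMem_EE]
  · by_cases hE : x ∈ EE m
    · simp only [h0, hE, if_true, if_false, false_and, true_or]
      field_simp
      simp
    · by_cases hκ : κ = 0
      · simp [h0, hE, hκ]
      · simp [h0, hE, hκ]

theorem rho2_nonneg (x : Fin m → ZMod 2) : 0 ≤ rho2 m M x := by
  unfold rho2; split_ifs <;> positivity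

theorem rho2_sum (hm : 0 < m) (hM : 2 ^ m ≤ M) : ∑ x, rho2 m M x ≤ 3 / 4 := by
  have hD : (0 : ℝ) < DD m M := by exact_mod_cast DD_pos m M hm
  have h1 : ∑ x, rho2 m M x = ∑ x, ((if x = 0 then (1 / 2 : ℝ) else 0) +
      (if x ∈ (univ \ EE m) \ {0} then 1 / (2 * (DD m M : ℝ)) else 0)) := by
    refine Finset.sum_congr rfl fun x _ => ?_
    unfold rho2
    by_cases h0 : x = 0
    · simp [h0]
    · by_cases hE : x ∈ EE m
      · simp [h0, hE]
      · simp [h0, hE]
  have h3 : ({0} : Finset (Fin m → ZMod 2)) ⊆ univ \ EE m := by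
    intro x hx
    rw [Finset.mem_singleton] at hx
    subst hx
    simp [zero_notMem_EE]
  have h2 : ((univ \ EE m) \ {0} : Finset (Fin m → ZMod 2)).card = 2 ^ m - m - 1 := by
    rw [Finset.card_sdiff_of_subset h3, Finset.card_sdiff_of_subset (Finset.subset_univ _),
      EE_card, Finset.card_univ, Finset.card_singleton]
    simp
  rw [h1, Finset.sum_add_distrib, Finset.sum_ite_eq', ← Finset.sum_filter,
    Finset.sum_const, nsmul_eq_mul]
  have h4 : (univ.filter fun x => x ∈ (univ \ EE m) \ {0}) = (univ \ EE m) \ {0} := by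
    ext x; simp
  rw [h4, h2, if_pos (Finset.mem_univ _)]
  have h5 := m_lt m
  have h6 : ((2 ^ m - m - 1 : ℕ) : ℝ) = 2 ^ m - m - 1 := by
    rw [Nat.cast_sub (by omega), Nat.cast_sub (by omega)]; push_cast; ring
  rw [h6]
  have h7 : (2 ^ m - m - 1 : ℝ) * (1 / (2 * (DD m M : ℝ))) ≤ 1 / 4 := by
    rw [mul_one_div, div_le_div_iff₀ (by positivity) (by norm_num), DD_real]
    have h8 : (2 : ℝ) ^ m ≤ M := by exact_mod_cast hM
    have h9 : (1 : ℝ) ≤ m := by exact_mod_cast hm
    have h10 : (M : ℝ) ≤ m * M := by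
      have : (0 : ℝ) ≤ M := Nat.cast_nonneg M
      nlinarith
    linarith
  linarith

/-- The weight of the uniform jump. -/
def theta : ℝ := 2 ^ m / (2 * (DD m M : ℝ))

/-- The activity of the walk between jumps. -/
def bb : ℝ := m * ((M : ℝ) - 1) / (m * ((M : ℝ) - 1) + 2 ^ m / 2 - 1)

theorem bb_mem (hm : 0 < m) (hM : 2 ^ m ≤ M) : 0 ≤ bb m M ∧ bb m M ≤ 1 := by
  have h8 : (2 : ℝ) ^ m ≤ M := by exact_mod_cast hM
  have h9 : (1 : ℝ) ≤ m := by exact_mod_cast hm
  have h10 : (2 : ℝ) ≤ 2 ^ m := by
    calc (2 : ℝ) = 2 ^ 1 := (pow_one 2).symm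
      _ ≤ 2 ^ m := pow_le_pow_right₀ (by norm_num) hm
  have h11 : 0 < (m : ℝ) * ((M : ℝ) - 1) := mul_pos (by linarith) (by linarith)
  unfold bb
  constructor
  · exact div_nonneg h11.le (by linarith)
  · rw [div_le_one (by linarith)]; linarith

theorem theta_mem (hm : 0 < m) (hM : 2 ^ m ≤ M) : 0 < theta m M ∧ theta m M ≤ 1 := by
  have hD : (0 : ℝ) < DD m M := by exact_mod_cast DD_pos m M hm
  have h8 : (2 : ℝ) ^ m ≤ M := by exact_mod_cast hM
  have h9 : (1 : ℝ) ≤ m := by exact_mod_cast hm
  have h5 : (m : ℝ) + 1 ≤ 2 ^ m := by exact_mod_cast m_lt m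
  unfold theta
  refine ⟨by positivity, ?_⟩
  rw [div_le_one (by positivity), DD_real]
  have h10 : (M : ℝ) ≤ m * M := by
    have : (0 : ℝ) ≤ M := Nat.cast_nonneg M
    nlinarith
  have : (0 : ℝ) ≤ 2 ^ m := by positivity
  linarith

theorem one_sub_theta_mul_bb (hm : 0 < m) (hM : 2 ^ m ≤ M) :
    (1 - theta m M) * bb m M = m * ((M : ℝ) - 1) / DD m M := by
  have hD : (0 : ℝ) < DD m M := by exact_mod_cast DD_pos m M hm
  have h8 : (2 : ℝ) ^ m ≤ M := by exact_mod_cast hM
  have h9 : (1 : ℝ) ≤ m := by exact_mod_cast hm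
  have h10 : (2 : ℝ) ≤ 2 ^ m := by
    calc (2 : ℝ) = 2 ^ 1 := (pow_one 2).symm
      _ ≤ 2 ^ m := pow_le_pow_right₀ (by norm_num) hm
  have h11 : 0 < (m : ℝ) * ((M : ℝ) - 1) := mul_pos (by linarith) (by linarith)
  have h12 : 0 < (m : ℝ) * ((M : ℝ) - 1) + 2 ^ m / 2 - 1 := by linarith
  have e1 : 1 - theta m M = ((m : ℝ) * ((M : ℝ) - 1) + 2 ^ m / 2 - 1) / DD m M := by
    unfold theta
    have hd := DD_real m M
    field_simp
    rw [hd]
    ring
  rw [e1]
  unfold bb
  rw [div_mul_div_comm, mul_comm ((m : ℝ) * ((M : ℝ) - 1) + 2 ^ m / 2 - 1),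
    mul_div_mul_right _ _ h12.ne']

theorem sigX_eq (hm : 0 < m) (hM : 2 ^ m ≤ M) (x : Fin m → ZMod 2) :
    rho1 m M x + rho2 m M x = (1 - theta m M) * lz (cube m) (bb m M) x +
      theta m M * (1 / (Fintype.card (Fin m → ZMod 2) : ℝ)) := by
  have hD : (0 : ℝ) < DD m M := by exact_mod_cast DD_pos m M hm
  have hmr : (0 : ℝ) < m := by exact_mod_cast hm
  have h2m : (0 : ℝ) < 2 ^ m := by positivity
  have hcard : (Fintype.card (Fin m → ZMod 2) : ℝ) = 2 ^ m := by simp
  have hb := one_sub_theta_mul_bb m M hm hM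
  have hd := DD_real m M
  unfold lz
  rw [base_cube m hm, hcard]
  have e0 : (1 - theta m M) * ((1 - bb m M) * (if x = 0 then 1 else 0) +
      bb m M * (1 / 2 * (if x = 0 then 1 else 0) + 1 / (2 * m) * (if x ∈ EE m then 1 else 0))) =
      ((1 - theta m M) - (1 - theta m M) * bb m M / 2) * (if x = 0 then 1 else 0) +
      (1 - theta m M) * bb m M / (2 * m) * (if x ∈ EE m then 1 else 0) := by
    field_simp
    ring
  rw [e0, hb]
  unfold rho1 rho2 theta
  by_cases h0 : x = 0
  · subst h0
    simp only [zero_notMem_EE, if_false, if_true]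
    field_simp
    rw [hd]
    ring
  · by_cases hE : x ∈ EE m
    · simp only [h0, hE, if_false, if_true]
      field_simp
      ring
    · simp only [h0, hE, if_false]
      field_simp
      ring

theorem norm_hat_le {A : Type} [AddCommGroup A] [Fintype A] {p : A → ℝ} (hp : ∀ x, 0 ≤ p x)
    (ψ : AddChar A ℂ) : ‖hat p ψ‖ ≤ ∑ x, p x := by
  unfold hat
  refine (norm_sum_le _ _).trans (le_of_eq ?_)
  refine Finset.sum_congr rfl fun x _ => ?_
  rw [norm_mul, AddChar.norm_apply, mul_one, Complex.norm_real, Real.norm_of_nonneg (hp x)]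

theorem sig_hat (hm : 0 < m) (hM : 2 ^ m ≤ M) {ψ : AddChar ((Fin m → ZMod 2) × ZMod M) ℂ}
    {lam : ℝ} (h : hat (sig m M) ψ = lam) (hl : lam ≠ 1) : lam ≤ 1 - 1 / (4 * m) := by
  have hD : (0 : ℝ) < DD m M := by exact_mod_cast DD_pos m M hm
  have hmr : (0 : ℝ) < m := by exact_mod_cast hm
  have hm1 : (1 : ℝ) ≤ m := by exact_mod_cast hm
  have h8 : (2 : ℝ) ^ m ≤ M := by exact_mod_cast hM
  have h10 : (2 : ℝ) ≤ 2 ^ m := by
    calc (2 : ℝ) = 2 ^ 1 := (pow_one 2).symm
      _ ≤ 2 ^ m := pow_le_pow_right₀ (by norm_num) hm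
  have h34 : (3 : ℝ) / 4 ≤ 1 - 1 / (4 * m) := by
    have : 1 / (4 * (m : ℝ)) ≤ 1 / 4 := by
      apply one_div_le_one_div_of_le <;> linarith
    linarith
  rw [sig_eq, hat_prod] at h
  by_cases hK : resK ψ = 0
  · rw [if_pos hK, mul_one] at h
    have h1 : hat (rho1 m M) (resX ψ) + hat (rho2 m M) (resX ψ) =
        ((1 - theta m M : ℝ) : ℂ) * hat (lz (cube m) (bb m M)) (resX ψ) +
          ((theta m M * (1 / (Fintype.card (Fin m → ZMod 2) : ℝ)) : ℝ) : ℂ) *
            ∑ x, resX ψ x := by
      unfold hat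
      rw [← Finset.sum_add_distrib, Finset.mul_sum, Finset.mul_sum, ← Finset.sum_add_distrib]
      refine Finset.sum_congr rfl fun x _ => ?_
      rw [← add_mul, ← Complex.ofReal_add, sigX_eq m M hm hM]
      push_cast
      ring
    by_cases hX : resX ψ = 0
    · exfalso
      apply hl
      rw [h1, hX, hat_lz _ hm] at h
      have h2 : nt (cube m) (0 : AddChar (Fin m → ZMod 2) ℂ) = 0 := by unfold nt; simp
      rw [h2] at h
      have h3 : (Fintype.card (Fin m → ZMod 2) : ℂ) ≠ 0 := by
        exact_mod_cast Fintype.card_ne_zero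
      have h4 : ((1 - theta m M : ℝ) : ℂ) * ((1 - bb m M * ((0 : ℕ) : ℝ) / m : ℝ) : ℂ) +
          ((theta m M * (1 / (Fintype.card (Fin m → ZMod 2) : ℝ)) : ℝ) : ℂ) *
            ∑ x : Fin m → ZMod 2, (0 : AddChar (Fin m → ZMod 2) ℂ) x = 1 := by
        simp only [AddChar.zero_apply, Finset.sum_const, Finset.card_univ, nsmul_eq_mul, mul_one]
        push_cast
        rw [mul_zero, zero_div, sub_zero, mul_one, mul_assoc, one_div, inv_mul_cancel₀ h3]
        ring
      rw [h4] at h
      exact_mod_cast h.symm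
    · rw [h1, hat_lz _ hm, AddChar.sum_eq_zero_iff_ne_zero.mpr hX, mul_zero, add_zero] at h
      have h2 : lam = (1 - theta m M) * (1 - bb m M * (nt (cube m) (resX ψ) : ℝ) / m) := by
        exact_mod_cast h.symm
      have h3 : (1 : ℝ) ≤ nt (cube m) (resX ψ) := by exact_mod_cast nt_pos (cube m) hX
      obtain ⟨hb0, hb1⟩ := bb_mem m M hm hM
      obtain ⟨ht0, ht1⟩ := theta_mem m M hm hM
      have h4 : lam ≤ (1 - theta m M) * (1 - bb m M / m) := by
        rw [h2]
        refine mul_le_mul_of_nonneg_left ?_ (by linarith)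
        have : bb m M / m ≤ bb m M * (nt (cube m) (resX ψ) : ℝ) / m := by
          refine div_le_div_of_nonneg_right ?_ hmr.le
          exact le_mul_of_one_le_right hb0 h3
        linarith
      have h5 : (1 - theta m M) * (1 - bb m M / m) =
          (1 - theta m M) - ((M : ℝ) - 1) / DD m M := by
        have e := one_sub_theta_mul_bb m M hm hM
        have : (1 - theta m M) * (1 - bb m M / m) =
            (1 - theta m M) - ((1 - theta m M) * bb m M) / m := by ring
        rw [this, e]
        field_simp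
      have h6 : 1 / (4 * (m : ℝ)) ≤ ((M : ℝ) - 1) / DD m M := by
        rw [div_le_div_iff₀ (by positivity) hD, DD_real]
        have h7 : (M : ℝ) ≤ m * M := by nlinarith
        nlinarith
      rw [h5] at h4
      linarith
  · rw [if_neg hK, mul_zero, zero_add] at h
    have h1 := norm_hat_le (rho2_nonneg m M) (resX ψ)
    rw [h, Complex.norm_real] at h1
    have h2 := (le_abs_self lam).trans (h1.trans (rho2_sum m M hm hM))
    linarith

end Graph

end

end Pool.Agent.H632R3.Conv
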