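import Mathlib
import Pool.Agent.H632R3.BranchCore

open Filter Topology Set MeasureTheory ProbabilityTheory
open scoped ENNReal

namespace Pool.Agent.H632R3.Branch

noncomputable section

variable {X : Type}

/-- The monomial `∏_y s_y ^ f(y)`. -/
def mon (s : X → ℝ) (f : X →₀ ℕ) : ℝ := f.prod fun y k => s y ^ k

/-- The generating function `G(s)_x = ∑_f μ_x(f) ∏_y s_y^{f(y)}` of the offspring laws `μ`. -/
def gen (μ : X → PMF (X →₀ ℕ)) (s : X → ℝ) (x : X) : ℝ :=
  ∑' f : X →₀ ℕ, (μ x f).toReal * mon s f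

/-- The sample space: an independent family of offspring vectors; `ω (n, y, i)` is the offspring
of the `i`-th individual of type `y` in generation `n`. -/
abbrev Sample (X : Type) : Type := ℕ × X × ℕ → (X →₀ ℕ)

/-- Generation `n` of the branching process started from one individual of type `x`, as the
vector of the numbers of individuals of each type. -/
def pop (x : X) (ω : Sample X) : ℕ → (X →₀ ℕ)
  | 0 => Finsupp.single x 1
  | n + 1 => (pop x ω n).sum fun y k => ∑ i ∈ Finset.range k, ω (n, y, i)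

/-- The discrete sigma-algebra on the countable set of population vectors. -/
scoped instance instMS : MeasurableSpace (X →₀ ℕ) := ⊤

scoped instance instDMS : DiscreteMeasurableSpace (X →₀ ℕ) := ⟨fun _ => trivial⟩

/-- The law of the family of offspring vectors: independent, `ω (n, y, i)` with law `μ y`. -/
def law (μ : X → PMF (X →₀ ℕ)) : Measure (Sample X) :=
  Measure.infinitePi fun a : ℕ × X × ℕ => (μ a.2.1).toMeasure

/-- The probability of global extinction. -/
def qGlobal (μ : X → PMF (X →₀ ℕ)) (x : X) : ℝ :=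
  (law μ).real {ω | ∃ n, pop x ω n = 0}

/-- The probability of partial extinction: every type is present in only finitely many
generations. -/
def qPartial (μ : X → PMF (X →₀ ℕ)) (x : X) : ℝ :=
  (law μ).real {ω | ∀ y, {n | pop x ω n y ≠ 0}.Finite}

instance (μ : X → PMF (X →₀ ℕ)) : IsProbabilityMeasure (law μ) := by
  unfold law; infer_instance

/-! ### Analytic properties of the generating function -/

theorem mon_nonneg {s : X → ℝ} (hs : Box s) (f : X →₀ ℕ) : 0 ≤ mon s f :=
  Finset.prod_nonneg fun y _ => pow_nonneg (hs y).1 _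

theorem mon_le_one {s : X → ℝ} (hs : Box s) (f : X →₀ ℕ) : mon s f ≤ 1 :=
  Finset.prod_le_one (fun y _ => pow_nonneg (hs y).1 _) fun y _ => pow_le_one₀ (hs y).1 (hs y).2

theorem mon_mono {s t : X → ℝ} (hs : Box s) (hst : s ≤ t) (f : X →₀ ℕ) : mon s f ≤ mon t f :=
  Finset.prod_le_prod (fun y _ => pow_nonneg (hs y).1 _) fun y _ =>
    pow_le_pow_left₀ (hs y).1 (hst y) _

theorem prod_conv {ι : Type} (A : Finset ι) (p q : ι → ℝ) (hp : ∀ i, 0 ≤ p i)
    (hpq : ∀ i, p i ≤ q i) {θ : ℝ} (t0 : 0 ≤ θ) (t1 : θ ≤ 1) :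
    ∏ i ∈ A, ((1 - θ) * p i + θ * q i) ≤ (1 - θ) * ∏ i ∈ A, p i + θ * ∏ i ∈ A, q i := by
  classical
  induction A using Finset.induction_on with
  | empty => simp
  | insert j A hj ih =>
    rw [Finset.prod_insert hj, Finset.prod_insert hj, Finset.prod_insert hj]
    have hP : 0 ≤ ∏ i ∈ A, p i := Finset.prod_nonneg fun i _ => hp i
    have hPQ : ∏ i ∈ A, p i ≤ ∏ i ∈ A, q i := Finset.prod_le_prod (fun i _ => hp i) fun i _ => hpq i
    have h1 : 0 ≤ (1 - θ) * p j + θ * q j :=
      add_nonneg (mul_nonneg (sub_nonneg.mpr t1) (hp j)) (mul_nonneg t0 ((hp j).trans (hpq j)))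
    calc ((1 - θ) * p j + θ * q j) * ∏ i ∈ A, ((1 - θ) * p i + θ * q i)
        ≤ ((1 - θ) * p j + θ * q j) * ((1 - θ) * ∏ i ∈ A, p i + θ * ∏ i ∈ A, q i) :=
          mul_le_mul_of_nonneg_left ih h1
      _ ≤ (1 - θ) * (p j * ∏ i ∈ A, p i) + θ * (q j * ∏ i ∈ A, q i) := by
          have h2 : 0 ≤ θ * (1 - θ) := mul_nonneg t0 (sub_nonneg.mpr t1)
          have h3 : 0 ≤ (q j - p j) * (∏ i ∈ A, q i - ∏ i ∈ A, p i) :=
            mul_nonneg (sub_nonneg.mpr (hpq j)) (sub_nonneg.mpr hPQ)
          nlinarith [mul_nonneg h2 h3]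

theorem mon_conv {s t : X → ℝ} (hs : Box s) (ht : Box t) (hst : s ≤ t) {θ : ℝ} (t0 : 0 ≤ θ)
    (t1 : θ ≤ 1) (f : X →₀ ℕ) :
    mon (fun y => (1 - θ) * s y + θ * t y) f ≤ (1 - θ) * mon s f + θ * mon t f := by
  unfold mon Finsupp.prod
  refine le_trans ?_ (prod_conv f.support (fun y => s y ^ f y) (fun y => t y ^ f y)
    (fun y => pow_nonneg (hs y).1 _) (fun y => pow_le_pow_left₀ (hs y).1 (hst y) _) t0 t1)
  refine Finset.prod_le_prod (fun y _ => pow_nonneg (Box.convex hs ht t0 t1 y).1 _) fun y _ => ?_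
  have h := (convexOn_pow (f y)).2 (Set.mem_Ici.mpr (hs y).1) (Set.mem_Ici.mpr (ht y).1)
    (sub_nonneg.mpr t1) t0 (by ring)
  simpa [smul_eq_mul] using h

theorem hasSum_pmf (p : PMF (X →₀ ℕ)) : HasSum (fun f => (p f).toReal) 1 := by
  have h1 : ∑' f, p f = 1 := p.tsum_coe
  have h2 : Summable fun f => (p f).toReal := ENNReal.summable_toReal (by rw [h1]; simp)
  have h3 : ∑' f, (p f).toReal = 1 := by
    rw [← ENNReal.tsum_toReal_eq fun f => p.apply_ne_top f, h1]; simp
  rw [← h3]; exact h2.hasSum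

theorem gen_summable (μ : X → PMF (X →₀ ℕ)) {s : X → ℝ} (hs : Box s) (x : X) :
    Summable fun f => (μ x f).toReal * mon s f :=
  Summable.of_nonneg_of_le (fun f => mul_nonneg ENNReal.toReal_nonneg (mon_nonneg hs f))
    (fun f => mul_le_of_le_one_right ENNReal.toReal_nonneg (mon_le_one hs f))
    (hasSum_pmf (μ x)).summable

theorem gen_good (μ : X → PMF (X →₀ ℕ)) : GoodOp (gen μ) where
  box := by
    intro s hs x
    refine ⟨tsum_nonneg fun f => mul_nonneg ENNReal.toReal_nonneg (mon_nonneg hs f), ?_⟩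
    calc gen μ s x ≤ ∑' f, (μ x f).toReal :=
          (gen_summable μ hs x).tsum_le_tsum
            (fun f => mul_le_of_le_one_right ENNReal.toReal_nonneg (mon_le_one hs f))
            (hasSum_pmf (μ x)).summable
      _ = 1 := (hasSum_pmf (μ x)).tsum_eq
  mono := by
    intro s t hs ht hst x
    exact (gen_summable μ hs x).tsum_le_tsum
      (fun f => mul_le_mul_of_nonneg_left (mon_mono hs hst f) ENNReal.toReal_nonneg)
      (gen_summable μ ht x)
  cont := by
    intro α l s t hs ht hst
    rw [tendsto_pi_nhds]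
    intro x
    refine tendsto_tsum_of_dominated_convergence (hasSum_pmf (μ x)).summable ?_ ?_
    · intro f
      refine Tendsto.const_mul _ ?_
      unfold mon Finsupp.prod
      refine tendsto_finsetProd _ fun y _ => ?_
      exact ((tendsto_pi_nhds.mp hst) y).pow _
    · filter_upwards [hs] with a ha f
      rw [Real.norm_of_nonneg (mul_nonneg ENNReal.toReal_nonneg (mon_nonneg ha f))]
      exact mul_le_of_le_one_right ENNReal.toReal_nonneg (mon_le_one ha f)
  conv := by
    intro s t hs ht hst θ t0 t1 x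
    unfold gen
    rw [← tsum_mul_left, ← tsum_mul_left, ← ((gen_summable μ hs x).mul_left _).tsum_add
      ((gen_summable μ ht x).mul_left _)]
    refine (gen_summable μ (Box.convex hs ht t0 t1) x).tsum_le_tsum (fun f => ?_)
      (((gen_summable μ hs x).mul_left _).add ((gen_summable μ ht x).mul_left _))
    have := mul_le_mul_of_nonneg_left (mon_conv hs ht hst t0 t1 f)
      (ENNReal.toReal_nonneg (a := μ x f))
    linarith

end

end Pool.Agent.H632R3.Branch
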