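import Mathlib
import Pool.Agent.H632R3.BranchGen

open Filter Topology Set MeasureTheory ProbabilityTheory
open scoped ENNReal

set_option linter.unusedSectionVars false
set_option warn.classDefReducibility false

namespace Pool.Agent.H632R3.Branch

noncomputable section

variable {X : Type}

/-- The sigma-algebra generated by one coordinate. -/
def coordSA (X : Type) (a : ℕ × X × ℕ) : MeasurableSpace (Sample X) :=
  MeasurableSpace.comap (fun ω : Sample X => ω a) ⊤

/-- The sigma-algebra of the first `N` generations of offspring. -/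
def past (X : Type) (N : ℕ) : MeasurableSpace (Sample X) :=
  ⨆ a ∈ {a : ℕ × X × ℕ | a.1 < N}, coordSA X a

/-- The sigma-algebra of the offspring of generation `N`. -/
def present (X : Type) (N : ℕ) : MeasurableSpace (Sample X) :=
  ⨆ a ∈ {a : ℕ × X × ℕ | a.1 = N}, coordSA X a

theorem coordSA_le (a : ℕ × X × ℕ) : coordSA X a ≤ MeasurableSpace.pi :=
  (measurable_pi_apply a).comap_le

theorem past_le (N : ℕ) : past X N ≤ MeasurableSpace.pi :=
  iSup₂_le fun a _ => coordSA_le a

theorem present_le (N : ℕ) : present X N ≤ MeasurableSpace.pi :=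
  iSup₂_le fun a _ => coordSA_le a

theorem past_mono {M N : ℕ} (h : M ≤ N) : past X M ≤ past X N :=
  iSup₂_le fun a ha => le_iSup₂_of_le a (lt_of_lt_of_le ha h) le_rfl

theorem coord_meas_past {N : ℕ} {a : ℕ × X × ℕ} (ha : a.1 < N) :
    Measurable[past X N] fun ω : Sample X => ω a :=
  Measurable.of_comap_le (le_iSup₂_of_le a ha le_rfl)

theorem coord_meas_present {N : ℕ} {a : ℕ × X × ℕ} (ha : a.1 = N) :
    Measurable[present X N] fun ω : Sample X => ω a :=
  Measurable.of_comap_le (le_iSup₂_of_le a ha le_rfl)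

variable [Countable X]

local instance : Countable (X →₀ ℕ) := by
  infer_instance

local instance : MeasurableAdd₂ (X →₀ ℕ) := ⟨measurable_of_countable _⟩

theorem step_meas (m : MeasurableSpace (Sample X)) (n : ℕ) (z : X →₀ ℕ)
    (h : ∀ y i, Measurable[m] fun ω : Sample X => ω (n, y, i)) :
    Measurable[m] fun ω : Sample X => z.sum fun y k => ∑ i ∈ Finset.range k, ω (n, y, i) := by
  unfold Finsupp.sum
  refine Finset.measurable_fun_sum _ fun y _ => ?_
  exact Finset.measurable_fun_sum _ fun i _ => h y i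

theorem pop_meas (x : X) (n : ℕ) : Measurable[past X n] fun ω : Sample X => pop x ω n := by
  induction n with
  | zero => exact measurable_const
  | succ n ih =>
    refine @measurable_to_countable' _ _ _ _ (past X (n + 1)) _ fun w => ?_
    have h1 : (fun ω : Sample X => pop x ω (n + 1)) ⁻¹' {w} =
        ⋃ z : X →₀ ℕ, ((fun ω : Sample X => pop x ω n) ⁻¹' {z}) ∩
          ((fun ω : Sample X => z.sum fun y k => ∑ i ∈ Finset.range k, ω (n, y, i)) ⁻¹' {w}) := by
      ext ω
      simp [pop]
    rw [h1]
    refine MeasurableSet.iUnion fun z => MeasurableSet.inter ?_ ?_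
    · exact past_mono (Nat.le_succ n) _ (ih (measurableSet_singleton z))
    · exact step_meas (past X (n + 1)) n z (fun y i => coord_meas_past (Nat.lt_succ_self n))
        (measurableSet_singleton w)

theorem pop_meas' (x : X) (n : ℕ) : Measurable fun ω : Sample X => pop x ω n :=
  (pop_meas x n).mono (past_le n) le_rfl

theorem mon_add (v : X → ℝ) (f g : X →₀ ℕ) : mon v (f + g) = mon v f * mon v g := by
  classical
  unfold mon
  exact Finsupp.prod_add_index' (fun _ => pow_zero _) fun _ _ _ => pow_add _ _ _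

theorem mon_zero (v : X → ℝ) : mon v 0 = 1 := by simp [mon]

theorem mon_sum {ι : Type} (v : X → ℝ) (A : Finset ι) (g : ι → X →₀ ℕ) :
    mon v (∑ i ∈ A, g i) = ∏ i ∈ A, mon v (g i) := by
  classical
  induction A using Finset.induction_on with
  | empty => simp [mon_zero]
  | insert j A hj ih => rw [Finset.sum_insert hj, mon_add, ih, Finset.prod_insert hj]

theorem mon_mul (v w : X → ℝ) (f : X →₀ ℕ) : mon (fun y => v y * w y) f = mon v f * mon w f := by
  unfold mon Finsupp.prod
  rw [← Finset.prod_mul_distrib]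
  exact Finset.prod_congr rfl fun y _ => mul_pow _ _ _

theorem mon_single (v : X → ℝ) (x : X) : mon v (Finsupp.single x 1) = v x := by
  have h : (Finsupp.single x 1).prod (fun y k => v y ^ k) = v x ^ 1 :=
    Finsupp.prod_single_index (h := fun y k => v y ^ k) (pow_zero _)
  rw [pow_one] at h
  exact h

theorem coord_indep (μ : X → PMF (X →₀ ℕ)) :
    iIndepFun (fun (a : ℕ × X × ℕ) (ω : Sample X) => ω a) (law μ) :=
  iIndepFun_infinitePi (X := fun (_ : ℕ × X × ℕ) (f : X →₀ ℕ) => f) fun _ => measurable_id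

theorem indep_past_present (μ : X → PMF (X →₀ ℕ)) (N : ℕ) :
    Indep (past X N) (present X N) (law μ) := by
  have h := coord_indep μ
  rw [iIndepFun_iff_iIndep] at h
  refine indep_iSup_of_disjoint (fun a => coordSA_le a) h ?_
  rw [Set.disjoint_left]
  intro a ha hb
  have ha' : a.1 < N := ha
  have hb' : a.1 = N := hb
  omega

theorem lint_coord (μ : X → PMF (X →₀ ℕ)) {v : X → ℝ} (hv : Box v) (a : ℕ × X × ℕ) :
    ∫⁻ ω, ENNReal.ofReal (mon v (ω a)) ∂(law μ) = ENNReal.ofReal (gen μ v a.2.1) := by
  have h1 : ∫⁻ ω, ENNReal.ofReal (mon v (ω a)) ∂(law μ) =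
      ∫⁻ f, ENNReal.ofReal (mon v f) ∂((law μ).map fun ω => ω a) := by
    rw [lintegral_map (measurable_of_countable _) (measurable_pi_apply a)]
  rw [h1, law, Measure.infinitePi_map_eval]
  rw [lintegral_countable']
  have h2 : ∀ f : X →₀ ℕ, (μ a.2.1).toMeasure {f} = μ a.2.1 f := fun f =>
    PMF.toMeasure_apply_singleton _ _ (measurableSet_singleton f)
  simp_rw [h2]
  unfold gen
  rw [ENNReal.ofReal_tsum_of_nonneg (fun f => mul_nonneg ENNReal.toReal_nonneg (mon_nonneg hv f))
    (gen_summable μ hv a.2.1)]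
  refine tsum_congr fun f => ?_
  rw [ENNReal.ofReal_mul ENNReal.toReal_nonneg, ENNReal.ofReal_toReal (PMF.apply_ne_top _ f)]
  ring

/-- The individuals of a population, as coordinates in generation `N`. -/
def indiv (N : ℕ) (z : X →₀ ℕ) : Finset (ℕ × X × ℕ) :=
  (z.support.sigma fun y => Finset.range (z y)).map
    ⟨fun p => (N, p.1, p.2), by
      rintro ⟨y, i⟩ ⟨y', i'⟩ h
      simp only [Prod.mk.injEq, true_and] at h
      obtain ⟨rfl, rfl⟩ := h
      rfl⟩

omit [Countable X] in
theorem prod_indiv {M : Type} [CommMonoid M] (N : ℕ) (z : X →₀ ℕ) (g : ℕ × X × ℕ → M) :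
    ∏ a ∈ indiv N z, g a = z.prod fun y k => ∏ i ∈ Finset.range k, g (N, y, i) := by
  unfold indiv Finsupp.prod
  rw [Finset.prod_map, Finset.prod_sigma]
  rfl

theorem mon_step (v : X → ℝ) (N : ℕ) (z : X →₀ ℕ) (ω : Sample X) :
    mon v (z.sum fun y k => ∑ i ∈ Finset.range k, ω (N, y, i)) =
      ∏ a ∈ indiv N z, mon v (ω a) := by
  rw [prod_indiv]
  unfold Finsupp.sum Finsupp.prod
  rw [mon_sum]
  exact Finset.prod_congr rfl fun y _ => mon_sum _ _ _

/-- One step of the branching property. -/
theorem one_step (μ : X → PMF (X →₀ ℕ)) (x : X) {v : X → ℝ} (hv : Box v) (N : ℕ)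
    (Ψ : Sample X → ℝ≥0∞) (hΨ : Measurable[past X N] Ψ) :
    ∫⁻ ω, Ψ ω * ENNReal.ofReal (mon v (pop x ω (N + 1))) ∂(law μ) =
      ∫⁻ ω, Ψ ω * ENNReal.ofReal (mon (gen μ v) (pop x ω N)) ∂(law μ) := by
  classical
  have hpop := pop_meas' x N
  have hΨ' : Measurable Ψ := hΨ.mono (past_le N) le_rfl
  have split : ∀ F : Sample X → ℝ≥0∞, Measurable F →
      ∫⁻ ω, Ψ ω * F ω ∂(law μ) =
      ∑' z : X →₀ ℕ, ∫⁻ ω, (Ψ ω * if pop x ω N = z then 1 else 0) * F ω ∂(law μ) := by
    intro F hF
    rw [← lintegral_tsum]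
    · refine lintegral_congr fun ω => ?_
      rw [tsum_eq_single (pop x ω N)]
      · simp
      · intro z hz
        simp [Ne.symm hz]
    · intro z
      have : Measurable fun ω : Sample X => if pop x ω N = z then (1 : ℝ≥0∞) else 0 :=
        Measurable.ite (hpop (measurableSet_singleton z)) measurable_const measurable_const
      exact ((hΨ'.mul this).mul hF).aemeasurable
  have hF1 : Measurable fun ω : Sample X => ENNReal.ofReal (mon v (pop x ω (N + 1))) :=
    (measurable_of_countable fun f : X →₀ ℕ => ENNReal.ofReal (mon v f)).comp (pop_meas' x (N + 1))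
  have hF2 : Measurable fun ω : Sample X => ENNReal.ofReal (mon (gen μ v) (pop x ω N)) :=
    (measurable_of_countable fun f : X →₀ ℕ => ENNReal.ofReal (mon (gen μ v) f)).comp hpop
  rw [split _ hF1, split _ hF2]
  refine tsum_congr fun z => ?_
  -- replace the population by `z`
  have e1 : ∀ ω : Sample X, (Ψ ω * if pop x ω N = z then 1 else 0) *
      ENNReal.ofReal (mon v (pop x ω (N + 1))) =
      (Ψ ω * if pop x ω N = z then 1 else 0) *
        ∏ a ∈ indiv N z, ENNReal.ofReal (mon v (ω a)) := by
    intro ω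
    by_cases h : pop x ω N = z
    · rw [← ENNReal.ofReal_prod_of_nonneg fun a _ => mon_nonneg hv _, ← mon_step, pop, h]
    · simp [h]
  have e2 : ∀ ω : Sample X, (Ψ ω * if pop x ω N = z then 1 else 0) *
      ENNReal.ofReal (mon (gen μ v) (pop x ω N)) =
      (Ψ ω * if pop x ω N = z then 1 else 0) * ENNReal.ofReal (mon (gen μ v) z) := by
    intro ω
    by_cases h : pop x ω N = z
    · rw [h]
    · simp [h]
  simp_rw [e1, e2]
  have m1 : Measurable[past X N] fun ω : Sample X => Ψ ω * if pop x ω N = z then 1 else 0 := by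
    refine Measurable.mul hΨ ?_
    exact Measurable.ite ((pop_meas x N) (measurableSet_singleton z)) measurable_const
      measurable_const
  have m2 : Measurable[present X N] fun ω : Sample X =>
      ∏ a ∈ indiv N z, ENNReal.ofReal (mon v (ω a)) := by
    refine Finset.measurable_fun_prod _ fun a ha => ?_
    have ha' : a.1 = N := by
      unfold indiv at ha
      simp only [Finset.mem_map] at ha
      obtain ⟨p, _, rfl⟩ := ha
      rfl
    exact (measurable_of_countable fun f : X →₀ ℕ => ENNReal.ofReal (mon v f)).comp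
      (coord_meas_present ha')
  rw [lintegral_mul_eq_lintegral_mul_lintegral_of_independent_measurableSpace (past_le N)
    (present_le N) (indep_past_present μ N) m1 m2]
  rw [lintegral_mul_const _ (m1.mono (past_le N) le_rfl)]
  congr 1
  have hind : iIndepFun (fun (a : ℕ × X × ℕ) (ω : Sample X) => ENNReal.ofReal (mon v (ω a)))
      (law μ) :=
    (coord_indep μ).comp (fun _ f => ENNReal.ofReal (mon v f)) fun _ => measurable_of_countable _
  rw [lintegral_prod_eq_prod_lintegral_of_indepFun _ _ hind fun a =>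
    (measurable_of_countable fun f : X →₀ ℕ => ENNReal.ofReal (mon v f)).comp
      (measurable_pi_apply a)]
  simp_rw [lint_coord μ hv]
  rw [prod_indiv]
  unfold mon Finsupp.prod
  rw [ENNReal.ofReal_prod_of_nonneg fun y _ => pow_nonneg (((gen_good μ).box v hv) y).1 _]
  refine Finset.prod_congr rfl fun y _ => ?_
  dsimp only
  rw [Finset.prod_const, Finset.card_range, ENNReal.ofReal_pow (((gen_good μ).box v hv) y).1]

/-- Several steps of the branching property. -/
theorem steps (μ : X → PMF (X →₀ ℕ)) (x : X) (N j : ℕ) {v : X → ℝ} (hv : Box v)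
    (Ψ : Sample X → ℝ≥0∞) (hΨ : Measurable[past X N] Ψ) :
    ∫⁻ ω, Ψ ω * ENNReal.ofReal (mon v (pop x ω (N + j))) ∂(law μ) =
      ∫⁻ ω, Ψ ω * ENNReal.ofReal (mon ((gen μ)^[j] v) (pop x ω N)) ∂(law μ) := by
  induction j generalizing v with
  | zero => rfl
  | succ j ih =>
    rw [← add_assoc, one_step μ x hv (N + j) Ψ (hΨ.mono (past_mono (Nat.le_add_right N j)) le_rfl),
      ih ((gen_good μ).box v hv), Function.iterate_succ_apply]

end

end Pool.Agent.H632R3.Branch
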