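import Mathlib

open Finset

set_option linter.unusedSectionVars false

namespace Pool.Agent.H632R3.ConvexLSE

/-- Discrete convexity of a sequence on `0, ..., n-1`. -/
def DC (n : ℕ) (θ : ℕ → ℝ) : Prop := ∀ i, i + 2 < n → 2 * θ (i + 1) ≤ θ i + θ (i + 2)

/-- Least squares projection. -/
structure Proj (n : ℕ) (y T : ℕ → ℝ) : Prop where
  dc : DC n T
  opt : ∀ θ, DC n θ → ∑ i ∈ range n, (y i - T i) ^ 2 ≤ ∑ i ∈ range n, (y i - θ i) ^ 2

theorem Proj.dir {n : ℕ} {y T : ℕ → ℝ} (h : Proj n y T) (v : ℕ → ℝ) {δ : ℝ} (hδ : 0 < δ)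
    (hv : DC n fun i => T i + δ * v i) : ∑ i ∈ range n, (y i - T i) * v i ≤ 0 := by
  have key : ∀ t : ℝ, 0 < t → t ≤ δ →
      ∑ i ∈ range n, (y i - T i) * v i ≤ t / 2 * ∑ i ∈ range n, v i ^ 2 := by
    intro t ht htδ
    have h1 : DC n fun i => T i + t * v i := by
      intro i hi
      have h2 := hv i hi
      have h3 := h.dc i hi
      simp only at h2 ⊢
      have h4 : 0 ≤ (t / δ) * (T i + δ * v i + (T (i + 2) + δ * v (i + 2)) -
          2 * (T (i + 1) + δ * v (i + 1))) :=
        mul_nonneg (div_pos ht hδ).le (by linarith)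
      have h5 : 0 ≤ (1 - t / δ) * (T i + T (i + 2) - 2 * T (i + 1)) := by
        refine mul_nonneg ?_ (by linarith)
        rw [sub_nonneg, div_le_one hδ]; exact htδ
      have h6 : (t / δ) * (T i + δ * v i + (T (i + 2) + δ * v (i + 2)) -
          2 * (T (i + 1) + δ * v (i + 1))) + (1 - t / δ) * (T i + T (i + 2) - 2 * T (i + 1)) =
          T i + t * v i + (T (i + 2) + t * v (i + 2)) - 2 * (T (i + 1) + t * v (i + 1)) := by
        field_simp
        ring
      linarith
    have h2 := h.opt _ h1
    have h3 : ∑ i ∈ range n, (y i - (T i + t * v i)) ^ 2 =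
        ∑ i ∈ range n, (y i - T i) ^ 2 - 2 * t * ∑ i ∈ range n, (y i - T i) * v i +
          t ^ 2 * ∑ i ∈ range n, v i ^ 2 := by
      rw [Finset.mul_sum, Finset.mul_sum, ← Finset.sum_sub_distrib, ← Finset.sum_add_distrib]
      exact Finset.sum_congr rfl fun i _ => by ring
    rw [h3] at h2
    have h4 : 0 ≤ t * (t / 2 * ∑ i ∈ range n, v i ^ 2 - ∑ i ∈ range n, (y i - T i) * v i) := by
      nlinarith
    have h5 := nonneg_of_mul_nonneg_right h4 ht
    linarith
  by_contra hcon
  push Not at hcon
  set A := ∑ i ∈ range n, (y i - T i) * v i with hA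
  set B := ∑ i ∈ range n, v i ^ 2 with hB
  have hB0 : 0 ≤ B := Finset.sum_nonneg fun i _ => sq_nonneg _
  have h1 : 0 < min δ (A / (B + 1)) := lt_min hδ (by positivity)
  have h2 := key _ h1 (min_le_left _ _)
  have h3 : min δ (A / (B + 1)) / 2 * B ≤ A / (B + 1) / 2 * B := by
    refine mul_le_mul_of_nonneg_right ?_ hB0
    linarith [min_le_right δ (A / (B + 1))]
  have h4 : A / (B + 1) / 2 * B < A := by
    rw [div_div, div_mul_eq_mul_div, div_lt_iff₀ (by positivity)]
    nlinarith
  linarith

/-- The value at the left end is at least the first observation. -/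
theorem Proj.left {n : ℕ} {y T : ℕ → ℝ} (h : Proj n y T) (hn : 0 < n) : y 0 ≤ T 0 := by
  have h1 := h.dir (fun i => if i = 0 then 1 else 0) one_pos (by
    intro i hi
    have h3 := h.dc i hi
    simp only [Nat.succ_ne_zero, if_false, one_mul, add_zero]
    split_ifs <;> linarith)
  rw [Finset.sum_eq_single 0] at h1
  · simp at h1; exact h1
  · intro i _ hi; simp [hi]
  · intro h0; simp at h0; omega

/-- The weights. -/
noncomputable def w (m i : ℕ) : ℝ := (2 * m + 1) / 3 - i

theorem sum_range_id' (m : ℕ) : ∑ i ∈ range (m + 1), (i : ℝ) = m * (m + 1) / 2 := by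
  induction m with
  | zero => simp
  | succ m ih => rw [Finset.sum_range_succ, ih]; push_cast; ring

theorem sum_range_sq' (m : ℕ) :
    ∑ i ∈ range (m + 1), (i : ℝ) ^ 2 = m * (m + 1) * (2 * m + 1) / 6 := by
  induction m with
  | zero => simp
  | succ m ih => rw [Finset.sum_range_succ, ih]; push_cast; ring

theorem sum_w (m : ℕ) : ∑ i ∈ range (m + 1), w m i = (m + 1) * (m + 2) / 6 := by
  unfold w
  rw [Finset.sum_sub_distrib, sum_range_id', Finset.sum_const, Finset.card_range, nsmul_eq_mul]
  push_cast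
  ring

theorem sum_w_mul (m : ℕ) : ∑ i ∈ range (m + 1), w m i * i = 0 := by
  unfold w
  have : ∀ i : ℕ, ((2 * (m : ℝ) + 1) / 3 - i) * i = (2 * m + 1) / 3 * i - (i : ℝ) ^ 2 := by
    intro i; ring
  simp_rw [this]
  rw [Finset.sum_sub_distrib, ← Finset.mul_sum, sum_range_id', sum_range_sq']
  ring

theorem sum_w_sq (m : ℕ) :
    ∑ i ∈ range (m + 1), w m i ^ 2 = (m + 1) * (m + 2) * (2 * m + 1) / 18 := by
  unfold w
  have : ∀ i : ℕ, ((2 * (m : ℝ) + 1) / 3 - i) ^ 2 =
      ((2 * m + 1) / 3) ^ 2 - 2 * ((2 * m + 1) / 3) * i + (i : ℝ) ^ 2 := by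
    intro i; ring
  simp_rw [this]
  rw [Finset.sum_add_distrib, Finset.sum_sub_distrib, ← Finset.mul_sum, sum_range_id',
    sum_range_sq', Finset.sum_const, Finset.card_range, nsmul_eq_mul]
  push_cast
  ring

/-- Chebyshev type inequality for a convex function against the weights. -/
theorem sum_w_convex {m : ℕ} (hm : 1 ≤ m) (F : ℕ → ℝ)
    (hF : ∀ i j, i ≤ j → j ≤ m → (F i - F 0) * j ≤ (F j - F 0) * i) :
    ∑ i ∈ range (m + 1), w m i * (F i - F 0) ≤ 0 := by
  set j0 := (2 * m + 1) / 3 with hj0
  have hj1 : 1 ≤ j0 := by omega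
  have hjm : j0 ≤ m := by omega
  have hjr : (0 : ℝ) < j0 := by exact_mod_cast hj1
  set s := (F j0 - F 0) / j0 with hs
  have hterm : ∀ i ∈ range (m + 1), w m i * (F i - F 0) ≤ w m i * (s * i) := by
    intro i hi
    have him : i ≤ m := by simpa [Nat.lt_succ_iff] using Finset.mem_range.mp hi
    by_cases h : i ≤ j0
    · refine mul_le_mul_of_nonneg_left ?_ ?_
      · have h1 := hF i j0 h hjm
        rw [hs, div_mul_eq_mul_div, le_div_iff₀ hjr]
        exact h1
      · unfold w
        have : 3 * i ≤ 2 * m + 1 := by omega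
        have h2 : 3 * (i : ℝ) ≤ 2 * m + 1 := by exact_mod_cast this
        linarith
    · push Not at h
      refine mul_le_mul_of_nonpos_left ?_ ?_
      · have h1 := hF j0 i h.le him
        rw [hs, div_mul_eq_mul_div, div_le_iff₀ hjr]
        exact h1
      · unfold w
        have : 2 * m + 1 ≤ 3 * i := by omega
        have h2 : 2 * (m : ℝ) + 1 ≤ 3 * i := by exact_mod_cast this
        linarith
  refine (Finset.sum_le_sum hterm).trans (le_of_eq ?_)
  have : ∀ i ∈ range (m + 1), w m i * (s * i) = s * (w m i * i) := fun i _ => by ring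
  rw [Finset.sum_congr rfl this, ← Finset.mul_sum, sum_w_mul, mul_zero]

theorem affine {T : ℕ → ℝ} {m : ℕ} (h : ∀ i, i + 2 ≤ m → T i + T (i + 2) = 2 * T (i + 1)) :
    ∀ i ≤ m, T i = T 0 + (T 1 - T 0) * i := by
  have key : ∀ i, i + 1 ≤ m → T i = T 0 + (T 1 - T 0) * i ∧
      T (i + 1) = T 0 + (T 1 - T 0) * (i + 1) := by
    intro i
    induction i with
    | zero => intro _; constructor <;> simp
    | succ i ih =>
      intro hi
      obtain ⟨h1, h2⟩ := ih (by omega)
      have h3 := h i (by omega)
      refine ⟨by push_cast; exact h2, ?_⟩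
      push_cast
      have h4 : T (i + 1 + 1) = 2 * T (i + 1) - T i := by linarith
      rw [h4, h1, h2]
      ring
  intro i hi
  rcases Nat.eq_zero_or_pos i with rfl | h0
  · simp
  · obtain ⟨j, rfl⟩ : ∃ j, i = j + 1 := ⟨i - 1, by omega⟩
    have := (key j hi).2
    push_cast
    exact this

/-- The main deterministic inequality: the excess of the fitted value at the left end is at most
the excess of the linear regression on an initial block. -/
theorem Proj.right {n : ℕ} (hn : 2 ≤ n) {T F e : ℕ → ℝ} (h : Proj n (fun i => F i + e i) T)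
    (hF : ∀ i j, i ≤ j → j < n → (F i - F 0) * j ≤ (F j - F 0) * i) :
    ∃ m, 1 ≤ m ∧ m < n ∧
      (T 0 - F 0) * ((m + 1) * (m + 2) / 6) ≤ ∑ i ∈ range (m + 1), w m i * e i := by
  -- the first kink
  obtain ⟨m, hm1, hmn, haff, hdir⟩ : ∃ m, 1 ≤ m ∧ m < n ∧
      (∀ i, i + 2 ≤ m → T i + T (i + 2) = 2 * T (i + 1)) ∧
      ∃ δ : ℝ, 0 < δ ∧ DC n fun i => T i + δ * (if i ≤ m then -w m i else 0) := by
    by_cases hk : ∃ i, i + 2 < n ∧ 2 * T (i + 1) < T i + T (i + 2)
    · classical
      set k := Nat.find hk with hkdef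
      obtain ⟨hk1, hk2⟩ := Nat.find_spec hk
      rw [← hkdef] at hk1 hk2
      have hmin : ∀ i < k, T i + T (i + 2) = 2 * T (i + 1) := by
        intro i hi
        have h1 := Nat.find_min hk hi
        push Not at h1
        have h2 := h1 (by omega)
        have h3 := h.dc i (by omega)
        linarith
      refine ⟨k + 1, by omega, by omega, fun i hi => hmin i (by omega), ?_⟩
      set κ := T k + T (k + 2) - 2 * T (k + 1) with hκ
      have hκ0 : 0 < κ := by linarith
      have hk3 : (0 : ℝ) < (k : ℝ) + 3 := by positivity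
      refine ⟨3 * κ / (k + 3), by positivity, ?_⟩
      intro i hi
      have h3 := h.dc i hi
      have hd : 0 < 3 * κ / ((k : ℝ) + 3) := by positivity
      simp only
      rcases lt_trichotomy (i + 1) (k + 1) with h4 | h4 | h4
      · rw [if_pos (by omega), if_pos (by omega), if_pos (by omega)]
        have : -w (k + 1) i + -w (k + 1) (i + 2) = 2 * -w (k + 1) (i + 1) := by
          unfold w; push_cast; ring
        have h5 := congrArg (fun z => 3 * κ / ((k : ℝ) + 3) * z) this
        linarith
      · have hik : i = k := by omega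
        subst hik
        rw [if_pos (by omega), if_pos (by omega), if_neg (by omega)]
        have h5 : 3 * κ / ((k : ℝ) + 3) * (-w (k + 1) k) -
            2 * (3 * κ / ((k : ℝ) + 3) * (-w (k + 1) (k + 1))) = -κ := by
          unfold w; push_cast; field_simp; ring
        linarith
      · rcases Nat.lt_or_ge (k + 2) (i + 1) with h6 | h6
        · rw [if_neg (by omega), if_neg (by omega), if_neg (by omega)]
          linarith
        · have hik : i = k + 1 := by omega
          subst hik
          rw [if_neg (by omega), if_pos (by omega), if_neg (by omega)]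
          have h7 : 0 ≤ 3 * κ / ((k : ℝ) + 3) * (-w (k + 1) (k + 1)) := by
            refine mul_nonneg hd.le ?_
            unfold w
            push_cast
            have : (0 : ℝ) ≤ k := Nat.cast_nonneg k
            linarith
          linarith
    · push Not at hk
      refine ⟨n - 1, by omega, by omega, ?_, 1, one_pos, ?_⟩
      · intro i hi
        have h1 := hk i (by omega)
        have h2 := h.dc i (by omega)
        linarith
      · intro i hi
        have h3 := h.dc i hi
        simp only
        rw [if_pos (by omega), if_pos (by omega), if_pos (by omega)]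
        have : -w (n - 1) i + -w (n - 1) (i + 2) = 2 * -w (n - 1) (i + 1) := by
          unfold w; push_cast; ring
        linarith
  obtain ⟨δ, hδ, hdc⟩ := hdir
  have h1 := h.dir _ hδ hdc
  have h2 : ∑ i ∈ range n, (F i + e i - T i) * (if i ≤ m then -w m i else 0) =
      -∑ i ∈ range (m + 1), w m i * (F i + e i - T i) := by
    rw [← Finset.sum_neg_distrib]
    have hsub : range (m + 1) ⊆ range n := Finset.range_subset_range.mpr (by omega)
    rw [← Finset.sum_subset hsub]
    · refine Finset.sum_congr rfl fun i hi => ?_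
      rw [if_pos (by simpa [Nat.lt_succ_iff] using Finset.mem_range.mp hi)]
      ring
    · intro i _ hi
      rw [if_neg (by simpa [Nat.lt_succ_iff] using hi), mul_zero]
  rw [h2] at h1
  refine ⟨m, hm1, hmn, ?_⟩
  have h3 := sum_w_convex hm1 F fun i j hij hj => hF i j hij (by omega)
  have haff' := affine haff
  have h4 : ∑ i ∈ range (m + 1), w m i * (F i + e i - T i) =
      ∑ i ∈ range (m + 1), w m i * (F i - F 0) + ∑ i ∈ range (m + 1), w m i * e i -
        (T 0 - F 0) * ∑ i ∈ range (m + 1), w m i -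
        (T 1 - T 0) * ∑ i ∈ range (m + 1), w m i * i := by
    rw [Finset.mul_sum, Finset.mul_sum, ← Finset.sum_add_distrib, ← Finset.sum_sub_distrib,
      ← Finset.sum_sub_distrib]
    refine Finset.sum_congr rfl fun i hi => ?_
    rw [haff' i (by simpa [Nat.lt_succ_iff] using Finset.mem_range.mp hi)]
    ring
  rw [h4, sum_w, sum_w_mul] at h1
  linarith

end Pool.Agent.H632R3.ConvexLSE
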