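import Mathlib
import Pool.Agent.H632R3.Frame

open Finset Filter Topology

set_option linter.unusedSectionVars false

namespace Pool.Agent.H632R3.Conv

noncomputable section

section

variable {m : ℕ} (p : Fin m → ℕ)

/-- The order of the cyclic group. -/
def NN : ℕ := ∏ i, p i

/-- The cofactors. -/
def qq (i : Fin m) : ℕ := ∏ j ∈ univ \ {i}, p j

theorem p_mul_qq (i : Fin m) : p i * qq p i = NN p := by
  unfold qq NN
  rw [← Finset.mul_prod_erase univ p (Finset.mem_univ i), Finset.sdiff_singleton_eq_erase]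

theorem coprime_qq (hp : Pairwise fun i j => Nat.Coprime (p i) (p j)) (i : Fin m) :
    Nat.Coprime (p i) (qq p i) := by
  unfold qq
  refine Nat.Coprime.prod_right fun j hj => hp ?_
  simp only [Finset.mem_sdiff, Finset.mem_singleton] at hj
  exact fun h => hj.2 h.symm

theorem dvd_qq_mul {i j : Fin m} (hij : i ≠ j) : NN p ∣ qq p i * qq p j := by
  rw [← p_mul_qq p j]
  refine Nat.mul_dvd_mul ?_ dvd_rfl
  unfold qq
  exact Finset.dvd_prod_of_mem p (by simp [hij.symm])

variable [NeZero (NN p)]

/-- The frame on the cyclic group of order `∏ p_i`. -/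
def cyc (hp : Pairwise fun i j => Nat.Coprime (p i) (p j)) (hp2 : ∀ i, 2 ≤ p i) (hm : 0 < m) :
    Frame (ZMod (NN p)) m where
  H := fun i => AddSubgroup.zmultiples ((qq p i : ℕ) : ZMod (NN p))
  χ := fun i => AddChar.mulShift (ZMod.stdAddChar (N := NN p)) ((qq p i : ℕ) : ZMod (NN p))
  nontriv := by
    intro i
    refine ⟨((qq p i : ℕ) : ZMod (NN p)), AddSubgroup.mem_zmultiples _, ?_⟩
    rw [AddChar.mulShift_apply]
    intro h
    rw [← AddChar.map_zero_eq_one (ZMod.stdAddChar (N := NN p))] at h
    have h1 := ZMod.injective_stdAddChar h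
    rw [← Nat.cast_mul, ZMod.natCast_eq_zero_iff] at h1
    have h2 : p i ∣ qq p i * qq p i := (Dvd.intro _ (p_mul_qq p i)).trans h1
    have h3 := coprime_qq p hp i
    have h4 : p i ∣ 1 := by
      have h5 := (Nat.Coprime.dvd_mul_left h3).mp h2
      have h6 := Nat.dvd_gcd (dvd_refl (p i)) h5
      rwa [h3] at h6
    have := hp2 i
    have := Nat.le_of_dvd one_pos h4
    omega
  triv := by
    intro i j hij h hh
    obtain ⟨z, rfl⟩ := AddSubgroup.mem_zmultiples_iff.mp hh
    rw [AddChar.mulShift_apply]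
    have h1 : ((qq p i : ℕ) : ZMod (NN p)) * (z • ((qq p j : ℕ) : ZMod (NN p))) = 0 := by
      rw [mul_smul_comm, ← Nat.cast_mul, (ZMod.natCast_eq_zero_iff _ _).mpr (dvd_qq_mul p hij),
        smul_zero]
    rw [h1, AddChar.map_zero_eq_one]
  gen := by
    intro ψ hψ
    by_contra hcon
    push Not at hcon
    apply hψ
    have hpair : Pairwise (Function.onFun IsCoprime
        (fun i : (univ : Finset (Fin m)) => ((p i : ℕ) : ℤ))) := by
      intro i j hij
      exact Nat.isCoprime_iff_coprime.mpr (hp fun h => hij (Subtype.ext h))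
    obtain ⟨μ, hμ⟩ := (exists_sum_eq_one_iff_pairwise_coprime
      (s := fun i : Fin m => ((p i : ℕ) : ℤ))
      (⟨⟨0, hm⟩, Finset.mem_univ _⟩ : (univ : Finset (Fin m)).Nonempty)).mpr hpair
    have h1 : (1 : ZMod (NN p)) = ∑ i, μ i • ((qq p i : ℕ) : ZMod (NN p)) := by
      have h2 := congrArg (fun z : ℤ => (z : ZMod (NN p))) hμ
      simp only [Int.cast_one] at h2
      rw [← h2]
      push_cast
      refine Finset.sum_congr rfl fun i _ => ?_
      rw [zsmul_eq_mul]
      unfold qq
      push_cast
      rfl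
    have h2 : ψ 1 = 1 := by
      have h3 : ∀ s : Finset (Fin m), ψ (∑ i ∈ s, μ i • ((qq p i : ℕ) : ZMod (NN p))) = 1 := by
        intro s
        induction s using Finset.induction_on with
        | empty => simp
        | insert a s ha ih =>
          rw [Finset.sum_insert ha, AddChar.map_add_eq_mul, ih, mul_one]
          exact hcon a _ (AddSubgroup.zsmul_mem_zmultiples _ _)
      rw [h1]
      exact h3 univ
    ext x
    have h3 : x = x.val • (1 : ZMod (NN p)) := by simp
    rw [h3, AddChar.map_nsmul_eq_pow, h2, one_pow]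
    rfl

end

end

end Pool.Agent.H632R3.Conv
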