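import Mathlib

open Filter Topology

namespace Pool.Agent.H632R3.Conv

section

variable {D : ℕ → ℕ → ℝ} (hanti : ∀ k, Antitone (D k)) {T : ℕ → ℝ} (hT : Tendsto T atTop atTop)
  (hprof : ∀ s : ℝ, 0 < s → Tendsto (fun k => D k ⌊s * T k⌋₊) atTop (𝓝 (Real.exp (-s))))

include hT hprof in
theorem tmix_le {ε s : ℝ} (hs : 0 < s) (h : Real.exp (-s) < ε) :
    ∀ᶠ k in atTop, ((sInf {t : ℕ | D k t ≤ ε} : ℕ) : ℝ) ≤ s * T k := by
  filter_upwards [(hprof s hs).eventually_lt_const h, hT.eventually_gt_atTop 0] with k hk hTk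
  have h1 : sInf {t : ℕ | D k t ≤ ε} ≤ ⌊s * T k⌋₊ := Nat.sInf_le hk.le
  have h2 : (⌊s * T k⌋₊ : ℝ) ≤ s * T k := Nat.floor_le (by positivity)
  exact le_trans (by exact_mod_cast h1) h2

include hanti hT hprof in
theorem le_tmix {ε s : ℝ} (hε : 0 < ε) (hs : 0 < s) (h : ε < Real.exp (-s)) :
    ∀ᶠ k in atTop, s * T k ≤ ((sInf {t : ℕ | D k t ≤ ε} : ℕ) : ℝ) := by
  obtain ⟨s', hs'0, hs'⟩ : ∃ s' : ℝ, 0 < s' ∧ Real.exp (-s') < ε := by
    have := (Real.tendsto_exp_neg_atTop_nhds_zero.eventually_lt_const hε).and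
      (eventually_gt_atTop (0 : ℝ))
    obtain ⟨s', h1, h2⟩ := this.exists
    exact ⟨s', h2, h1⟩
  filter_upwards [(hprof s hs).eventually_const_lt h, (hprof s' hs'0).eventually_lt_const hs',
    hT.eventually_gt_atTop 0] with k hk hk' hTk
  have hne : {t : ℕ | D k t ≤ ε}.Nonempty := ⟨_, hk'.le⟩
  have hmem := Nat.sInf_mem hne
  set t0 := sInf {t : ℕ | D k t ≤ ε} with ht0
  have hmem' : D k t0 ≤ ε := hmem
  have h1 : ⌊s * T k⌋₊ < t0 := by
    by_contra hcon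
    have := hanti k (not_lt.mp hcon)
    linarith
  exact (Nat.lt_of_floor_lt h1).le

include hanti hT hprof in
theorem no_cutoff :
    ¬ ∀ ε : ℝ, 0 < ε → ε < 1 / 2 →
      Tendsto (fun k => ((sInf {t : ℕ | D k t ≤ ε} : ℕ) : ℝ) /
        ((sInf {t : ℕ | D k t ≤ 1 - ε} : ℕ) : ℝ)) atTop (𝓝 1) := by
  intro hcut
  have h := hcut (1 / 3) (by norm_num) (by norm_num)
  have e1 : (1 / 3 : ℝ) < Real.exp (-1) := by
    rw [Real.exp_neg, lt_inv_comm₀ (by norm_num) (Real.exp_pos 1)]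
    have := Real.exp_one_lt_d9
    norm_num
    linarith
  have e2 : Real.exp (-(1 / 2)) < 1 - 1 / 3 := by
    have h2 : Real.exp (-(1 / 2)) ^ 2 = Real.exp (-1) := by
      rw [← Real.exp_nat_mul]; norm_num
    have h3 : Real.exp (-1) < (2 / 3) ^ 2 := by
      rw [Real.exp_neg, inv_lt_comm₀ (Real.exp_pos 1) (by norm_num)]
      have := Real.exp_one_gt_d9
      norm_num
      linarith
    rw [← h2] at h3
    have := lt_of_pow_lt_pow_left₀ 2 (by norm_num) h3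
    linarith
  have e3 : (1 : ℝ) - 1 / 3 < Real.exp (-(1 / 4)) := by
    have := Real.add_one_lt_exp (x := (-(1 / 4) : ℝ)) (by norm_num)
    linarith
  have h1 := le_tmix hanti hT hprof (by norm_num) one_pos e1
  have h2 := tmix_le hT hprof (by norm_num) e2
  have h3 := le_tmix hanti hT hprof (by norm_num) (by norm_num : (0 : ℝ) < 1 / 4) e3
  have h4 : ∀ᶠ k in atTop, (2 : ℝ) ≤ ((sInf {t : ℕ | D k t ≤ 1 / 3} : ℕ) : ℝ) /
      ((sInf {t : ℕ | D k t ≤ 1 - 1 / 3} : ℕ) : ℝ) := by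
    filter_upwards [h1, h2, h3, hT.eventually_gt_atTop 0] with k a b c hTk
    rw [le_div_iff₀ (by linarith)]
    linarith
  have h5 := ge_of_tendsto h h4
  norm_num at h5

end

end Pool.Agent.H632R3.Conv
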