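import Mathlib
import Pool.Agent.H632R3.Cyc
import Pool.Agent.H632R3.Profile

open Finset Filter Topology

set_option linter.unusedSectionVars false

namespace Pool.Agent.H632R3.Conv

noncomputable section

/-- The number of prime factors. -/
def mm (k : ℕ) : ℕ := 2 ^ ((k + 1) ^ 2)

/-- The time scale. -/
def TT (k : ℕ) : ℝ := ((k : ℝ) + 1) * mm k

/-- The primes. -/
def pr (k : ℕ) (i : Fin (mm k)) : ℕ := Nat.nth Nat.Prime i

theorem pr_prime (k : ℕ) (i : Fin (mm k)) : (pr k i).Prime := Nat.prime_nth_prime _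

theorem pr_coprime (k : ℕ) : Pairwise fun i j => Nat.Coprime (pr k i) (pr k j) := by
  intro i j hij
  rw [Nat.coprime_primes (pr_prime k i) (pr_prime k j)]
  intro h
  exact hij (Fin.ext (Nat.nth_injective Nat.infinite_setOfPred_prime h))

/-- The order of the cyclic group: the product of the first `mm k` primes. -/
def nn (k : ℕ) : ℕ := NN (pr k)

theorem nn_pos (k : ℕ) : 0 < nn k := by
  unfold nn NN
  exact Finset.prod_pos fun i _ => (pr_prime k i).pos

instance instNN (k : ℕ) : NeZero (NN (pr k)) := ⟨(nn_pos k).ne'⟩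

instance instnn (k : ℕ) : NeZero (nn k) := ⟨(nn_pos k).ne'⟩

theorem mm_ge (k : ℕ) : 2 ≤ mm k := by
  unfold mm
  calc 2 = 2 ^ 1 := rfl
    _ ≤ 2 ^ ((k + 1) ^ 2) := Nat.pow_le_pow_right (by norm_num) (Nat.one_le_pow _ _ (by omega))

theorem mm_pos (k : ℕ) : 0 < mm k := by have := mm_ge k; omega

theorem lt_mm (k : ℕ) : k < mm k := by
  unfold mm
  calc k < (k + 1) ^ 2 := by nlinarith
    _ < 2 ^ ((k + 1) ^ 2) := Nat.lt_two_pow_self

theorem mm_le_nn (k : ℕ) : mm k < nn k := by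
  calc mm k < 2 ^ mm k := Nat.lt_two_pow_self
    _ = ∏ _i : Fin (mm k), 2 := by simp
    _ ≤ nn k := by
      unfold nn NN
      exact Finset.prod_le_prod' fun i _ => (pr_prime k i).two_le

/-- The frame. -/
def fr (k : ℕ) : Frame (ZMod (nn k)) (mm k) :=
  cyc (pr k) (pr_coprime k) (fun i => (pr_prime k i).two_le) (mm_pos k)

theorem TT_ge (k : ℕ) : 2 ≤ TT k := by
  have h1 : (2 : ℝ) ≤ mm k := by exact_mod_cast mm_ge k
  have h2 : (0 : ℝ) ≤ k := Nat.cast_nonneg k
  unfold TT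
  nlinarith

theorem TT_lim : Tendsto TT atTop atTop := by
  refine tendsto_atTop_mono (fun n => ?_) tendsto_natCast_atTop_atTop
  have h1 : (2 : ℝ) ≤ mm n := by exact_mod_cast mm_ge n
  have h2 : (0 : ℝ) ≤ n := Nat.cast_nonneg n
  unfold TT
  nlinarith

/-- The measure. -/
def mu (k : ℕ) : ZMod (nn k) → ℝ := jump (fr k) (1 / TT k)

theorem th0 (k : ℕ) : 0 < 1 / TT k := by have := TT_ge k; positivity

theorem th1 (k : ℕ) : 1 / TT k ≤ 1 := by
  have := TT_ge k
  rw [div_le_one (by linarith)]; linarith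

theorem mu_pos (k : ℕ) (x : ZMod (nn k)) : 0 < mu k x := by
  have hN := cardpos (A := ZMod (nn k))
  have h1 : 0 ≤ (1 - 1 / TT k) * base (fr k) x :=
    mul_nonneg (sub_nonneg.mpr (th1 k)) (base_nonneg _ x)
  have h2 : 0 < 1 / TT k * (1 / (Fintype.card (ZMod (nn k)) : ℝ)) :=
    mul_pos (th0 k) (by positivity)
  unfold mu jump
  linarith

theorem mu_sum (k : ℕ) : ∑ x, mu k x = 1 := jump_sum _ (mm_pos k) _

theorem mu_neg (k : ℕ) (x : ZMod (nn k)) : mu k (-x) = mu k x := jump_neg _ _ x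

theorem log_mm (k : ℕ) : Real.log (mm k) = ((k : ℝ) + 1) ^ 2 * Real.log 2 := by
  unfold mm
  push_cast
  rw [Real.log_pow]
  push_cast
  ring

theorem mu_profile (s : ℝ) (hs : 0 ≤ s) :
    Tendsto (fun k => tv (cpow (mu k) ⌊s * TT k⌋₊)) atTop (𝓝 (Real.exp (-s))) := by
  have h1 := pow_floor_tendsto TT_lim hs
  have h2 : Tendsto (fun k => tv (cpow (base (fr k)) ⌊s * TT k⌋₊)) atTop (𝓝 1) := by
    refine base_unmixed fr mm_ge ?_
    have hl2 := Real.log_two_gt_d9
    have h3 : Tendsto (fun k : ℕ => ((k : ℝ) + 1) * (((k : ℝ) + 1) * Real.log 2 - 4 * s))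
        atTop atTop := by
      refine Tendsto.atTop_mul_atTop₀ ?_ ?_
      · exact tendsto_atTop_add_const_right _ 1 tendsto_natCast_atTop_atTop
      · refine tendsto_atTop_add_const_right _ (-(4 * s)) ?_
        exact (tendsto_atTop_add_const_right _ 1 tendsto_natCast_atTop_atTop).atTop_mul_const
          (by linarith)
    refine tendsto_atTop_mono (fun k => ?_) h3
    have hm : (0 : ℝ) < mm k := by exact_mod_cast mm_pos k
    have h4 : (⌊s * TT k⌋₊ : ℝ) ≤ s * TT k := Nat.floor_le (by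
      have := TT_ge k; positivity)
    have h5 : 4 * (⌊s * TT k⌋₊ : ℝ) / mm k ≤ 4 * s * ((k : ℝ) + 1) := by
      rw [div_le_iff₀ hm]
      unfold TT at h4
      unfold TT
      nlinarith
    rw [log_mm]
    nlinarith
  have h3 := h1.mul h2
  rw [mul_one] at h3
  refine h3.congr fun k => ?_
  exact (tv_jump (fr k) (mm_pos k) (th1 k) _).symm

theorem mu_hat (k : ℕ) {ψ : AddChar (ZMod (nn k)) ℂ} (hψ : ψ ≠ 0) :
    ‖hat (mu k) ψ‖ ≤ 1 - 1 / (mm k : ℝ) := by
  have hm : (0 : ℝ) < mm k := by exact_mod_cast mm_pos k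
  unfold mu
  rw [hat_jump _ (mm_pos k) _ hψ, Complex.norm_real]
  have h1 : (1 : ℝ) ≤ nt (fr k) ψ := by exact_mod_cast nt_pos (fr k) hψ
  have h2 : (nt (fr k) ψ : ℝ) ≤ mm k := by exact_mod_cast nt_le (fr k) ψ
  have h3 : 0 ≤ 1 - (nt (fr k) ψ : ℝ) / mm k := by
    rw [sub_nonneg, div_le_one hm]; exact h2
  have h4 : 0 ≤ 1 - 1 / TT k := sub_nonneg.mpr (th1 k)
  rw [Real.norm_of_nonneg (mul_nonneg h4 h3)]
  have h5 : 1 - (nt (fr k) ψ : ℝ) / mm k ≤ 1 - 1 / (mm k : ℝ) := by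
    have : 1 / (mm k : ℝ) ≤ (nt (fr k) ψ : ℝ) / mm k := div_le_div_of_nonneg_right h1 hm.le
    linarith
  have h6 : 1 - 1 / TT k ≤ 1 := by have := th0 k; linarith
  calc (1 - 1 / TT k) * (1 - (nt (fr k) ψ : ℝ) / mm k)
      ≤ 1 * (1 - (nt (fr k) ψ : ℝ) / mm k) := mul_le_mul_of_nonneg_right h6 h3
    _ ≤ _ := by rw [one_mul]; exact h5

/-- Fourier transform as a sum with exponentials. -/
theorem hat_shift_char {n : ℕ} [NeZero n] (f : ZMod n → ℝ) (j : ZMod n) :
    hat f (AddChar.mulShift (ZMod.stdAddChar (N := n)) j) =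
      ∑ x : ZMod n, (f x : ℂ) * Complex.exp (2 * Real.pi * Complex.I * j.val * x.val / n) := by
  unfold hat
  refine Finset.sum_congr rfl fun x _ => ?_
  congr 1
  rw [AddChar.mulShift_apply]
  have h1 : j * x = ((j.val * x.val : ℤ) : ZMod n) := by
    push_cast
    simp
  rw [h1, ZMod.stdAddChar_coe]
  congr 1
  push_cast
  ring

theorem hat_cos {n : ℕ} [NeZero n] (f : ZMod n → ℝ) (j : ZMod n) :
    ∑ x : ZMod n, f x * Real.cos (2 * Real.pi * j.val * x.val / n) =
      (hat f (AddChar.mulShift (ZMod.stdAddChar (N := n)) j)).re := by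
  rw [hat_shift_char, Complex.re_sum]
  refine Finset.sum_congr rfl fun x _ => ?_
  have h1 : (2 * Real.pi * Complex.I * j.val * x.val / n : ℂ) =
      ((2 * Real.pi * j.val * x.val / n : ℝ) : ℂ) * Complex.I := by
    push_cast; ring
  rw [h1, Complex.exp_mul_I, Complex.re_ofReal_mul]
  congr 1
  rw [Complex.add_re, Complex.cos_ofReal_re, Complex.mul_I_re, Complex.sin_ofReal_im]
  ring

theorem mulShift_ne_zero {n : ℕ} [NeZero n] {j : ZMod n} (hj : j ≠ 0) :
    AddChar.mulShift (ZMod.stdAddChar (N := n)) j ≠ 0 := by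
  intro h
  apply hj
  have h1 := DFunLike.congr_fun h 1
  rw [AddChar.mulShift_apply, mul_one, AddChar.zero_apply,
    ← AddChar.map_zero_eq_one (ZMod.stdAddChar (N := n))] at h1
  exact ZMod.injective_stdAddChar h1

end

end Pool.Agent.H632R3.Conv
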