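import Mathlib

open Finset Filter Topology

set_option linter.unusedSectionVars false

/-!
Random walk on random Cayley graphs: definitions.
-/

namespace Pool.Agent.H632R3.RCG

noncomputable section

section Defs

variable {G : Type} [Group G] [Fintype G] {k : ℕ}

open Classical in
/-- The law after exactly `T` steps of the discrete-time walk started at the identity: the
proportion of words `(i_1, …, i_T)` in `{1,…,k}` with `Z_{i_1} ⋯ Z_{i_T} = g`. -/
def stepLaw (Z : Fin k → G) (T : ℕ) (g : G) : ℝ :=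
  ((univ.filter fun w : Fin T → Fin k => (List.ofFn fun j => Z (w j)).prod = g).card : ℝ) /
    (k : ℝ) ^ T

/-- The law at time `t` of the rate-1 continuous-time walk started at the identity: the number of
steps is Poisson with mean `t`. -/
def law (Z : Fin k → G) (t : ℝ) (g : G) : ℝ :=
  ∑' T : ℕ, Real.exp (-t) * t ^ T / (T.factorial : ℝ) * stepLaw Z T g

/-- The total variation distance `d_Z(t)` to the uniform distribution. -/
def tvDist (Z : Fin k → G) (t : ℝ) : ℝ :=
  (1 / 2) * ∑ g : G, |law Z t g - 1 / (Fintype.card G : ℝ)|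

/-- Probability of a property of `Z_1, …, Z_k` i.i.d. uniform in `G`. -/
def prob (G : Type) [Fintype G] (k : ℕ) (p : (Fin k → G) → Prop) : ℝ :=
  (Nat.card {Z : Fin k → G // p Z} : ℝ) / (Nat.card (Fin k → G) : ℝ)

end Defs

/-- Shannon entropy (natural logarithm) of the Poisson distribution with mean `s`. -/
def poissonEntropy (s : ℝ) : ℝ :=
  ∑' j : ℕ, Real.negMulLog (Real.exp (-s) * s ^ j / (j.factorial : ℝ))

/-- The entropic time `t_0(k,N)`: the time at which `k H(t/k)` reaches `log N`. -/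
def t0 (k N : ℕ) : ℝ := sInf {t : ℝ | 0 ≤ t ∧ Real.log N ≤ k * poissonEntropy (t / k)}

/-- `t_* = max {t_0(k,|A|), log_k |G|}` with `A` the Abelianisation of `G`. -/
def tStar (G : Type) [Group G] (k : ℕ) : ℝ :=
  max (t0 k (Nat.card (Abelianization G))) (Real.logb k (Nat.card G))

/-- The walk on the random Cayley graphs exhibits cutoff whp at the times `t j`. -/
def CutoffWhpAt (G : ℕ → Type) [∀ j, Group (G j)] [∀ j, Fintype (G j)] (k : ℕ → ℕ)
    (t : ℕ → ℝ) : Prop :=
  ∀ ε : ℝ, 0 < ε → ε < 1 → ∀ δ : ℝ, 0 < δ →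
    Tendsto (fun j => prob (G j) (k j) fun Z => tvDist Z ((1 + ε) * t j) ≤ δ) atTop (𝓝 1) ∧
    Tendsto (fun j => prob (G j) (k j) fun Z => 1 - δ ≤ tvDist Z ((1 - ε) * t j)) atTop (𝓝 1)

section Entropy

/-- `s ^ j / j! ≤ e ^ (s-1)` for `j ≥ 1`, `s ≥ 0`. -/
theorem pow_div_le {s : ℝ} (hs : 0 ≤ s) (j : ℕ) (hj : 1 ≤ j) :
    s ^ j / (j.factorial : ℝ) ≤ Real.exp (s - 1) := by
  have h1 : ∀ j : ℕ, 1 ≤ j → (j : ℝ) ^ j / (j.factorial : ℝ) ≤ Real.exp ((j : ℝ) - 1) := by
    intro j hj
    induction j, hj using Nat.le_induction with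
    | base => simp
    | succ j hj ih =>
      have hjr : (0 : ℝ) < j := by exact_mod_cast hj
      have hf : (0 : ℝ) < (j.factorial : ℝ) := by exact_mod_cast j.factorial_pos
      have h2 : (((j + 1 : ℕ) : ℝ)) ^ (j + 1) / ((j + 1).factorial : ℝ) =
          (j : ℝ) ^ j / (j.factorial : ℝ) * (1 + 1 / (j : ℝ)) ^ j := by
        rw [Nat.factorial_succ]
        push_cast
        have : (1 + 1 / (j : ℝ)) = ((j : ℝ) + 1) / j := by field_simp
        rw [this, div_pow, pow_succ]
        field_simp
      rw [h2]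
      have h3 : (1 + 1 / (j : ℝ)) ^ j ≤ Real.exp 1 := by
        calc (1 + 1 / (j : ℝ)) ^ j ≤ Real.exp (1 / (j : ℝ)) ^ j := by
              refine pow_le_pow_left₀ (by positivity) ?_ j
              have := Real.add_one_le_exp (1 / (j : ℝ)); linarith
          _ = Real.exp 1 := by rw [← Real.exp_nat_mul]; congr 1; field_simp
      calc (j : ℝ) ^ j / (j.factorial : ℝ) * (1 + 1 / (j : ℝ)) ^ j
          ≤ Real.exp ((j : ℝ) - 1) * Real.exp 1 :=
            mul_le_mul ih h3 (by positivity) (Real.exp_pos _).le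
        _ = Real.exp (((j + 1 : ℕ) : ℝ) - 1) := by rw [← Real.exp_add]; congr 1; push_cast; ring
  have hjr : (0 : ℝ) < j := by exact_mod_cast hj
  have hf : (0 : ℝ) < (j.factorial : ℝ) := by exact_mod_cast j.factorial_pos
  have h2 : (s / j) ^ j ≤ Real.exp (s - j) := by
    calc (s / j) ^ j ≤ Real.exp (s / j - 1) ^ j := by
          refine pow_le_pow_left₀ (by positivity) ?_ j
          have := Real.add_one_le_exp (s / j - 1); linarith
      _ = Real.exp (s - j) := by
        rw [← Real.exp_nat_mul]; congr 1; field_simp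
  calc s ^ j / (j.factorial : ℝ) = (s / j) ^ j * ((j : ℝ) ^ j / (j.factorial : ℝ)) := by
        rw [div_pow]; field_simp
    _ ≤ Real.exp (s - j) * Real.exp ((j : ℝ) - 1) :=
        mul_le_mul h2 (h1 j hj) (by positivity) (Real.exp_pos _).le
    _ = Real.exp (s - 1) := by rw [← Real.exp_add]; congr 1; ring

theorem poisson_hasSum (s : ℝ) :
    HasSum (fun j : ℕ => Real.exp (-s) * s ^ j / (j.factorial : ℝ)) 1 := by
  have h1 : HasSum (fun j : ℕ => s ^ j / (j.factorial : ℝ)) (Real.exp s) := by
    have := NormedSpace.expSeries_div_hasSum_exp (𝔸 := ℝ) s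
    rwa [← Real.exp_eq_exp_ℝ] at this
  have h2 := h1.mul_left (Real.exp (-s))
  rw [← Real.exp_add, neg_add_cancel, Real.exp_zero] at h2
  simpa [mul_div_assoc] using h2

theorem prob_le {s : ℝ} (hs : 0 ≤ s) (j : ℕ) :
    Real.exp (-s) * s ^ j / (j.factorial : ℝ) ≤ Real.exp (-min s 1) := by
  rcases Nat.eq_zero_or_pos j with rfl | hj
  · simp only [pow_zero, mul_one, Nat.factorial_zero, Nat.cast_one, div_one]
    exact Real.exp_le_exp.mpr (neg_le_neg (min_le_left _ _))
  · have h1 := pow_div_le hs j hj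
    calc Real.exp (-s) * s ^ j / (j.factorial : ℝ)
        = Real.exp (-s) * (s ^ j / (j.factorial : ℝ)) := by ring
      _ ≤ Real.exp (-s) * Real.exp (s - 1) := mul_le_mul_of_nonneg_left h1 (Real.exp_pos _).le
      _ = Real.exp (-1) := by rw [← Real.exp_add]; congr 1; ring
      _ ≤ _ := Real.exp_le_exp.mpr (neg_le_neg (min_le_right _ _))

theorem entropy_summable {s : ℝ} (hs : 0 ≤ s) :
    Summable fun j : ℕ => Real.negMulLog (Real.exp (-s) * s ^ j / (j.factorial : ℝ)) := by
  rcases hs.eq_or_lt with rfl | hs0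
  · refine summable_of_ne_finset_zero (s := {0}) fun j hj => ?_
    have : j ≠ 0 := by simpa using hj
    simp [this]
  · -- bound by `p_j (s + j |log s| + j²)`
    have hsum : Summable fun j : ℕ => s ^ j / (j.factorial : ℝ) := Real.summable_pow_div_factorial s
    have hsum1 : Summable fun j : ℕ => ((j : ℝ) ^ 2) * (s ^ j / (j.factorial : ℝ)) := by
      have h4 : Summable fun j : ℕ => (4 * s) ^ j / (j.factorial : ℝ) :=
        Real.summable_pow_div_factorial (4 * s)
      refine Summable.of_nonneg_of_le (fun j => by positivity) (fun j => ?_) h4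
      have h5 : ((j : ℝ) ^ 2) ≤ 4 ^ j := by
        have h6 : j ≤ 2 ^ j := Nat.lt_two_pow_self.le
        have h7 : (j : ℝ) ≤ 2 ^ j := by exact_mod_cast h6
        calc (j : ℝ) ^ 2 ≤ (2 ^ j) ^ 2 := pow_le_pow_left₀ (Nat.cast_nonneg j) h7 2
          _ = 4 ^ j := by rw [← pow_mul, mul_comm, pow_mul]; norm_num
      rw [mul_pow, mul_div_assoc]
      exact mul_le_mul_of_nonneg_right h5 (by positivity)
    have hbound : Summable fun j : ℕ =>
        s * (s ^ j / (j.factorial : ℝ)) + (|Real.log s| + 1) *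
          (((j : ℝ) ^ 2) * (s ^ j / (j.factorial : ℝ))) :=
      (hsum.mul_left s).add (hsum1.mul_left _)
    refine Summable.of_norm_bounded hbound fun j => ?_
    have hf : (0 : ℝ) < (j.factorial : ℝ) := by exact_mod_cast j.factorial_pos
    have hp : 0 < Real.exp (-s) * s ^ j / (j.factorial : ℝ) := by positivity
    have hle : Real.exp (-s) * s ^ j / (j.factorial : ℝ) ≤ s ^ j / (j.factorial : ℝ) := by
      refine div_le_div_of_nonneg_right ?_ hf.le
      have : Real.exp (-s) ≤ 1 := Real.exp_le_one_iff.mpr (by linarith)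
      calc Real.exp (-s) * s ^ j ≤ 1 * s ^ j := mul_le_mul_of_nonneg_right this (by positivity)
        _ = s ^ j := one_mul _
    have hlog : |Real.log (Real.exp (-s) * s ^ j / (j.factorial : ℝ))| ≤
        s + (|Real.log s| + 1) * (j : ℝ) ^ 2 := by
      rw [Real.log_div (by positivity) hf.ne', Real.log_mul (Real.exp_pos _).ne' (by positivity),
        Real.log_exp, Real.log_pow]
      have h1 : Real.log (j.factorial : ℝ) ≤ (j : ℝ) ^ 2 := by
        have h2 : (j.factorial : ℝ) ≤ (j : ℝ) ^ j := by exact_mod_cast Nat.factorial_le_pow j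
        rcases Nat.eq_zero_or_pos j with rfl | hj
        · simp
        · have hjr : (0 : ℝ) < j := by exact_mod_cast hj
          calc Real.log (j.factorial : ℝ) ≤ Real.log ((j : ℝ) ^ j) := Real.log_le_log hf h2
            _ = j * Real.log j := Real.log_pow _ _
            _ ≤ j * j := mul_le_mul_of_nonneg_left
                ((Real.log_le_sub_one_of_pos hjr).trans (by linarith)) hjr.le
            _ = (j : ℝ) ^ 2 := by ring
      have h0 : 0 ≤ Real.log (j.factorial : ℝ) :=
        Real.log_nonneg (by exact_mod_cast j.factorial_pos)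
      have hj2 : (j : ℝ) ≤ (j : ℝ) ^ 2 := by
        have : j ≤ j ^ 2 := Nat.le_self_pow two_ne_zero j
        exact_mod_cast this
      have h3 : |(j : ℝ) * Real.log s| ≤ (j : ℝ) ^ 2 * |Real.log s| := by
        rw [abs_mul, Nat.abs_cast]
        exact mul_le_mul_of_nonneg_right hj2 (abs_nonneg _)
      have h4 := abs_le.mp h3
      rw [abs_le]
      constructor <;> nlinarith [h4.1, h4.2]
    rw [Real.negMulLog, Real.norm_eq_abs, abs_mul, abs_neg, abs_of_pos hp]
    calc Real.exp (-s) * s ^ j / (j.factorial : ℝ) *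
          |Real.log (Real.exp (-s) * s ^ j / (j.factorial : ℝ))|
        ≤ (s ^ j / (j.factorial : ℝ)) * (s + (|Real.log s| + 1) * (j : ℝ) ^ 2) :=
          mul_le_mul hle hlog (abs_nonneg _) (by positivity)
      _ = _ := by ring

/-- The Poisson entropy is at least `min s 1`. -/
theorem min_le_entropy {s : ℝ} (hs : 0 ≤ s) : min s 1 ≤ poissonEntropy s := by
  have h1 : HasSum (fun j : ℕ => Real.exp (-s) * s ^ j / (j.factorial : ℝ) * min s 1)
      (1 * min s 1) := (poisson_hasSum s).mul_right _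
  rw [one_mul] at h1
  unfold poissonEntropy
  rw [← h1.tsum_eq]
  refine h1.summable.tsum_le_tsum (fun j => ?_) (entropy_summable hs)
  have hp : 0 ≤ Real.exp (-s) * s ^ j / (j.factorial : ℝ) := by positivity
  rcases hp.eq_or_lt with h2 | h2
  · rw [← h2]; simp
  · have h3 := prob_le hs j
    have h4 := Real.log_le_log h2 h3
    rw [Real.log_exp] at h4
    rw [Real.negMulLog, neg_mul, ← mul_neg]
    exact mul_le_mul_of_nonneg_left (by linarith) hp

theorem t0_le {k N : ℕ} (hN : 1 ≤ N) (hk : Real.log N ≤ k) : t0 k N ≤ Real.log N := by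
  have h0 : 0 ≤ Real.log N := Real.log_nonneg (by exact_mod_cast hN)
  refine csInf_le ⟨0, fun t ht => ht.1⟩ ⟨h0, ?_⟩
  rcases Nat.eq_zero_or_pos k with rfl | hk0
  · simp at hk
    simp [le_antisymm hk h0]
  · have hkr : (0 : ℝ) < k := by exact_mod_cast hk0
    have h1 := min_le_entropy (s := Real.log N / k) (by positivity)
    have h2 : Real.log N / k ≤ 1 := by rw [div_le_one hkr]; exact hk
    rw [min_eq_left h2] at h1
    calc Real.log N = k * (Real.log N / k) := by field_simp
      _ ≤ _ := mul_le_mul_of_nonneg_left h1 hkr.le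

theorem t0_nonneg (k N : ℕ) : 0 ≤ t0 k N := Real.sInf_nonneg fun _ h => h.1

end Entropy

end

end Pool.Agent.H632R3.RCG
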