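import Mathlib
import Pool.Agent.H632R3.RCG

open Finset Filter Topology

set_option linter.unusedSectionVars false

namespace Pool.Agent.H632R3.RCG

noncomputable section

/-- Poisson probabilities. -/
def pois (t : ℝ) (j : ℕ) : ℝ := Real.exp (-t) * t ^ j / (j.factorial : ℝ)

theorem pois_nonneg {t : ℝ} (ht : 0 ≤ t) (j : ℕ) : 0 ≤ pois t j := by unfold pois; positivity

theorem pois_tail {t lam : ℝ} (ht : 0 ≤ t) (hl : 0 ≤ lam) (T : ℕ) :
    1 - Real.exp (-(lam * (T + 1)) + t * (Real.exp lam - 1)) ≤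
      ∑ j ∈ range (T + 1), pois t j := by
  have h1 : HasSum (pois t) 1 := poisson_hasSum t
  have h2 : HasSum (fun j : ℕ => (t * Real.exp lam) ^ j / (j.factorial : ℝ))
      (Real.exp (t * Real.exp lam)) := by
    have := NormedSpace.expSeries_div_hasSum_exp (𝔸 := ℝ) (t * Real.exp lam)
    rwa [← Real.exp_eq_exp_ℝ] at this
  have h3 := h2.mul_left (Real.exp (-(lam * (T + 1))) * Real.exp (-t))
  have h4 := h1.summable.sum_add_tsum_nat_add (T + 1)
  have h5 := h3.summable.sum_add_tsum_nat_add (T + 1)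
  rw [h1.tsum_eq] at h4
  rw [h3.tsum_eq] at h5
  have h6 : ∑' j, pois t (j + (T + 1)) ≤ ∑' j : ℕ, Real.exp (-(lam * (T + 1))) * Real.exp (-t) *
      ((t * Real.exp lam) ^ (j + (T + 1)) / (((j + (T + 1)).factorial : ℕ) : ℝ)) := by
    refine Summable.tsum_le_tsum (fun j => ?_) ((summable_nat_add_iff (T + 1)).mpr h1.summable)
      ((summable_nat_add_iff (T + 1)).mpr h3.summable)
    unfold pois
    have hf : (0 : ℝ) < (((j + (T + 1)).factorial : ℕ) : ℝ) := by
      exact_mod_cast Nat.factorial_pos _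
    rw [mul_pow, ← Real.exp_nat_mul, mul_div_assoc (Real.exp (-t))]
    have h7 : Real.exp (-(lam * (T + 1))) * Real.exp (-t) *
        (t ^ (j + (T + 1)) * Real.exp (((j + (T + 1) : ℕ) : ℝ) * lam) /
          (((j + (T + 1)).factorial : ℕ) : ℝ)) =
        Real.exp (j * lam) * (Real.exp (-t) * (t ^ (j + (T + 1)) /
          (((j + (T + 1)).factorial : ℕ) : ℝ))) := by
      have h8 : Real.exp (-(lam * (T + 1))) * Real.exp (((j + (T + 1) : ℕ) : ℝ) * lam) =
          Real.exp (j * lam) := by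
        rw [← Real.exp_add]; congr 1; push_cast; ring
      rw [← h8]; ring
    rw [h7]
    have h9 : 1 ≤ Real.exp (j * lam) := Real.one_le_exp (by positivity)
    exact le_mul_of_one_le_left (by positivity) h9
  have h7 : 0 ≤ ∑ i ∈ range (T + 1), Real.exp (-(lam * (T + 1))) * Real.exp (-t) *
      ((t * Real.exp lam) ^ i / ((i.factorial : ℕ) : ℝ)) :=
    Finset.sum_nonneg fun i _ => by positivity
  have h8 : Real.exp (-(lam * (T + 1))) * Real.exp (-t) * Real.exp (t * Real.exp lam) =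
      Real.exp (-(lam * (T + 1)) + t * (Real.exp lam - 1)) := by
    rw [← Real.exp_add, ← Real.exp_add]; congr 1; ring
  rw [h8] at h5
  linarith

section

variable {G : Type} [Group G] [Fintype G] {k : ℕ}

theorem stepLaw_nonneg (Z : Fin k → G) (T : ℕ) (g : G) : 0 ≤ stepLaw Z T g := by
  unfold stepLaw; positivity

theorem stepLaw_sum (hk : 0 < k) (Z : Fin k → G) (T : ℕ) (B : Finset G)
    (hB : ∀ w : Fin T → Fin k, (List.ofFn fun j => Z (w j)).prod ∈ B) :
    ∑ g ∈ B, stepLaw Z T g = 1 := by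
  classical
  have hk' : (0 : ℝ) < k := by exact_mod_cast hk
  unfold stepLaw
  rw [← Finset.sum_div, div_eq_one_iff_eq (by positivity)]
  have h1 : (univ : Finset (Fin T → Fin k)).card = ∑ g ∈ B,
      (univ.filter fun w : Fin T → Fin k => (List.ofFn fun j => Z (w j)).prod = g).card :=
    Finset.card_eq_sum_card_fiberwise fun w _ => hB w
  rw [Finset.card_univ, Fintype.card_fun, Fintype.card_fin, Fintype.card_fin] at h1
  have h2 := congrArg (fun n : ℕ => (n : ℝ)) h1
  push_cast at h2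
  rw [h2]

theorem stepLaw_le_one (hk : 0 < k) (Z : Fin k → G) (T : ℕ) (g : G) : stepLaw Z T g ≤ 1 := by
  rw [← stepLaw_sum hk Z T univ fun _ => Finset.mem_univ _]
  exact Finset.single_le_sum (f := fun g => stepLaw Z T g) (fun g _ => stepLaw_nonneg Z T g)
    (Finset.mem_univ g)

theorem law_hasSum (hk : 0 < k) (Z : Fin k → G) {t : ℝ} (ht : 0 ≤ t) (g : G) :
    HasSum (fun T => pois t T * stepLaw Z T g) (law Z t g) := by
  have h1 : Summable (pois t) := (poisson_hasSum t).summable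
  have h2 : Summable fun T => pois t T * stepLaw Z T g := by
    refine Summable.of_nonneg_of_le
      (fun T => mul_nonneg (pois_nonneg ht T) (stepLaw_nonneg Z T g)) (fun T => ?_) h1
    exact mul_le_of_le_one_right (pois_nonneg ht T) (stepLaw_le_one hk Z T g)
  exact h2.hasSum

theorem law_sum (hk : 0 < k) (Z : Fin k → G) {t : ℝ} (ht : 0 ≤ t) : ∑ g, law Z t g = 1 := by
  have h1 := hasSum_sum (s := (univ : Finset G)) fun g _ => law_hasSum hk Z ht g
  have h2 : HasSum (fun T => ∑ g : G, pois t T * stepLaw Z T g) 1 := by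
    have := poisson_hasSum t
    refine this.congr_fun fun T => ?_
    rw [← Finset.mul_sum, stepLaw_sum hk Z T univ fun _ => Finset.mem_univ _, mul_one]
    rfl
  exact h1.unique h2

theorem dist_lower (hk : 0 < k) (Z : Fin k → G) {t : ℝ} (ht : 0 ≤ t) (T : ℕ) (B : Finset G)
    (hB : ∀ T' ≤ T, ∀ w : Fin T' → Fin k, (List.ofFn fun j => Z (w j)).prod ∈ B) :
    ∑ j ∈ range (T + 1), pois t j - (B.card : ℝ) / (Fintype.card G : ℝ) ≤ tvDist Z t := by
  classical
  have hN : (0 : ℝ) < Fintype.card G := by exact_mod_cast Fintype.card_pos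
  have h0 : ∑ g : G, (law Z t g - 1 / (Fintype.card G : ℝ)) = 0 := by
    rw [Finset.sum_sub_distrib, law_sum hk Z ht, Finset.sum_const, Finset.card_univ, nsmul_eq_mul]
    field_simp
    ring
  have h1 : ∑ x ∈ B, (law Z t x - 1 / (Fintype.card G : ℝ)) +
      ∑ x ∈ Bᶜ, (law Z t x - 1 / (Fintype.card G : ℝ)) = 0 := by
    rw [Finset.sum_add_sum_compl, h0]
  have h2 : ∑ x ∈ B, (law Z t x - 1 / (Fintype.card G : ℝ)) ≤
      ∑ x ∈ B, |law Z t x - 1 / (Fintype.card G : ℝ)| :=
    Finset.sum_le_sum fun x _ => le_abs_self _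
  have h3 : -∑ x ∈ Bᶜ, (law Z t x - 1 / (Fintype.card G : ℝ)) ≤
      ∑ x ∈ Bᶜ, |law Z t x - 1 / (Fintype.card G : ℝ)| := by
    rw [← Finset.sum_neg_distrib]
    exact Finset.sum_le_sum fun x _ => neg_le_abs _
  have h4 : ∑ x, |law Z t x - 1 / (Fintype.card G : ℝ)| =
      ∑ x ∈ B, |law Z t x - 1 / (Fintype.card G : ℝ)| +
        ∑ x ∈ Bᶜ, |law Z t x - 1 / (Fintype.card G : ℝ)| :=
    (Finset.sum_add_sum_compl _ _).symm
  have h5 : ∑ j ∈ range (T + 1), pois t j ≤ ∑ g ∈ B, law Z t g := by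
    have h6 : ∀ g, ∑ j ∈ range (T + 1), pois t j * stepLaw Z j g ≤ law Z t g := fun g =>
      sum_le_hasSum (range (T + 1))
        (fun j _ => mul_nonneg (pois_nonneg ht j) (stepLaw_nonneg Z j g)) (law_hasSum hk Z ht g)
    refine le_trans (le_of_eq ?_) (Finset.sum_le_sum fun g _ => h6 g)
    rw [Finset.sum_comm]
    refine Finset.sum_congr rfl fun j hj => ?_
    rw [← Finset.mul_sum, stepLaw_sum hk Z j B (hB j (by
      simpa [Nat.lt_succ_iff] using Finset.mem_range.mp hj)), mul_one]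
  have h6 : ∑ x ∈ B, (law Z t x - 1 / (Fintype.card G : ℝ)) =
      ∑ x ∈ B, law Z t x - (B.card : ℝ) / (Fintype.card G : ℝ) := by
    rw [Finset.sum_sub_distrib, Finset.sum_const, nsmul_eq_mul, mul_one_div]
  unfold tvDist
  rw [h4]
  linarith

end

end

end Pool.Agent.H632R3.RCG
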