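import Mathlib
import Pool.Agent.H632R3.RCGLower

open Finset Filter Topology

set_option linter.unusedSectionVars false

namespace Pool.Agent.H632R3.Dih

noncomputable section

variable {N : ℕ}

/-- Signed rotation coordinate. -/
def phi : DihedralGroup N → ZMod N
  | .r i => i
  | .sr i => -i

/-- Reflection parity. -/
def rf : DihedralGroup N → ZMod 2
  | .r _ => 0
  | .sr _ => 1

/-- Reconstruction of the element. -/
def mk (x : ZMod N) (b : ZMod 2) : DihedralGroup N := if b = 0 then .r x else .sr (-x)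

theorem mk_eq (g : DihedralGroup N) : mk (phi g) (rf g) = g := by
  cases g <;> simp [mk, phi, rf]

theorem phi_mul (g h : DihedralGroup N) :
    phi (g * h) = phi g + (if rf g = 0 then phi h else -phi h) := by
  cases g <;> cases h <;> simp [phi, rf, DihedralGroup.r_mul_r, DihedralGroup.r_mul_sr,
    DihedralGroup.sr_mul_r, DihedralGroup.sr_mul_sr] <;> ring

theorem rf_mul (g h : DihedralGroup N) : rf (g * h) = rf g + rf h := by
  cases g <;> cases h <;> simp [rf, DihedralGroup.r_mul_r, DihedralGroup.r_mul_sr,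
    DihedralGroup.sr_mul_r, DihedralGroup.sr_mul_sr]
  rfl

variable {k : ℕ} (Z : Fin k → DihedralGroup N)

/-- The multiset of signed letters of a word. -/
def enc : ZMod 2 → List (Fin k) → Multiset (Fin k × ZMod 2)
  | _, [] => 0
  | s, i :: l => (i, s) ::ₘ enc (s + rf (Z i)) l

theorem enc_card (s : ZMod 2) (l : List (Fin k)) : (enc Z s l).card = l.length := by
  induction l generalizing s with
  | nil => simp [enc]
  | cons i l ih => simp [enc, ih]

/-- Contribution of a letter to the rotation coordinate. -/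
def fl (p : Fin k × ZMod 2) : ZMod N := if p.2 = 0 then phi (Z p.1) else -phi (Z p.1)

/-- Contribution of a letter to the parity. -/
def hl (p : Fin k × ZMod 2) : ZMod 2 := rf (Z p.1)

theorem prod_phi (l : List (Fin k)) (g : DihedralGroup N) :
    phi (g * (l.map Z).prod) = phi g + ((enc Z (rf g) l).map (fl Z)).sum ∧
    rf (g * (l.map Z).prod) = rf g + ((enc Z (rf g) l).map (hl Z)).sum := by
  induction l generalizing g with
  | nil => simp [enc]
  | cons i l ih =>
    obtain ⟨h1, h2⟩ := ih (g * Z i)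
    simp only [List.map_cons, List.prod_cons, enc, Multiset.map_cons, Multiset.sum_cons]
    rw [← mul_assoc, h1, h2, phi_mul, rf_mul]
    constructor
    · rw [add_assoc]; rfl
    · rw [add_assoc]; rfl

theorem prod_eq (l : List (Fin k)) :
    (l.map Z).prod = mk ((enc Z 0 l).map (fl Z)).sum ((enc Z 0 l).map (hl Z)).sum := by
  obtain ⟨h1, h2⟩ := prod_phi Z l 1
  have e1 : phi (1 : DihedralGroup N) = 0 := rfl
  have e2 : rf (1 : DihedralGroup N) = 0 := rfl
  rw [one_mul, e1, e2, zero_add] at h1
  rw [one_mul, e2, zero_add] at h2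
  rw [← h1, ← h2, mk_eq]

/-- Padded letters. -/
def fo : Option (Fin k × ZMod 2) → ZMod N
  | none => 0
  | some p => fl Z p

/-- Padded letters, parity. -/
def ho : Option (Fin k × ZMod 2) → ZMod 2
  | none => 0
  | some p => hl Z p

/-- The element described by a padded multiset of letters. -/
def dec (T : ℕ) (M : Sym (Option (Fin k × ZMod 2)) T) : DihedralGroup N :=
  mk (M.1.map (fo Z)).sum (M.1.map (ho Z)).sum

variable [NeZero N]

/-- The elements reachable in at most `T` steps. -/
def reach (T : ℕ) : Finset (DihedralGroup N) := univ.image (dec Z T)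

theorem mem_reach (T T' : ℕ) (h : T' ≤ T) (w : Fin T' → Fin k) :
    (List.ofFn fun j => Z (w j)).prod ∈ reach Z T := by
  have h1 : (List.ofFn fun j => Z (w j)) = (List.ofFn w).map Z := by
    rw [List.map_ofFn]; rfl
  rw [h1, prod_eq]
  set M := enc Z 0 (List.ofFn w) with hM
  have hc : M.card = T' := by rw [hM, enc_card, List.length_ofFn]
  refine Finset.mem_image.mpr ⟨⟨M.map some + Multiset.replicate (T - T') none, ?_⟩,
    Finset.mem_univ _, ?_⟩
  · rw [Multiset.card_add, Multiset.card_map, Multiset.card_replicate, hc]; omega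
  · unfold dec
    simp only [Multiset.map_add, Multiset.sum_add, Multiset.map_map, Multiset.map_replicate,
      Multiset.sum_replicate]
    have e1 : (fo Z ∘ some) = fl Z := rfl
    have e2 : (ho Z ∘ some) = hl Z := rfl
    rw [e1, e2]
    simp [fo, ho]

theorem reach_card (T : ℕ) : (reach Z T).card ≤ (2 * k + T).choose T := by
  refine Finset.card_image_le.trans ?_
  rw [Finset.card_univ, Sym.card_sym_eq_choose]
  simp only [Fintype.card_option, Fintype.card_prod, Fintype.card_fin, ZMod.card]
  refine le_of_eq ?_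
  congr 1
  omega

theorem choose_le {K T : ℕ} (hT : 0 < T) :
    (((K + T).choose T : ℕ) : ℝ) ≤ (Real.exp 1 * (K / T + 1)) ^ T := by
  have hTr : (0 : ℝ) < T := by exact_mod_cast hT
  have hf : (0 : ℝ) < (T.factorial : ℝ) := by exact_mod_cast T.factorial_pos
  have h1 : (((K + T).choose T : ℕ) : ℝ) ≤ (((K + T : ℕ) : ℝ)) ^ T / (T.factorial : ℝ) :=
    Nat.choose_le_pow_div T (K + T)
  have h2 := Real.pow_div_factorial_le_exp (x := (T : ℝ)) hTr.le T
  refine h1.trans ?_
  have h3 : (((K + T : ℕ) : ℝ)) ^ T / (T.factorial : ℝ) =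
      ((K : ℝ) / T + 1) ^ T * ((T : ℝ) ^ T / (T.factorial : ℝ)) := by
    have : ((K : ℝ) / T + 1) = (K + T) / T := by field_simp
    rw [this, div_pow]
    push_cast
    field_simp
  rw [h3, mul_pow, ← Real.exp_nat_mul, mul_one, mul_comm]
  exact mul_le_mul_of_nonneg_right h2 (by positivity)

open RCG in
theorem pointwise {c : ℝ} (hc0 : 0 < c) (hc1 : c ≤ 1) (hk2 : 2 ≤ k)
    (h1 : (k : ℝ) ^ c ≤ Real.logb k (2 * N)) (h2 : 1 ≤ c * Real.logb k (2 * N))
    (h3 : (1 + c) * (Real.log 3 + 1) + 1 ≤ c ^ 2 * Real.log k) :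
    1 - Real.exp (-(5 * c ^ 2 / 128 * Real.logb k (2 * N))) - Real.exp (-Real.logb k (2 * N)) ≤
      RCG.tvDist Z ((1 + c / 2) * Real.logb k (2 * N)) := by
  set τ := Real.logb k (2 * N) with hτ
  have hkr : (2 : ℝ) ≤ k := by exact_mod_cast hk2
  have hk0 : (0 : ℝ) < k := by linarith
  have hlk : 0 < Real.log k := Real.log_pos (by linarith)
  have hN0 : (0 : ℝ) < 2 * N := by
    have : 0 < N := Nat.pos_of_ne_zero (NeZero.ne N)
    positivity
  have hkc : 1 ≤ (k : ℝ) ^ c := Real.one_le_rpow (by linarith) hc0.le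
  have hτ1 : 1 ≤ τ := hkc.trans h1
  have hlogN : Real.log (2 * N) = τ * Real.log k := by
    rw [hτ, Real.logb, div_mul_cancel₀ _ hlk.ne']
  set T := ⌊(1 + c) * τ⌋₊ with hT
  have hT1 : (T : ℝ) ≤ (1 + c) * τ := Nat.floor_le (by positivity)
  have hT2 : (1 + c) * τ < T + 1 := Nat.lt_floor_add_one _
  have hT3 : τ ≤ T := by linarith
  have hTpos : 0 < T := by
    have : (0 : ℝ) < T := by linarith
    exact_mod_cast this
  have hTr : (0 : ℝ) < T := by exact_mod_cast hTpos
  have ht : 0 ≤ (1 + c / 2) * τ := by positivity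
  have hd := dist_lower (by omega : 0 < k) Z ht T (reach Z T) (mem_reach Z T)
  -- the tail
  have hlam : (0 : ℝ) ≤ c / 8 := by positivity
  have htail := pois_tail ht hlam T
  have hexp : Real.exp (c / 8) - 1 ≤ c / 8 + (c / 8) ^ 2 := by
    have := Real.abs_exp_sub_one_sub_id_le (x := c / 8) (by rw [abs_of_nonneg hlam]; linarith)
    have := (abs_le.mp this).2
    linarith
  have htail2 : -(c / 8 * ((T : ℝ) + 1)) + (1 + c / 2) * τ * (Real.exp (c / 8) - 1) ≤
      -(5 * c ^ 2 / 128 * τ) := by
    have e1 : (1 + c / 2) * τ * (Real.exp (c / 8) - 1) ≤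
        (1 + c / 2) * τ * (c / 8 + (c / 8) ^ 2) := mul_le_mul_of_nonneg_left hexp ht
    have e2 : c / 8 * ((1 + c) * τ) ≤ c / 8 * ((T : ℝ) + 1) :=
      mul_le_mul_of_nonneg_left hT2.le hlam
    have e3 : -(c / 8 * ((1 + c) * τ)) + (1 + c / 2) * τ * (c / 8 + (c / 8) ^ 2) =
        -(c ^ 2 / 8 * τ * (1 / 2 - (1 + c / 2) / 8)) := by ring
    have e4 : 5 * c ^ 2 / 128 * τ ≤ c ^ 2 / 8 * τ * (1 / 2 - (1 + c / 2) / 8) := by
      have e5 : (5 : ℝ) / 16 ≤ 1 / 2 - (1 + c / 2) / 8 := by linarith
      have e6 : 0 ≤ c ^ 2 / 8 * τ := by positivity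
      calc 5 * c ^ 2 / 128 * τ = c ^ 2 / 8 * τ * (5 / 16) := by ring
        _ ≤ _ := mul_le_mul_of_nonneg_left e5 e6
    linarith
  have htail3 := Real.exp_le_exp.mpr htail2
  -- the cardinality
  have hcard : ((reach Z T).card : ℝ) / (Fintype.card (DihedralGroup N) : ℝ) ≤
      Real.exp (-τ) := by
    have hcG : (Fintype.card (DihedralGroup N) : ℝ) = 2 * N := by
      rw [DihedralGroup.card]; push_cast; ring
    rw [hcG, div_le_iff₀ hN0]
    have e1 : ((reach Z T).card : ℝ) ≤ (((2 * k + T).choose T : ℕ) : ℝ) := by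
      exact_mod_cast reach_card Z T
    refine e1.trans ((choose_le (K := 2 * k) hTpos).trans ?_)
    have e2 : Real.exp 1 * (((2 * k : ℕ) : ℝ) / T + 1) ≤
        Real.exp (Real.log 3 + 1 + (1 - c) * Real.log k) := by
      have e3 : (k : ℝ) / T ≤ (k : ℝ) ^ (1 - c) := by
        rw [div_le_iff₀ hTr, Real.rpow_sub hk0, Real.rpow_one, div_mul_eq_mul_div,
          le_div_iff₀ (by positivity)]
        exact mul_le_mul_of_nonneg_left (h1.trans hT3) hk0.le
      have e4 : 1 ≤ (k : ℝ) ^ (1 - c) := Real.one_le_rpow (by linarith) (by linarith)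
      have e5 : Real.exp (Real.log 3 + 1 + (1 - c) * Real.log k) =
          Real.exp 1 * (3 * (k : ℝ) ^ (1 - c)) := by
        rw [Real.exp_add, Real.exp_add, Real.exp_log (by norm_num), Real.rpow_def_of_pos hk0,
          mul_comm (1 - c)]
        ring
      rw [e5]
      refine mul_le_mul_of_nonneg_left ?_ (Real.exp_pos 1).le
      push_cast
      have : 2 * (k : ℝ) / T = 2 * (k / T) := by ring
      rw [this]
      linarith
    have e6 : 0 ≤ Real.exp 1 * (((2 * k : ℕ) : ℝ) / T + 1) := by positivity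
    refine (pow_le_pow_left₀ e6 e2 T).trans ?_
    rw [← Real.exp_nat_mul, ← Real.exp_log hN0, hlogN, ← Real.exp_add]
    refine Real.exp_le_exp.mpr ?_
    have hl3 : 0 < Real.log 3 := Real.log_pos (by norm_num)
    have e7 : 0 ≤ Real.log 3 + 1 + (1 - c) * Real.log k := by
      have : 0 ≤ (1 - c) * Real.log k := mul_nonneg (by linarith) hlk.le
      linarith
    have e8 := mul_le_mul_of_nonneg_right hT1 e7
    have e9 : (1 + c) * τ * (Real.log 3 + 1 + (1 - c) * Real.log k) =
        τ * ((1 + c) * (Real.log 3 + 1) + (1 - c ^ 2) * Real.log k) := by ring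
    have e10 : τ * ((1 + c) * (Real.log 3 + 1) + (1 - c ^ 2) * Real.log k) ≤
        τ * (Real.log k - 1) := mul_le_mul_of_nonneg_left (by linarith) (by linarith)
    linarith
  linarith

open RCG in
/-- The walk on the dihedral groups is far from uniform at time `(1 + c/2) log_k |G|`, whatever the
generators. -/
theorem core {c : ℝ} (hc0 : 0 < c) (hc1 : c ≤ 1) (N k : ℕ → ℕ) [∀ j, NeZero (N j)]
    (hk : Tendsto k atTop atTop)
    (hkN : ∀ᶠ j in atTop, (k j : ℝ) ^ c * Real.log (k j) ≤ Real.log (2 * N j)) {δ : ℝ}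
    (hδ : 0 < δ) :
    ∀ᶠ j in atTop, ∀ Z : Fin (k j) → DihedralGroup (N j),
      1 - δ ≤ RCG.tvDist Z ((1 + c / 2) * Real.logb (k j) (2 * N j)) := by
  have hkr : Tendsto (fun j => (k j : ℝ)) atTop atTop := tendsto_natCast_atTop_atTop.comp hk
  have hkc : Tendsto (fun j => (k j : ℝ) ^ c) atTop atTop := (tendsto_rpow_atTop hc0).comp hkr
  have hτge : ∀ᶠ j in atTop, (k j : ℝ) ^ c ≤ Real.logb (k j) (2 * N j) := by
    filter_upwards [hkN, hkr.eventually_ge_atTop 2] with j h1 h2
    have hlk : 0 < Real.log (k j) := Real.log_pos (by linarith)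
    rw [Real.logb, le_div_iff₀ hlk]
    exact h1
  have hτ : Tendsto (fun j => Real.logb (k j) (2 * N j)) atTop atTop :=
    tendsto_atTop_mono' _ hτge hkc
  have he1 : Tendsto (fun j => Real.exp (-(5 * c ^ 2 / 128 * Real.logb (k j) (2 * N j)))) atTop
      (𝓝 0) :=
    Real.tendsto_exp_neg_atTop_nhds_zero.comp (hτ.const_mul_atTop (by positivity))
  have he2 : Tendsto (fun j => Real.exp (-Real.logb (k j) (2 * N j))) atTop (𝓝 0) :=
    Real.tendsto_exp_neg_atTop_nhds_zero.comp hτ
  have hlog : Tendsto (fun j => c ^ 2 * Real.log (k j)) atTop atTop :=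
    (Real.tendsto_log_atTop.comp hkr).const_mul_atTop (by positivity)
  filter_upwards [hτge, hkr.eventually_ge_atTop 2, he1.eventually_lt_const (half_pos hδ),
    he2.eventually_lt_const (half_pos hδ),
    (hτ.const_mul_atTop hc0).eventually_ge_atTop 1,
    hlog.eventually_ge_atTop ((1 + c) * (Real.log 3 + 1) + 1)] with j h1 h2 h3 h4 h5 h6 Z
  have hk2 : 2 ≤ k j := by exact_mod_cast h2
  have := pointwise Z hc0 hc1 hk2 h1 h5 h6
  linarith

/-- The Abelianisation of a dihedral group has at most four elements. -/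
theorem card_ab (N : ℕ) [NeZero N] : Nat.card (Abelianization (DihedralGroup N)) ≤ 4 := by
  have h1 : Function.Surjective (fun p : Fin 2 × Fin 2 =>
      (Abelianization.of (if p.1 = 0 then DihedralGroup.r ((p.2 : ℕ) : ZMod N)
        else DihedralGroup.sr ((p.2 : ℕ) : ZMod N)) : Abelianization (DihedralGroup N))) := by
    have hr2 : (Abelianization.of (DihedralGroup.r (2 : ZMod N)) :
        Abelianization (DihedralGroup N)) = 1 := by
      have e1 : (Abelianization.of (DihedralGroup.sr (1 : ZMod N)) :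
          Abelianization (DihedralGroup N)) = Abelianization.of (DihedralGroup.sr (-1)) := by
        have e2 : (DihedralGroup.sr (1 : ZMod N)) = DihedralGroup.sr 0 * DihedralGroup.r 1 := by
          rw [DihedralGroup.sr_mul_r, zero_add]
        have e3 : (DihedralGroup.sr (-1 : ZMod N)) = DihedralGroup.r 1 * DihedralGroup.sr 0 := by
          rw [DihedralGroup.r_mul_sr, zero_sub]
        rw [e2, e3, map_mul, map_mul, mul_comm]
      have e4 : (DihedralGroup.r (2 : ZMod N)) = DihedralGroup.sr (-1) * DihedralGroup.sr 1 := by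
        rw [DihedralGroup.sr_mul_sr]; congr 1; ring
      rw [e4, map_mul, ← e1, ← map_mul, DihedralGroup.sr_mul_sr, sub_self]
      exact map_one _
    have hpow : ∀ q : ℕ, (Abelianization.of (DihedralGroup.r ((2 * q : ℕ) : ZMod N)) :
        Abelianization (DihedralGroup N)) = 1 := by
      intro q
      induction q with
      | zero => simp
      | succ q ih =>
        have e1 : (DihedralGroup.r ((2 * (q + 1) : ℕ) : ZMod N)) =
            DihedralGroup.r ((2 * q : ℕ) : ZMod N) * DihedralGroup.r 2 := by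
          rw [DihedralGroup.r_mul_r]; congr 1; push_cast; ring
        rw [e1, map_mul, ih, hr2, one_mul]
    intro a
    obtain ⟨g, rfl⟩ := QuotientGroup.mk_surjective a
    cases g with
    | r i =>
      refine ⟨(0, ⟨i.val % 2, Nat.mod_lt _ two_pos⟩), ?_⟩
      simp only [if_true]
      have e1 : (DihedralGroup.r i) = DihedralGroup.r ((2 * (i.val / 2) : ℕ) : ZMod N) *
          DihedralGroup.r ((i.val % 2 : ℕ) : ZMod N) := by
        rw [DihedralGroup.r_mul_r, ← Nat.cast_add, Nat.div_add_mod, ZMod.natCast_zmod_val]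
      have e2 : (Abelianization.of (DihedralGroup.r i) : Abelianization (DihedralGroup N)) =
          Abelianization.of (DihedralGroup.r ((i.val % 2 : ℕ) : ZMod N)) := by
        rw [e1, map_mul, hpow, one_mul]
      exact e2.symm
    | sr i =>
      refine ⟨(1, ⟨i.val % 2, Nat.mod_lt _ two_pos⟩), ?_⟩
      simp only [one_ne_zero, if_false]
      have e1 : (DihedralGroup.sr i) = DihedralGroup.sr ((i.val % 2 : ℕ) : ZMod N) *
          DihedralGroup.r ((2 * (i.val / 2) : ℕ) : ZMod N) := by
        rw [DihedralGroup.sr_mul_r, ← Nat.cast_add, Nat.mod_add_div, ZMod.natCast_zmod_val]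
      have e2 : (Abelianization.of (DihedralGroup.sr i) : Abelianization (DihedralGroup N)) =
          Abelianization.of (DihedralGroup.sr ((i.val % 2 : ℕ) : ZMod N)) := by
        rw [e1, map_mul, hpow, mul_one]
      exact e2.symm
  have h2 := Nat.card_le_card_of_surjective _ h1
  simpa using h2

end

end Pool.Agent.H632R3.Dih
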