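import Mathlib
import Pool.Agent.H632R3.Dih

open Finset Filter Topology

set_option linter.unusedSectionVars false

namespace Pool.Agent.H632R3.Dih

open RCG

noncomputable section

theorem card_G (N : ℕ) [NeZero N] : Nat.card (DihedralGroup N) = 2 * N := by
  rw [Nat.card_eq_fintype_card, DihedralGroup.card]

theorem one_le_ab (N : ℕ) [NeZero N] : 1 ≤ Nat.card (Abelianization (DihedralGroup N)) := by
  have : Finite (Abelianization (DihedralGroup N)) :=
    Finite.of_surjective _ (QuotientGroup.mk_surjective)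
  exact Nat.card_pos

theorem log_ab (N : ℕ) [NeZero N] :
    0 ≤ Real.log (Nat.card (Abelianization (DihedralGroup N))) ∧
      Real.log (Nat.card (Abelianization (DihedralGroup N))) ≤ Real.log 4 := by
  have h1 : (1 : ℝ) ≤ (Nat.card (Abelianization (DihedralGroup N)) : ℝ) := by
    exact_mod_cast one_le_ab N
  have h4 : (Nat.card (Abelianization (DihedralGroup N)) : ℝ) ≤ 4 := by
    exact_mod_cast card_ab N
  exact ⟨Real.log_nonneg h1, Real.log_le_log (by linarith) h4⟩

section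

variable (N k : ℕ → ℕ) [∀ j, NeZero (N j)] (hk : Tendsto k atTop atTop) {C : ℝ} (hC : 0 < C)
  (hkN : ∀ᶠ j in atTop, (k j : ℝ) ≤ Real.log (2 * N j) ^ C)

include hk hC hkN in
theorem exists_c : ∃ c : ℝ, 0 < c ∧ c ≤ 1 ∧
    ∀ᶠ j in atTop, (k j : ℝ) ^ c * Real.log (k j) ≤ Real.log (2 * N j) := by
  have hkr : Tendsto (fun j => (k j : ℝ)) atTop atTop := tendsto_natCast_atTop_atTop.comp hk
  refine ⟨min 1 (1 / (2 * C)), lt_min one_pos (by positivity), min_le_left _ _, ?_⟩
  have h1 : ∀ᶠ x : ℝ in atTop, Real.log x ≤ x ^ (1 / (2 * C)) := by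
    have := isLittleO_log_rpow_atTop (r := 1 / (2 * C)) (by positivity)
    have h2 := this.bound (c := 1) one_pos
    filter_upwards [h2, eventually_ge_atTop 1] with x hx hx1
    rw [Real.norm_of_nonneg (Real.log_nonneg hx1), Real.norm_of_nonneg (by positivity),
      one_mul] at hx
    exact hx
  filter_upwards [hkr.eventually h1, hkN, hkr.eventually_ge_atTop 1] with j h2 h3 h4
  have h5 : (k j : ℝ) ^ (min 1 (1 / (2 * C))) ≤ (k j : ℝ) ^ (1 / (2 * C)) :=
    Real.rpow_le_rpow_of_exponent_le h4 (min_le_right _ _)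
  have hlogpos : 0 ≤ Real.log (2 * N j) := by
    have : 1 ≤ N j := Nat.pos_of_ne_zero (NeZero.ne _)
    have : (1 : ℝ) ≤ N j := by exact_mod_cast this
    exact Real.log_nonneg (by linarith)
  calc (k j : ℝ) ^ (min 1 (1 / (2 * C))) * Real.log (k j)
      ≤ (k j : ℝ) ^ (1 / (2 * C)) * (k j : ℝ) ^ (1 / (2 * C)) :=
        mul_le_mul h5 h2 (Real.log_nonneg h4) (by positivity)
    _ = (k j : ℝ) ^ (1 / C) := by
        rw [← Real.rpow_add (by linarith)]; congr 1; field_simp; norm_num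
    _ ≤ (Real.log (2 * N j) ^ C) ^ (1 / C) :=
        Real.rpow_le_rpow (by linarith) h3 (by positivity)
    _ = Real.log (2 * N j) := by
        rw [← Real.rpow_mul hlogpos, mul_one_div, div_self hC.ne', Real.rpow_one]

include hk hC hkN in
theorem logb_tendsto : Tendsto (fun j => Real.logb (k j) (2 * N j)) atTop atTop := by
  obtain ⟨c, hc0, _, hc⟩ := exists_c N k hk hC hkN
  have hkr : Tendsto (fun j => (k j : ℝ)) atTop atTop := tendsto_natCast_atTop_atTop.comp hk
  have hkc : Tendsto (fun j => (k j : ℝ) ^ c) atTop atTop := (tendsto_rpow_atTop hc0).comp hkr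
  refine tendsto_atTop_mono' _ ?_ hkc
  filter_upwards [hc, hkr.eventually_ge_atTop 2] with j h1 h2
  have hlk : 0 < Real.log (k j) := Real.log_pos (by linarith)
  rw [Real.logb, le_div_iff₀ hlk]
  exact h1

include hk hC hkN in
theorem tStar_eq : ∀ᶠ j in atTop,
    tStar (DihedralGroup (N j)) (k j) = Real.logb (k j) (2 * N j) := by
  have hkr : Tendsto (fun j => (k j : ℝ)) atTop atTop := tendsto_natCast_atTop_atTop.comp hk
  filter_upwards [(logb_tendsto N k hk hC hkN).eventually_ge_atTop (Real.log 4),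
    hkr.eventually_ge_atTop (Real.log 4)] with j h1 h2
  have h3 := log_ab (N j)
  have h4 := t0_le (k := k j) (one_le_ab (N j)) (h3.2.trans h2)
  unfold tStar
  rw [card_G]
  push_cast
  exact max_eq_right ((h4.trans h3.2).trans h1)

include hk hC hkN in
/-- No cutoff at `t_*`, quantitatively and for all generators. -/
theorem family : ∃ ε : ℝ, 0 < ε ∧ ε < 1 ∧ ∀ δ : ℝ, 0 < δ → ∀ᶠ j in atTop,
    ∀ Z : Fin (k j) → DihedralGroup (N j),
      1 - δ ≤ RCG.tvDist Z ((1 + ε) * tStar (DihedralGroup (N j)) (k j)) := by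
  obtain ⟨c, hc0, hc1, hc⟩ := exists_c N k hk hC hkN
  refine ⟨c / 2, by positivity, by linarith, fun δ hδ => ?_⟩
  filter_upwards [core hc0 hc1 N k hk hc hδ, tStar_eq N k hk hC hkN] with j h1 h2 Z
  rw [h2]
  exact h1 Z

include hk hC hkN in
theorem noCutoff : ¬ CutoffWhpAt (fun j => DihedralGroup (N j)) k
    (fun j => tStar (DihedralGroup (N j)) (k j)) := by
  intro h
  obtain ⟨ε, h0, h1, h2⟩ := family N k hk hC hkN
  have h3 := (h ε h0 h1 (1 / 2) (by norm_num)).1
  have h4 : ∀ᶠ j in atTop, prob (DihedralGroup (N j)) (k j)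
      (fun Z => RCG.tvDist Z ((1 + ε) * tStar (DihedralGroup (N j)) (k j)) ≤ 1 / 2) = 0 := by
    filter_upwards [h2 (1 / 4) (by norm_num)] with j h5
    have : IsEmpty {Z : Fin (k j) → DihedralGroup (N j) //
        RCG.tvDist Z ((1 + ε) * tStar (DihedralGroup (N j)) (k j)) ≤ 1 / 2} := by
      refine ⟨fun Z => ?_⟩
      have h6 := h5 Z.1
      have h7 := Z.2
      linarith
    unfold prob
    rw [Nat.card_of_isEmpty]
    simp
  have h5 := h3.congr' h4
  have h6 := tendsto_nhds_unique h5 tendsto_const_nhds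
  norm_num at h6

end

/-- The concrete parameters. -/
def kk (j : ℕ) : ℕ := (j + 1) ^ 2

theorem kk_tendsto : Tendsto kk atTop atTop := by
  refine tendsto_atTop_mono (fun j => ?_) tendsto_id
  unfold kk
  simp only [id]
  nlinarith

theorem log_two_pow (j : ℕ) :
    Real.log (2 * ((2 ^ j : ℕ) : ℝ)) = ((j : ℝ) + 1) * Real.log 2 := by
  have : (2 * ((2 ^ j : ℕ) : ℝ)) = 2 ^ (j + 1) := by push_cast; ring
  rw [this, Real.log_pow]
  push_cast
  ring

theorem kk_le : ∀ᶠ j : ℕ in atTop,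
    (kk j : ℝ) ≤ Real.log (2 * ((2 ^ j : ℕ) : ℝ)) ^ (3 : ℝ) := by
  filter_upwards [eventually_ge_atTop 7] with j hj
  rw [log_two_pow]
  have h1 : (8 : ℝ) ≤ (j : ℝ) + 1 := by
    have : (7 : ℝ) ≤ j := by exact_mod_cast hj
    linarith
  have h2 := Real.log_two_gt_d9
  have h3 : (1 / 2 : ℝ) ≤ Real.log 2 := by linarith
  have h4 : (Real.log 2) ^ 3 ≥ (1 / 2) ^ 3 := pow_le_pow_left₀ (by norm_num) h3 3
  have e1 : ((((j : ℝ) + 1) * Real.log 2) ^ (3 : ℝ)) = ((j : ℝ) + 1) ^ 3 * (Real.log 2) ^ 3 := by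
    rw [← mul_pow]
    exact_mod_cast Real.rpow_natCast _ 3
  rw [e1]
  unfold kk
  push_cast
  have h5 : ((j : ℝ) + 1) ^ 3 * (1 / 2) ^ 3 ≤ ((j : ℝ) + 1) ^ 3 * (Real.log 2) ^ 3 :=
    mul_le_mul_of_nonneg_left h4 (by positivity)
  nlinarith [sq_nonneg ((j : ℝ) + 1)]

theorem kk_log : Tendsto (fun j : ℕ => Real.log (kk j)) atTop atTop :=
  Real.tendsto_log_atTop.comp (tendsto_natCast_atTop_atTop.comp kk_tendsto)

theorem kk_log_div : Tendsto (fun j : ℕ => Real.log (kk j) /
    Real.log (Nat.card (DihedralGroup (2 ^ j)))) atTop (𝓝 0) := by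
  have h1 : Tendsto (fun j : ℕ => (2 / Real.log 2) * (Real.log ((j : ℝ) + 1) / ((j : ℝ) + 1)))
      atTop (𝓝 0) := by
    have h2 : Tendsto (fun x : ℝ => Real.log x / x) atTop (𝓝 0) := by
      have := Real.isLittleO_log_id_atTop.tendsto_div_nhds_zero
      simpa using this
    have h3 : Tendsto (fun j : ℕ => (j : ℝ) + 1) atTop atTop :=
      tendsto_atTop_add_const_right _ 1 tendsto_natCast_atTop_atTop
    have := (h2.comp h3).const_mul (2 / Real.log 2)
    simpa using this
  refine h1.congr fun j => ?_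
  have e1 : ((Nat.card (DihedralGroup (2 ^ j)) : ℕ) : ℝ) = 2 * ((2 ^ j : ℕ) : ℝ) := by
    rw [card_G]; push_cast; ring
  rw [e1, log_two_pow]
  unfold kk
  push_cast
  rw [Real.log_pow]
  have : (0 : ℝ) < (j : ℝ) + 1 := by positivity
  have := Real.log_pos (by norm_num : (1 : ℝ) < 2)
  push_cast
  field_simp

theorem kk_div : Tendsto (fun j : ℕ => (kk j : ℝ) /
    Real.log (Nat.card (DihedralGroup (2 ^ j)))) atTop atTop := by
  have h1 : Tendsto (fun j : ℕ => ((j : ℝ) + 1) * (1 / Real.log 2)) atTop atTop :=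
    (tendsto_atTop_add_const_right _ 1 tendsto_natCast_atTop_atTop).atTop_mul_const (by
      have := Real.log_pos (by norm_num : (1 : ℝ) < 2)
      positivity)
  refine h1.congr fun j => ?_
  have e1 : ((Nat.card (DihedralGroup (2 ^ j)) : ℕ) : ℝ) = 2 * ((2 ^ j : ℕ) : ℝ) := by
    rw [card_G]; push_cast; ring
  rw [e1, log_two_pow]
  unfold kk
  push_cast
  have : (0 : ℝ) < (j : ℝ) + 1 := by positivity
  have := Real.log_pos (by norm_num : (1 : ℝ) < 2)
  field_simp

theorem card_tendsto : Tendsto (fun j : ℕ => Nat.card (DihedralGroup (2 ^ j))) atTop atTop := by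
  refine tendsto_atTop_mono (fun j => ?_) tendsto_id
  rw [card_G]
  have : j < 2 ^ j := Nat.lt_two_pow_self
  simp only [id]
  omega

theorem ab_tendsto (N k : ℕ → ℕ) [∀ j, NeZero (N j)] (hk : Tendsto k atTop atTop) :
    Tendsto (fun j => Real.log (Nat.card (Abelianization (DihedralGroup (N j)))) / (k j : ℝ))
      atTop (𝓝 0) := by
  have hkr : Tendsto (fun j => (k j : ℝ)) atTop atTop := tendsto_natCast_atTop_atTop.comp hk
  have h1 : Tendsto (fun j => Real.log 4 / (k j : ℝ)) atTop (𝓝 0) :=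
    tendsto_const_nhds.div_atTop hkr
  refine squeeze_zero (fun j => div_nonneg (log_ab (N j)).1 (Nat.cast_nonneg _)) (fun j => ?_) h1
  exact div_le_div_of_nonneg_right (log_ab (N j)).2 (Nat.cast_nonneg _)

theorem nilp (m : ℕ) : Group.IsNilpotent (DihedralGroup (2 ^ m)) := by
  have : Fact (Nat.Prime 2) := ⟨Nat.prime_two⟩
  have h : IsPGroup 2 (DihedralGroup (2 ^ m)) :=
    IsPGroup.of_card (n := m + 1) (by rw [card_G]; ring)
  exact h.isNilpotent

theorem log_div_tendsto (N k : ℕ → ℕ) [∀ j, NeZero (N j)] (hk : Tendsto k atTop atTop) {C : ℝ}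
    (hC : 0 < C) (hkN : ∀ᶠ j in atTop, (k j : ℝ) ≤ Real.log (2 * N j) ^ C) :
    Tendsto (fun j => Real.log (k j) / Real.log (Nat.card (DihedralGroup (N j)))) atTop (𝓝 0) := by
  have h1 := (logb_tendsto N k hk hC hkN).inv_tendsto_atTop
  refine h1.congr fun j => ?_
  simp only [Pi.inv_apply]
  rw [Real.logb, inv_div, card_G]
  push_cast
  rfl

theorem card_tendsto' (N k : ℕ → ℕ) [∀ j, NeZero (N j)] (hk : Tendsto k atTop atTop) {C : ℝ}
    (hC : 0 < C) (hkN : ∀ᶠ j in atTop, (k j : ℝ) ≤ Real.log (2 * N j) ^ C) :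
    Tendsto (fun j => Nat.card (DihedralGroup (N j))) atTop atTop := by
  have hkr : Tendsto (fun j => (k j : ℝ)) atTop atTop := tendsto_natCast_atTop_atTop.comp hk
  have h1 : Tendsto (fun j => (k j : ℝ) ^ (1 / C)) atTop atTop :=
    (tendsto_rpow_atTop (by positivity)).comp hkr
  rw [← tendsto_natCast_atTop_iff (R := ℝ)]
  refine tendsto_atTop_mono' _ ?_ h1
  filter_upwards [hkN] with j h2
  have h3 : 1 ≤ N j := Nat.pos_of_ne_zero (NeZero.ne _)
  have h4 : (1 : ℝ) ≤ N j := by exact_mod_cast h3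
  have hlogpos : 0 ≤ Real.log (2 * N j) := Real.log_nonneg (by linarith)
  calc (k j : ℝ) ^ (1 / C) ≤ (Real.log (2 * N j) ^ C) ^ (1 / C) :=
        Real.rpow_le_rpow (Nat.cast_nonneg _) h2 (by positivity)
    _ = Real.log (2 * N j) := by
        rw [← Real.rpow_mul hlogpos, mul_one_div, div_self hC.ne', Real.rpow_one]
    _ ≤ 2 * N j := by
        have := Real.log_le_sub_one_of_pos (x := 2 * (N j : ℝ)) (by linarith)
        linarith
    _ = ((Nat.card (DihedralGroup (N j)) : ℕ) : ℝ) := by rw [card_G]; push_cast; ring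

end

end Pool.Agent.H632R3.Dih
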