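import Mathlib
import Pool.Agent.H632R3.CycFam

open Finset Filter Topology

set_option linter.unusedSectionVars false

namespace Pool.Agent.H632R3.Conv

noncomputable section

variable {A : Type} [AddCommGroup A] [Fintype A] [DecidableEq A]

theorem cpow_shift (f : A → ℝ) (a : A) (t : ℕ) (x : A) :
    cpow (fun x => f (x - a)) t x = cpow f t (x - t • a) := by
  induction t generalizing x with
  | zero => simp [cpow]
  | succ t ih =>
    simp only [cpow, conv]
    simp_rw [ih]
    rw [← Equiv.sum_comp (Equiv.addRight a)]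
    refine Finset.sum_congr rfl fun y _ => ?_
    simp only [Equiv.coe_addRight, add_sub_cancel_right]
    congr 2
    rw [succ_nsmul]
    abel

theorem tv_shift (f : A → ℝ) (c : A) : tv (fun x => f (x - c)) = tv f := by
  unfold tv
  congr 1
  exact Equiv.sum_comp (Equiv.subRight c) (fun x => |f x - 1 / (Fintype.card A : ℝ)|)

theorem tv_cpow_shift (f : A → ℝ) (a : A) (t : ℕ) :
    tv (cpow (fun x => f (x - a)) t) = tv (cpow f t) := by
  have h : cpow (fun x => f (x - a)) t = fun x => cpow f t (x - t • a) :=
    funext (cpow_shift f a t)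
  rw [h, tv_shift (cpow f t) (t • a)]

theorem hat_shift (f : A → ℝ) (a : A) (ψ : AddChar A ℂ) :
    hat (fun x => f (x - a)) ψ = ψ a * hat f ψ := by
  unfold hat
  rw [← Equiv.sum_comp (Equiv.addRight a), Finset.mul_sum]
  refine Finset.sum_congr rfl fun y _ => ?_
  simp only [Equiv.coe_addRight, add_sub_cancel_right, AddChar.map_add_eq_mul]
  ring

theorem norm_hat_shift (f : A → ℝ) (a : A) (ψ : AddChar A ℂ) :
    ‖hat (fun x => f (x - a)) ψ‖ = ‖hat f ψ‖ := by
  rw [hat_shift, norm_mul, AddChar.norm_apply, one_mul]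

end

end Pool.Agent.H632R3.Conv
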